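import Pool.Agent.Y778.SG.Stm

/-!
The base group of a multiple HNN extension embeds: isomorphic subgroups of `B` are conjugate in the
group of permutations of `B × (B × ℕ)`.
-/

namespace Pool.Agent.Y778.SG

open Monoid Cardinal

section Perm

variable {B : Type} [Group B]

/-- `B ≃ A × B/A`, equivariant for the left translations by `A`. -/
noncomputable def splitL (A : Subgroup B) : B ≃ A × (B ⧸ A) where
  toFun b := (⟨b * Quotient.out (QuotientGroup.mk b⁻¹ : B ⧸ A), by
    have h : (QuotientGroup.mk b⁻¹ : B ⧸ A) = QuotientGroup.mk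
      (Quotient.out (QuotientGroup.mk b⁻¹ : B ⧸ A)) := (Quotient.out_eq _).symm
    rw [QuotientGroup.eq] at h
    simpa using h⟩, QuotientGroup.mk b⁻¹)
  invFun x := (x.1 : B) * (Quotient.out x.2)⁻¹
  left_inv b := by simp
  right_inv := by
    rintro ⟨a, q⟩
    have h : (QuotientGroup.mk ((a : B) * (Quotient.out q)⁻¹)⁻¹ : B ⧸ A) = q := by
      rw [mul_inv_rev, inv_inv]
      conv_rhs => rw [← Quotient.out_eq q]
      change (QuotientGroup.mk (Quotient.out q * (a : B)⁻¹) : B ⧸ A) =
        QuotientGroup.mk (Quotient.out q)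
      rw [QuotientGroup.eq]
      simp
    apply Prod.ext
    · apply Subtype.ext
      change (a : B) * (Quotient.out q)⁻¹ * Quotient.out (QuotientGroup.mk _ : B ⧸ A) = a
      rw [h]
      simp
    · exact h

theorem splitL_symm (A : Subgroup B) (a a' : A) (q : B ⧸ A) :
    (splitL A).symm (a * a', q) = (a : B) * (splitL A).symm (a', q) := by
  change ((a * a' : A) : B) * _ = (a : B) * ((a' : B) * _)
  rw [Subgroup.coe_mul, mul_assoc]

theorem absorb (A : Subgroup B) : Nonempty ((B ⧸ A) × (B × ℕ) ≃ B × ℕ) := by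
  have h1 : ℵ₀ ≤ #(B × ℕ) := by
    rw [mk_prod, lift_id, lift_id, mk_nat]
    exact le_mul_left (mk_ne_zero B)
  have h2 : #(B ⧸ A) ≤ #(B × ℕ) := by
    calc #(B ⧸ A) ≤ #B := mk_le_of_surjective (QuotientGroup.mk_surjective)
      _ ≤ #(B × ℕ) := by
        rw [mk_prod, lift_id, lift_id, mk_nat]
        exact le_mul_right aleph0_ne_zero
  rw [← Cardinal.eq, mk_prod, lift_id, lift_id]
  exact mul_eq_right h1 h2 (mk_ne_zero _)

/-- `B × (B × ℕ)` as a free `A`-set. -/
noncomputable def splitX (A : Subgroup B) : B × (B × ℕ) ≃ A × (B × ℕ) :=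
  ((splitL A).prodCongr (Equiv.refl _)).trans
    ((Equiv.prodAssoc _ _ _).trans ((Equiv.refl A).prodCongr (absorb A).some))

theorem splitX_symm (A : Subgroup B) (a a' : A) (y : B × ℕ) :
    (splitX A).symm (a * a', y) =
      ((a : B) * ((splitX A).symm (a', y)).1, ((splitX A).symm (a', y)).2) := by
  unfold splitX
  simp only [Equiv.symm_trans_apply, Equiv.prodCongr_symm, Equiv.refl_symm, Equiv.prodCongr_apply,
    Prod.map_apply, Equiv.coe_refl, id_eq, Equiv.prodAssoc_symm_apply]
  rw [splitL_symm]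

theorem splitX_mul (A : Subgroup B) (a : A) (x : B × (B × ℕ)) :
    splitX A ((a : B) * x.1, x.2) = (a * (splitX A x).1, (splitX A x).2) := by
  rw [← Equiv.eq_symm_apply, splitX_symm]
  simp

/-- The conjugating permutation. -/
noncomputable def conjPerm {A A' : Subgroup B} (φ : A ≃* A') : Equiv.Perm (B × (B × ℕ)) :=
  (splitX A).trans ((φ.toEquiv.prodCongr (Equiv.refl _)).trans (splitX A').symm)

theorem conjPerm_mul {A A' : Subgroup B} (φ : A ≃* A') (a : A) (x : B × (B × ℕ)) :
    conjPerm φ ((a : B) * x.1, x.2) = ((φ a : B) * (conjPerm φ x).1, (conjPerm φ x).2) := by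
  unfold conjPerm
  simp only [Equiv.trans_apply]
  rw [splitX_mul]
  simp only [Equiv.prodCongr_apply, Prod.map_apply, MulEquiv.toEquiv_eq_coe, EquivLike.coe_coe,
    map_mul, Equiv.coe_refl, id_eq]
  rw [splitX_symm]
  rfl

/-- The left translations on `B × (B × ℕ)`. -/
noncomputable def leftPerm (B : Type) [Group B] : B →* Equiv.Perm (B × (B × ℕ)) where
  toFun b := (Equiv.mulLeft b).prodCongr (Equiv.refl _)
  map_one' := by
    ext x <;> simp
  map_mul' b b' := by
    ext x <;> simp [mul_assoc]

theorem leftPerm_apply (b : B) (x : B × (B × ℕ)) : leftPerm B b x = (b * x.1, x.2) := rfl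

end Perm

/-- The permutation model of a multiple HNN extension. -/
noncomputable def model {B : Type} [Group B] (D : HD B) : HN D →* Equiv.Perm (B × (B × ℕ)) :=
  HN.lift (leftPerm B) (fun p => conjPerm (D.φ p)) (by
    intro p a
    rw [mul_inv_eq_iff_eq_mul]
    ext1 x
    rw [Equiv.Perm.mul_apply, Equiv.Perm.mul_apply, leftPerm_apply, leftPerm_apply]
    exact conjPerm_mul (D.φ p) a x)

theorem base_injective : S_Base := by
  intro B _ D b b' h
  have h1 := congrArg (fun g => (model D g (1, (1, 0))).1) h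
  simp only [model, HN.lift_base, leftPerm_apply, mul_one] at h1
  exact h1

end Pool.Agent.Y778.SG
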