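import Pool.Agent.Y778.SG.Two

/-!
Functors of groups and injective homomorphisms, and kernels of families of natural transformations
from rational homology to such functors.
-/

namespace Pool.Agent.Y778.SG

open CategoryTheory DirectSum Finsupp Monoid Pool.Agent.Y483 Pool.Agent.Y110.KW

/-- A functor from the category of groups and injective homomorphisms to the category of rational
vector spaces. -/
structure InjFun where
  /-- the vector space of a group -/
  obj : (G : Type) → [Group G] → ModuleCat.{0} ℚ
  /-- the map induced by an injective homomorphism -/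
  map : {G K : Type} → [Group G] → [Group K] → (f : G →* K) → Function.Injective f →
    (obj G →ₗ[ℚ] obj K)
  map_id : ∀ (G : Type) [Group G], map (MonoidHom.id G) Function.injective_id = LinearMap.id
  map_comp : ∀ {G K L : Type} [Group G] [Group K] [Group L] (f : G →* K) (hf : Function.Injective f)
    (g : K →* L) (hg : Function.Injective g) (h : Function.Injective (g.comp f)),
    map (g.comp f) h = (map g hg).comp (map f hf)

/-- A family of natural transformations `H_{d(b)}(G; ℚ) → E(G)`, `b ∈ B`. -/
structure InjFam (E : InjFun) (B : Type) (d : B → ℕ) where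
  /-- the components -/
  app : (b : B) → (G : Type) → [Group G] → (HQ (d b) G →ₗ[ℚ] E.obj G)
  nat : ∀ (b : B) {G K : Type} [Group G] [Group K] (f : G →* K) (hf : Function.Injective f)
    (x : HQ (d b) G), E.map f hf (app b G x) = app b K (hqMap f (d b) x)

variable {E : InjFun} {B : Type} {d : B → ℕ}

open Classical in
/-- The sum of the natural transformations. -/
noncomputable def InjFam.tot (α : InjFam E B d) (G : Type) [Group G] : HDeg d G →ₗ[ℚ] E.obj G :=
  DirectSum.toModule ℚ B (E.obj G) fun b : B => α.app b G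

/-- The kernel of the sum of the natural transformations. -/
noncomputable def InjFam.ker (α : InjFam E B d) (G : Type) [Group G] : Submodule ℚ (HDeg d G) :=
  LinearMap.ker (α.tot G)

theorem InjFam.tot_nat (α : InjFam E B d) {G K : Type} [Group G] [Group K] (f : G →* K)
    (hf : Function.Injective f) (x : HDeg d G) :
    E.map f hf (α.tot G x) = α.tot K (hdMap f x) := by
  classical
  have h : (E.map f hf) ∘ₗ (α.tot G) = (α.tot K) ∘ₗ (hdMap f) := by
    apply DirectSum.linearMap_ext
    intro b
    apply LinearMap.ext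
    intro y
    change E.map f hf (α.tot G (DirectSum.lof ℚ B (fun b => HQ (d b) G) b y)) =
      α.tot K (hdMap f (DirectSum.lof ℚ B (fun b => HQ (d b) G) b y))
    have e0 : α.tot G (DirectSum.lof ℚ B (fun b => HQ (d b) G) b y) = α.app b G y := by
      unfold InjFam.tot
      convert DirectSum.toModule_lof ℚ (φ := fun b => α.app b G) b y
    have e1 : hdMap (d := d) f (DirectSum.lof ℚ B (fun b => HQ (d b) G) b y) =
        DirectSum.lof ℚ B (fun b => HQ (d b) K) b (hqMap f (d b) y) := by
      unfold hdMap
      exact DirectSum.lmap_lof _ _ _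
    have e2 : α.tot K (DirectSum.lof ℚ B (fun b => HQ (d b) K) b (hqMap f (d b) y)) =
        α.app b K (hqMap f (d b) y) := by
      unfold InjFam.tot
      convert DirectSum.toModule_lof ℚ (φ := fun b => α.app b K) b (hqMap f (d b) y)
    rw [e0, e1, e2, α.nat]
  exact DFunLike.congr_fun h x

theorem InjFam.mem_ker_map (α : InjFam E B d) {G K : Type} [Group G] [Group K] (f : G →* K)
    (hf : Function.Injective f) {x : HDeg d G} (hx : x ∈ α.ker G) : hdMap f x ∈ α.ker K := by
  unfold InjFam.ker at *
  rw [LinearMap.mem_ker] at *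
  rw [← α.tot_nat f hf, hx, map_zero]

theorem detect_cast {G A : Type} [Group G] [Group A]
    (h : ∀ x : HQ 1 G, x ≠ 0 → ∃ v : G →* A, hqMap v 1 x ≠ 0) (q : ℕ) (x : HQ q G) (hx : x ≠ 0) :
    ∃ v : G →* A, q = 1 → hqMap v q x ≠ 0 := by
  by_cases hq : q = 1
  · subst hq
    obtain ⟨v, hv⟩ := h x hx
    exact ⟨v, fun _ => hv⟩
  · exact ⟨1, fun h => absurd h hq⟩

/-- The kernel of a subgroup whose homology embeds. -/
theorem InjFam.ker_of_embed (α : InjFam E B d) {F S A : Type} [Group F] [Group S] [Group A]
    (u : F →* S) (hu : Function.Injective u) (hq : ∀ q, q ≠ 1 → Function.Injective (hqMap u q))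
    (hA : ∀ x : HQ 1 F, x ≠ 0 → ∃ v : F →* A, hqMap v 1 x ≠ 0)
    (hS : α.ker (S × A) = ⊥) : α.ker F = ⊥ := by
  rw [eq_bot_iff]
  intro x hx
  rw [Submodule.mem_bot]
  apply DFinsupp.ext
  intro b
  change x b = 0
  by_contra hb
  obtain ⟨v, hv⟩ := detect_cast hA (d b) (x b) hb
  have hw : Function.Injective (u.prod v) := by
    intro y z hyz
    exact hu (congrArg Prod.fst hyz)
  have h1 := α.mem_ker_map (u.prod v) hw hx
  rw [hS, Submodule.mem_bot] at h1
  have h2 : hqMap (u.prod v) (d b) (x b) = 0 := by
    rw [← hdMap_apply, h1]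
    rfl
  by_cases h3 : d b = 1
  · apply hv h3
    have h4 : (MonoidHom.snd S A).comp (u.prod v) = v := MonoidHom.snd_comp_prod u v
    rw [← h4, hqMap_comp, h2, map_zero]
  · apply hb
    apply hq (d b) h3
    have h4 : (MonoidHom.fst S A).comp (u.prod v) = u := MonoidHom.fst_comp_prod u v
    rw [← h4, hqMap_comp, h2, map_zero, map_zero]

/-- A nonzero class of degree one is detected by a homomorphism to `ℚ`. -/
theorem detectQ {G : Type} [Group G] (x : HQ 1 G) (hx : x ≠ 0) :
    ∃ v : G →* Multiplicative ℚ, hqMap v 1 x ≠ 0 := by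
  classical
  obtain ⟨z, hz⟩ := exists_rpr (Rep.trivial ℚ G ℚ) 1 x
  obtain ⟨c, hc, hcz⟩ := detect1 z (fun h => hx ((hz.eq_zero_iff).mpr h))
  have hc1 : c 1 = 0 := by
    have := hc 1 1
    rw [mul_one] at this
    linarith
  let v : G →* Multiplicative ℚ :=
    { toFun := fun g => Multiplicative.ofAdd (c g)
      map_one' := by rw [hc1]; rfl
      map_mul' := by
        intro g h
        rw [hc]; rfl }
  refine ⟨v, ?_⟩
  intro h0
  obtain ⟨w, hw⟩ := ((hz.hq v).eq_zero_iff).mp h0
  have h1 := pair1_dd (G := Multiplicative ℚ) (fun n => n.toAdd) (fun g h => toAdd_mul g h) w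
  have hw' : dd (tQ (Multiplicative ℚ)) 1 w = mp 1 v LinearMap.id z := hw
  rw [hw'] at h1
  have h2 : (pair1 fun n : Multiplicative ℚ => n.toAdd) ∘ₗ
      (mp 1 v (LinearMap.id : ℚ →ₗ[ℚ] ℚ)) = pair1 c := by
    apply T_ext
    intro y r
    rw [LinearMap.comp_apply, mp_single, pair1_single, pair1_single]
    rfl
  have h3 := DFunLike.congr_fun h2 z
  rw [LinearMap.comp_apply, h1] at h3
  exact hcz h3.symm

/-- Two-generator groups. -/
def TwoGen (U : Type) [Group U] : Prop := ∃ x y : U, Subgroup.closure {x, y} = ⊤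

theorem TwoGen.fg {U : Type} [Group U] (h : TwoGen U) : Group.FG U := by
  obtain ⟨x, y, h⟩ := h
  rw [Group.fg_iff]
  exact ⟨{x, y}, h, Set.toFinite _⟩

theorem countable_of_fg (H : Type) [Group H] [hHfg : Group.FG H] : Countable H := by
  obtain ⟨A, _, φ, hφ⟩ := Group.fg_iff_exists_freeGroup_hom_surjective_finite.mp hHfg
  have h' : Function.Surjective (FreeGroup.mk : List (A × Bool) → _) := Quot.mk_surjective
  have h'' : Countable (FreeGroup A) := h'.countable
  exact hφ.countable

/-- Embeddings which are injective on the rational homology in all degrees except one. -/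
def HEmb {F U : Type} [Group F] [Group U] (u : F →* U) : Prop :=
  Function.Injective u ∧ ∀ q, q ≠ 1 → Function.Injective (hqMap u q)

theorem HEmb.comp {F U V : Type} [Group F] [Group U] [Group V] {v : U →* V} {u : F →* U}
    (hv : HEmb v) (hu : HEmb u) : HEmb (v.comp u) := by
  refine ⟨hv.1.comp hu.1, fun q hq x y hxy => ?_⟩
  rw [hqMap_comp, hqMap_comp] at hxy
  exact hu.2 q hq (hv.2 q hq hxy)

end Pool.Agent.Y778.SG
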