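import Pool.Agent.Y778.SG.Cen
import Pool.Agent.Y778.SG.Inj

/-!
Centralizers of elements of finite order under embeddings.
-/

namespace Pool.Agent.Y778.SG

open CategoryTheory DirectSum Finsupp Monoid Pool.Agent.Y483 Pool.Agent.Y110.KW

/-- The centralizer of an element. -/
abbrev Cen {G : Type} [Group G] (c : G) : Subgroup G := Subgroup.centralizer {c}

theorem mem_Cen {G : Type} [Group G] {c z : G} : z ∈ Cen c ↔ z * c = c * z := by
  rw [Subgroup.mem_centralizer_singleton_iff]

/-- The homomorphism between centralizers induced by a homomorphism. -/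
def cmap {F W : Type} [Group F] [Group W] (w : F →* W) (c : F) : Cen c →* Cen (w c) :=
  (w.comp (Cen c).subtype).codRestrict (Cen (w c)) (by
    rintro ⟨z, hz⟩
    rw [mem_Cen] at *
    change w z * w c = w c * w z
    rw [← map_mul, hz, map_mul])

theorem cmap_coe {F W : Type} [Group F] [Group W] (w : F →* W) (c : F) (z : Cen c) :
    (cmap w c z : W) = w z := rfl

/-- Elements of finite order which are not conjugate stay so, and their centralizers are retracts
of the centralizers of the images. -/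
def CInj {F W : Type} [Group F] [Group W] (w : F →* W) : Prop :=
  ∀ c : F, IsOfFinOrder c → c ≠ 1 → (∀ c' : F, IsConj (w c) (w c') → IsConj c c') ∧
    ∃ r : Cen (w c) →* Cen c, ∀ z, r (cmap w c z) = z

theorem CInj.comp {F W V : Type} [Group F] [Group W] [Group V] {v : W →* V} {w : F →* W}
    (hw : Function.Injective w) (h2 : CInj v) (h1 : CInj w) : CInj (v.comp w) := by
  intro c hc hc1
  obtain ⟨a1, r1, b1⟩ := h1 c hc hc1
  obtain ⟨a2, r2, b2⟩ := h2 (w c) (w.isOfFinOrder hc) (fun h => hc1 (hw (by rw [h, map_one])))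
  refine ⟨fun c' h => a1 c' (a2 (w c') h), r1.comp r2, fun z => ?_⟩
  change r1 (r2 (cmap v (w c) (cmap w c z))) = z
  rw [b2, b1]

theorem CInj.of_retr {F W : Type} [Group F] [Group W] (w : F →* W) (r : W →* F)
    (h : ∀ z, r (w z) = z) : CInj w := by
  intro c _ _
  refine ⟨fun c' h' => ?_, (r.comp (Cen (w c)).subtype).codRestrict (Cen c) ?_, fun z => ?_⟩
  · have := r.map_isConj h'
    rwa [h, h] at this
  · rintro ⟨z, hz⟩
    rw [mem_Cen] at *
    change r z * c = c * r z
    have h1 := congrArg r hz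
    rwa [map_mul, map_mul, h] at h1
  · apply Subtype.ext
    exact h z

/-- Only elements of the subgroup conjugate nontrivial elements of finite order of the subgroup into
the subgroup. -/
def Mal {F W : Type} [Group F] [Group W] (w : F →* W) : Prop :=
  ∀ c : F, IsOfFinOrder c → c ≠ 1 → ∀ u : W, u * w c * u⁻¹ ∈ w.range → u ∈ w.range

theorem Mal.comp {F W V : Type} [Group F] [Group W] [Group V] {v : W →* V} {w : F →* W}
    (hw : Function.Injective w) (hv : Function.Injective v) (h2 : Mal v) (h1 : Mal w) :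
    Mal (v.comp w) := by
  rintro c hc hc1 u ⟨c', hc'⟩
  have h3 : u ∈ v.range := h2 (w c) (w.isOfFinOrder hc) (fun h => hc1 (hw (by rw [h, map_one]))) u
    ⟨w c', hc'⟩
  obtain ⟨y, rfl⟩ := h3
  have h4 : y * w c * y⁻¹ = w c' := by
    apply hv
    rw [map_mul, map_mul, map_inv]
    exact hc'.symm
  obtain ⟨x, rfl⟩ := h1 c hc hc1 y ⟨c', h4.symm⟩
  exact ⟨x, rfl⟩

theorem Mal.id (F : Type) [Group F] : Mal (MonoidHom.id F) := fun _ _ _ u _ => ⟨u, rfl⟩

theorem Mal.cinj {F W : Type} [Group F] [Group W] {w : F →* W} (hw : Function.Injective w)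
    (h : Mal w) : CInj w := by
  intro c hc hc1
  have h0 : ∀ z : Cen (w c), (z : W) ∈ w.range := by
    rintro ⟨z, hz⟩
    apply h c hc hc1
    rw [mem_Cen] at hz
    refine ⟨c, ?_⟩
    rw [hz, mul_inv_cancel_right]
  refine ⟨fun c' h' => ?_, ((MonoidHom.ofInjective hw).symm.toMonoidHom.comp
    ((Cen (w c)).subtype.codRestrict w.range h0)).codRestrict (Cen c) ?_, fun z => ?_⟩
  · obtain ⟨u, hu⟩ := isConj_iff.mp h'
    obtain ⟨x, rfl⟩ := h c hc hc1 u ⟨c', hu.symm⟩
    refine isConj_iff.mpr ⟨x, ?_⟩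
    apply hw
    rw [map_mul, map_mul, map_inv, hu]
  · intro z
    rw [mem_Cen]
    apply hw
    have e : w ((MonoidHom.ofInjective hw).symm ⟨z, h0 z⟩) = z :=
      congrArg Subtype.val ((MonoidHom.ofInjective hw).apply_symm_apply ⟨z, h0 z⟩)
    change w ((MonoidHom.ofInjective hw).symm ⟨z, h0 z⟩ * c) =
      w (c * (MonoidHom.ofInjective hw).symm ⟨z, h0 z⟩)
    rw [map_mul, map_mul, e]
    exact mem_Cen.mp z.2
  · apply Subtype.ext
    change (MonoidHom.ofInjective hw).symm ⟨cmap w c z, h0 _⟩ = z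
    exact (MonoidHom.ofInjective hw).symm_apply_apply (z : F)

theorem mal_base {B : Type} [Group B] (D : HD B) (hA : ∀ p, TF (D.A' p)) : Mal (HN.base D) :=
  fun c hc hc1 u hu => conj_mem_base D hA c hc hc1 u hu

theorem TF.equiv {G H : Type} [Group G] [Group H] (e : G ≃* H) (h : TF G) : TF H := by
  intro x hx
  have h1 := h _ (e.symm.toMonoidHom.isOfFinOrder hx)
  exact (map_eq_one_iff e.symm e.symm.injective).mp h1

theorem tf_freeGroup (X : Type) : TF (FreeGroup X) := fun x hx => (isOfFinOrder_iff_eq_one x).mp hx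

theorem tf_of_subsingleton (G : Type) [Group G] [Subsingleton G] : TF G :=
  fun _ _ => Subsingleton.elim _ _

end Pool.Agent.Y778.SG
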