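import Pool.Agent.Y110.KW.Ker
import Pool.Agent.Y778.SG.Hnn

/-!
Statements of the parts of the theorem on simple groups and rational assembly maps.
-/

namespace Pool.Agent.Y778.SG

open CategoryTheory Monoid Pool.Agent.Y483 Pool.Agent.Y110.KW

/-- The group has no rational homology in degrees at least two. -/
def NoH (A : Type) [Group A] : Prop := ∀ q, 2 ≤ q → ∀ x : HQ q A, x = 0

/-- Torsion-free groups. -/
def TF (G : Type) [Group G] : Prop := ∀ g : G, IsOfFinOrder g → g = 1

/-- The base group embeds. -/
def S_Base : Prop := ∀ (B : Type) [Group B] (D : HD B), Function.Injective (HN.base D)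

/-- A multiple HNN extension of a torsion-free group is torsion-free. -/
def S_TF : Prop := ∀ (B : Type) [Group B] (D : HD B), TF B → TF (HN D)

/-- Homology of the base group embeds in degrees at least two, if the associated subgroups have no
rational homology in degrees at least two. -/
def S_Hom : Prop := ∀ (B : Type) [Group B] (D : HD B), (∀ p, NoH (D.A p)) → ∀ q, 2 ≤ q →
  Function.Injective (hqMap (HN.base D) q)

/-- Every homology class comes from a finitely presented group. -/
def S_HFP : Prop := ∀ (J : Set ℕ) (G : Type) [Group G] (x : HJ J G),
  ∃ (F : Type) (_ : Group F) (_ : Group.IsFinitelyPresented F) (f : F →* G) (y : HJ J F),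
    hjMap J f y = x

/-- The functor `E` is finitary: an element of `E F`, `F` finitely presented, which is killed by a
homomorphism `f : F → G`, is killed in a finitely presented group through which `f` factors. -/
def Finitary (E : GrpCat.{0} ⥤ ModuleCat.{0} ℚ) : Prop :=
  ∀ (F G : Type) [Group F] [Group G] [Group.IsFinitelyPresented F] (f : F →* G)
    (z : E.obj (GrpCat.of F)), (E.map (GrpCat.ofHom f)).hom z = 0 →
    ∃ (F' : Type) (_ : Group F') (_ : Group.IsFinitelyPresented F') (g : F →* F') (h : F' →* G),
      h.comp g = f ∧ (E.map (GrpCat.ofHom g)).hom z = 0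

/-- The rationalised L-groups of group rings form a finitary functor. -/
def S_Fin : Prop := ∀ (ε : ℤˣ) (T : Type) [Group T], Finitary (lgrp ε T)

end Pool.Agent.Y778.SG
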