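import Pool.Agent.Y778.SG.Hom
import Pool.Agent.Y941.SG.TF

/-!
Elements of finite order in multiple HNN extensions with torsion-free associated subgroups.
-/

namespace Pool.Agent.Y778.SG

open Finsupp Pool.Agent.Y483 Pool.Agent.Y110.KW

section Cen

variable {B : Type} [Group B] (D : HD B)

/-- The coefficient of the base vertex in the boundary of an edge. -/
noncomputable def wt (e : ES D) : ℚ := del D (single e 1) (QuotientGroup.mk 1)

theorem wt_int (e : ES D) : ∃ k : ℤ, (k : ℚ) = wt D e := by
  classical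
  obtain ⟨p, x⟩ := e
  obtain ⟨g, rfl⟩ := QuotientGroup.mk_surjective x
  unfold wt
  rw [del_single, Finsupp.sub_apply, Finsupp.single_apply, Finsupp.single_apply]
  refine ⟨(if (QuotientGroup.mk (g * HN.t D p) : HN D ⧸ Bs D) = QuotientGroup.mk 1 then 1 else 0) -
    (if (QuotientGroup.mk g : HN D ⧸ Bs D) = QuotientGroup.mk 1 then 1 else 0), ?_⟩
  push_cast
  rfl

theorem permE_apply_eq (g : HN D) (m : ES D →₀ ℚ) (e : ES D) :
    permE D g m e = m (actE D g⁻¹ e) := by
  have h := permE_apply D g m (actE D g⁻¹ e)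
  have h1 : actE D g (actE D g⁻¹ e) = e := by
    unfold actE
    simp
  rw [h1] at h
  exact h

theorem dv_one : dv D (1 : HN D) = 0 := by
  rw [← map_one (HN.base D), dv_base]

theorem dv_int (g : HN D) : ∀ e, ∃ k : ℤ, (k : ℚ) = dv D g e := by
  let H : Subgroup (HN D) :=
    { carrier := {g | ∀ e, ∃ k : ℤ, (k : ℚ) = dv D g e}
      one_mem' := by
        intro e
        exact ⟨0, by rw [dv_one]; simp⟩
      mul_mem' := by
        intro g h hg hh e
        obtain ⟨k, hk⟩ := hg e
        obtain ⟨l, hl⟩ := hh (actE D g⁻¹ e)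
        refine ⟨k + l, ?_⟩
        rw [dv_mul, Finsupp.add_apply, permE_apply_eq, ← hk, ← hl]
        push_cast
        rfl
      inv_mem' := by
        intro g hg e
        obtain ⟨k, hk⟩ := hg (actE D g⁻¹⁻¹ e)
        refine ⟨-k, ?_⟩
        have h1 : dv D g⁻¹ = - permE D g⁻¹ (dv D g) := by
          have h2 := dv_mul D g⁻¹ g
          rw [inv_mul_cancel, dv_one] at h2
          exact eq_neg_of_add_eq_zero_left h2.symm
        rw [h1, Finsupp.neg_apply, permE_apply_eq, ← hk]
        push_cast
        rfl }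
  refine HN.mem_of H ?_ ?_ g
  · intro b e
    exact ⟨0, by rw [dv_base]; simp⟩
  · intro p e
    classical
    rw [dv_t, eb, Finsupp.single_apply]
    exact ⟨if (⟨p, QuotientGroup.mk 1⟩ : ES D) = e then 1 else 0, by push_cast; rfl⟩

theorem del_apply (m : ES D →₀ ℚ) : del D m (QuotientGroup.mk 1) = ∑ e ∈ m.support, m e * wt D e := by
  have h : m = ∑ e ∈ m.support, m e • single e (1 : ℚ) := by
    conv_lhs => rw [← Finsupp.sum_single m]
    rw [Finsupp.sum]
    apply Finset.sum_congr rfl
    intro e _
    rw [Finsupp.smul_single, smul_eq_mul, mul_one]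
  conv_lhs => rw [h]
  rw [map_sum, Finsupp.finsetSum_apply]
  apply Finset.sum_congr rfl
  intro e _
  rw [map_smul, Finsupp.smul_apply, smul_eq_mul]
  rfl

/-- The action on the edges. -/
theorem smul_eq_actE (g : HN D) (e : ES D) : g • e = actE D g e := rfl

theorem free_edges (hA : ∀ p, TF (D.A' p)) (γ : HN D) (hγ : IsOfFinOrder γ) :
    ∀ σ ∈ Subgroup.zpowers γ, ∀ e : ES D, σ • e = e → σ = 1 := by
  rintro σ hσ ⟨p, x⟩ he
  obtain ⟨g, rfl⟩ := QuotientGroup.mk_surjective x
  have h1 : (QuotientGroup.mk (σ * g) : HN D ⧸ A2 D p) = QuotientGroup.mk g := by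
    have := eq_of_heq (Sigma.mk.inj he).2
    exact this
  rw [eq_comm, QuotientGroup.eq] at h1
  obtain ⟨a, ha, hb⟩ := h1
  have hσf : IsOfFinOrder σ := by
    obtain ⟨k, rfl⟩ := Subgroup.mem_zpowers_iff.1 hσ
    exact hγ.zpow
  have h2 : IsOfFinOrder (HN.base D a) := by
    rw [hb]
    have h3 : g⁻¹ * (σ * g) = g⁻¹ * σ * g⁻¹⁻¹ := by group
    rw [h3]
    exact (MulAut.conj g⁻¹).toMonoidHom.isOfFinOrder hσf
  have h3 : IsOfFinOrder a := ((base_injective B D).isOfFinOrder_iff).mp h2
  have h4 : (⟨a, ha⟩ : D.A' p) = 1 := by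
    apply hA p
    have h3' : IsOfFinOrder ((D.A' p).subtype ⟨a, ha⟩) := h3
    exact (D.A' p).subtype_injective.isOfFinOrder_iff.mp h3'
  have h5 : a = 1 := congrArg Subtype.val h4
  rw [h5, map_one] at hb
  have h6 : σ = g * (g⁻¹ * (σ * g)) * g⁻¹ := by group
  rw [h6, ← hb]
  group

/-- An element which conjugates a nontrivial element of finite order of the base group into the base
group lies in the base group, if the associated subgroups are torsion-free. -/
theorem conj_mem_base (hA : ∀ p, TF (D.A' p)) (c : B) (hc : IsOfFinOrder c) (hc1 : c ≠ 1)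
    (u : HN D) (hu : u * HN.base D c * u⁻¹ ∈ (HN.base D).range) : u ∈ (HN.base D).range := by
  classical
  set γ := HN.base D c with hγ
  have hγf : IsOfFinOrder γ := (HN.base D).isOfFinOrder hc
  have hγ1 : γ ≠ 1 := by
    intro h
    apply hc1
    apply base_injective B D
    rw [map_one]
    exact h
  set g := u⁻¹ with hg
  by_contra hcon
  have hgne : (QuotientGroup.mk g : HN D ⧸ Bs D) ≠ QuotientGroup.mk 1 := by
    intro h
    rw [QuotientGroup.eq, mul_one, hg, inv_inv] at h
    exact hcon h
  -- the vertices are fixed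
  have hfix1 : ∀ σ ∈ Subgroup.zpowers γ, (QuotientGroup.mk (σ * 1) : HN D ⧸ Bs D) =
      QuotientGroup.mk 1 := by
    intro σ hσ
    rw [QuotientGroup.eq, mul_one, mul_one]
    apply Subgroup.inv_mem
    have : Subgroup.zpowers γ ≤ Bs D := by
      rw [Subgroup.zpowers_le]
      exact ⟨c, rfl⟩
    exact this hσ
  have hfix2 : (QuotientGroup.mk (γ * g) : HN D ⧸ Bs D) = QuotientGroup.mk g := by
    rw [eq_comm, QuotientGroup.eq]
    have h : g⁻¹ * (γ * g) = u * γ * u⁻¹ := by rw [hg]; group
    rw [h]
    exact hu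
  have hperm : ∀ g h : HN D, perm (Bs D) g (single (QuotientGroup.mk h) 1) =
      single (QuotientGroup.mk (g * h)) 1 := fun g h => perm_single _ _ _ _
  set m := dv D g with hm
  have hinv : permE D γ m = m := by
    apply del_injective
    rw [del_perm, hm, del_dv, map_sub, hperm, hperm, hfix2,
      hfix1 γ (Subgroup.mem_zpowers γ)]
  have hinv' : ∀ σ ∈ Subgroup.zpowers γ, permE D σ m = m := by
    let K : Subgroup (HN D) :=
      { carrier := {σ | permE D σ m = m}
        one_mem' := by
          change permE D 1 m = m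
          rw [map_one]; rfl
        mul_mem' := by
          intro a b ha hb
          change permE D (a * b) m = m
          rw [map_mul, Module.End.mul_apply]
          rw [show permE D b m = m from hb, show permE D a m = m from ha]
        inv_mem' := by
          intro a ha
          change permE D a⁻¹ m = m
          conv_lhs => rw [← show permE D a m = m from ha]
          exact permE_inv_apply D a m }
    have : Subgroup.zpowers γ ≤ K := by
      rw [Subgroup.zpowers_le]
      exact hinv
    intro σ hσ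
    exact this hσ
  choose kz hkz using dv_int D g
  choose wz hwz using wt_int D
  -- the integral weights
  let n : ES D →₀ ℤ := Finsupp.onFinset m.support (fun e => kz e * wz e) (by
    intro e he
    rw [Finsupp.mem_support_iff]
    intro h0
    apply he
    have h1 : (kz e : ℚ) = 0 := (hkz e).trans h0
    have h2 : kz e = 0 := by exact_mod_cast h1
    rw [h2, zero_mul])
  have hn : ∀ e, (n e : ℚ) = m e * wt D e := by
    intro e
    change ((kz e * wz e : ℤ) : ℚ) = _
    rw [Int.cast_mul, hkz, hwz]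
  have hfin : Finite (Subgroup.zpowers γ) := by
    have h := finite_zpowers.2 hγf
    exact h.to_subtype
  have := Fintype.ofFinite (Subgroup.zpowers γ)
  have hdvd := Pool.Agent.Y941.SG.dvd_aug (Subgroup.zpowers γ) (free_edges D hA γ hγf) n (by
    intro σ hσ
    ext e
    rw [Pool.Agent.Y941.SG.act_apply, smul_eq_actE]
    have h1 : ((n (actE D σ⁻¹ e) : ℤ) : ℚ) = (n e : ℚ) := by
      rw [hn, hn, ← permE_apply_eq, hinv' σ hσ]
      congr 1
      unfold wt
      have h2 : single (actE D σ⁻¹ e) (1 : ℚ) = permE D σ⁻¹ (single e 1) := by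
        rw [permE_single]
      rw [h2, del_perm]
      have h3 := perm_apply' D (Bs D) σ⁻¹ (del D (single e 1)) (QuotientGroup.mk 1)
      have h4 : σ⁻¹ • (QuotientGroup.mk 1 : HN D ⧸ Bs D) = QuotientGroup.mk 1 :=
        hfix1 σ⁻¹ (Subgroup.inv_mem _ hσ)
      rw [h4] at h3
      exact h3
    exact_mod_cast h1)
  have haug : ((Pool.Agent.Y941.SG.aug n : ℤ) : ℚ) = del D m (QuotientGroup.mk 1) := by
    rw [del_apply]
    have h1 : Pool.Agent.Y941.SG.aug n = ∑ e ∈ m.support, n e := by
      unfold Pool.Agent.Y941.SG.aug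
      rw [Finsupp.linearCombination_apply, Finsupp.sum_of_support_subset n (s := m.support)
        (Finsupp.support_onFinset_subset) _ (by simp)]
      simp
    rw [h1, Int.cast_sum]
    exact Finset.sum_congr rfl fun e _ => hn e
  have hval : del D m (QuotientGroup.mk 1) = -1 := by
    rw [hm, del_dv, Finsupp.sub_apply, Finsupp.single_apply, Finsupp.single_apply, if_neg hgne,
      if_pos rfl]
    norm_num
  have haug' : Pool.Agent.Y941.SG.aug n = -1 := by
    have : ((Pool.Agent.Y941.SG.aug n : ℤ) : ℚ) = ((-1 : ℤ) : ℚ) := by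
      rw [haug, hval]; norm_num
    exact_mod_cast this
  rw [haug'] at hdvd
  have h1 : (Fintype.card (Subgroup.zpowers γ) : ℤ) ∣ 1 := (Int.dvd_neg).mp hdvd
  have h2 : Fintype.card (Subgroup.zpowers γ) ∣ 1 := by exact_mod_cast h1
  have h3 : Fintype.card (Subgroup.zpowers γ) = 1 := Nat.dvd_one.1 h2
  rw [Fintype.card_eq_one_iff] at h3
  obtain ⟨x, hx⟩ := h3
  have h4 := hx ⟨γ, Subgroup.mem_zpowers γ⟩
  have h5 := hx ⟨1, Subgroup.one_mem _⟩
  exact hγ1 (congrArg Subtype.val (h4.trans h5.symm))

end Cen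

end Pool.Agent.Y778.SG
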