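import Pool.Agent.Y778.SG.Shap
import Pool.Agent.Y778.SG.Base

/-!
The exact sequence `0 → ⨁_p ℚ[Γ/A'_p] → ℚ[Γ/B] → ℚ → 0` of a multiple HNN extension `Γ`.
-/

namespace Pool.Agent.Y778.SG

open Finsupp Pool.Agent.Y483 Pool.Agent.Y110.KW

section Exact

variable {B : Type} [Group B] (D : HD B)

/-- The base subgroup. -/
noncomputable def Bs : Subgroup (HN D) := (HN.base D).range

/-- The targets of the isomorphisms as subgroups of the extension. -/
noncomputable def A2 (p : D.I) : Subgroup (HN D) := (D.A' p).map (HN.base D)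

/-- The set of the edges. -/
abbrev ES : Type := Σ p : D.I, HN D ⧸ A2 D p

/-- The action on the edges. -/
noncomputable def actE (g : HN D) (x : ES D) : ES D := ⟨x.1, g • x.2⟩

/-- The permutation representation on the edges. -/
noncomputable def permE : Representation ℚ (HN D) (ES D →₀ ℚ) where
  toFun g := Finsupp.lmapDomain ℚ ℚ (actE D g)
  map_one' := by
    apply Finsupp.lhom_ext'
    rintro ⟨p, i⟩
    apply LinearMap.ext
    intro m
    simp [actE]
  map_mul' g h := by
    apply Finsupp.lhom_ext'
    rintro ⟨p, i⟩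
    apply LinearMap.ext
    intro m
    simp [actE, mul_smul]

theorem permE_single (g : HN D) (x : ES D) (m : ℚ) :
    permE D g (single x m) = single (actE D g x) m := by
  simp [permE]

theorem permE_inv_apply (g : HN D) (m : ES D →₀ ℚ) : permE D g⁻¹ (permE D g m) = m := by
  rw [← Module.End.mul_apply, ← map_mul, inv_mul_cancel, map_one]; rfl

theorem permE_apply_inv (g : HN D) (m : ES D →₀ ℚ) : permE D g (permE D g⁻¹ m) = m := by
  rw [← Module.End.mul_apply, ← map_mul, mul_inv_cancel, map_one]; rfl

/-- The action as a homomorphism to permutations. -/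
noncomputable def gperm : HN D →* Equiv.Perm (ES D →₀ ℚ) where
  toFun g := ⟨permE D g, permE D g⁻¹, permE_inv_apply D g, permE_apply_inv D g⟩
  map_one' := by
    ext1 m
    change permE D 1 m = m
    rw [map_one]; rfl
  map_mul' g h := by
    ext1 m
    change permE D (g * h) m = permE D g (permE D h m)
    rw [map_mul]; rfl

theorem gperm_apply (g : HN D) (m : ES D →₀ ℚ) : gperm D g m = permE D g m := rfl

/-- The base edge. -/
noncomputable def eb (p : D.I) : ES D →₀ ℚ := single ⟨p, QuotientGroup.mk 1⟩ 1

theorem permE_eb (g : HN D) (p : D.I) : permE D g (eb D p) = single ⟨p, QuotientGroup.mk g⟩ 1 := by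
  rw [eb, permE_single]
  congr 1
  change (⟨p, QuotientGroup.mk (g * 1)⟩ : ES D) = _
  rw [mul_one]

theorem permE_phi_eb (p : D.I) (a : D.A' p) : permE D (HN.base D a) (eb D p) = eb D p := by
  rw [permE_eb, eb]
  congr 2
  rw [QuotientGroup.eq, mul_one]
  exact Subgroup.inv_mem _ (Subgroup.mem_map_of_mem _ a.2)

/-- The affine action. -/
noncomputable def aff : HN D →* Equiv.Perm (ES D →₀ ℚ) :=
  HN.lift ((gperm D).comp (HN.base D)) (fun p => (gperm D (HN.t D p)).trans (Equiv.addRight (eb D p)))
    (by
      intro p a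
      rw [mul_inv_eq_iff_eq_mul]
      ext1 m
      change permE D (HN.t D p) (permE D (HN.base D (a : B)) m) + eb D p =
        permE D (HN.base D (D.φ p a : B)) (permE D (HN.t D p) m + eb D p)
      rw [map_add, permE_phi_eb, ← Module.End.mul_apply, ← Module.End.mul_apply, ← map_mul,
        ← map_mul, ← HN.t_rel]
      congr 3
      group)

/-- The derivation. -/
noncomputable def dv (g : HN D) : ES D →₀ ℚ := aff D g 0

theorem aff_eq (g : HN D) (m : ES D →₀ ℚ) : aff D g m = permE D g m + dv D g := by
  let H : Subgroup (HN D) :=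
    { carrier := {g | ∀ m, aff D g m = permE D g m + aff D g 0}
      one_mem' := by
        intro m
        rw [map_one, map_one]
        simp
      mul_mem' := by
        intro g h hg hh m
        rw [map_mul, map_mul, Equiv.Perm.mul_apply, Equiv.Perm.mul_apply, hg, hh,
          hg (aff D h 0), map_add]
        change _ = permE D g (permE D h m) + _
        abel
      inv_mem' := by
        intro g hg m
        have h1 : ∀ m, aff D g⁻¹ m = permE D g⁻¹ (m - aff D g 0) := by
          intro m
          have h2 := hg (aff D g⁻¹ m)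
          rw [← Equiv.Perm.mul_apply, ← map_mul, mul_inv_cancel, map_one,
            Equiv.Perm.one_apply] at h2
          conv_rhs => rw [h2]
          rw [add_sub_cancel_right, permE_inv_apply]
        rw [h1, h1, ← map_add]
        congr 1
        abel }
  refine HN.mem_of H ?_ ?_ g m
  · intro b m
    have e : aff D (HN.base D b) = gperm D (HN.base D b) := by
      unfold aff
      rw [HN.lift_base]; rfl
    rw [e, gperm_apply, gperm_apply, map_zero, add_zero]
  · intro p m
    have e : aff D (HN.t D p) = (gperm D (HN.t D p)).trans (Equiv.addRight (eb D p)) := by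
      unfold aff
      rw [HN.lift_t]
    rw [e]
    change permE D (HN.t D p) m + eb D p = permE D (HN.t D p) m + (permE D (HN.t D p) 0 + eb D p)
    rw [map_zero, zero_add]

theorem dv_mul (g h : HN D) : dv D (g * h) = dv D g + permE D g (dv D h) := by
  unfold dv
  rw [map_mul, Equiv.Perm.mul_apply, aff_eq, add_comm]
  rfl

theorem dv_base (b : B) : dv D (HN.base D b) = 0 := by
  unfold dv aff
  rw [HN.lift_base]
  change permE D (HN.base D b) 0 = 0
  rw [map_zero]

theorem dv_t (p : D.I) : dv D (HN.t D p) = eb D p := by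
  unfold dv aff
  rw [HN.lift_t]
  change permE D (HN.t D p) 0 + eb D p = eb D p
  rw [map_zero, zero_add]

theorem dv_congr {g h : HN D} (hgh : (QuotientGroup.mk g : HN D ⧸ Bs D) = QuotientGroup.mk h) :
    dv D g = dv D h := by
  rw [QuotientGroup.eq] at hgh
  obtain ⟨b, hb⟩ := hgh
  have h1 : h = g * HN.base D b := by rw [hb]; group
  rw [h1, dv_mul, dv_base, map_zero, add_zero]

/-- The contraction `ℚ[Γ/B] → ⨁_p ℚ[Γ/A'_p]`. -/
noncomputable def Dm : ((HN D ⧸ Bs D) →₀ ℚ) →ₗ[ℚ] (ES D →₀ ℚ) :=
  Finsupp.linearCombination ℚ fun x => dv D (rp (Bs D) x)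

theorem Dm_single (g : HN D) : Dm D (single (QuotientGroup.mk g) 1) = dv D g := by
  unfold Dm
  rw [Finsupp.linearCombination_single, one_smul]
  exact dv_congr D (mk_rp _ _)

/-- The boundary map. -/
noncomputable def del : (ES D →₀ ℚ) →ₗ[ℚ] ((HN D ⧸ Bs D) →₀ ℚ) :=
  Finsupp.linearCombination ℚ fun x => single (QuotientGroup.mk (rp (A2 D x.1) x.2 * HN.t D x.1)) 1 -
    single (QuotientGroup.mk (rp (A2 D x.1) x.2)) 1

theorem del_single (p : D.I) (g : HN D) : del D (single ⟨p, QuotientGroup.mk g⟩ 1) =
    single (QuotientGroup.mk (g * HN.t D p)) 1 - single (QuotientGroup.mk g) 1 := by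
  unfold del
  rw [Finsupp.linearCombination_single, one_smul]
  have h : (QuotientGroup.mk (rp (A2 D p) (QuotientGroup.mk g)) : HN D ⧸ A2 D p) =
    QuotientGroup.mk g := mk_rp _ _
  rw [QuotientGroup.eq] at h
  set r := rp (A2 D p) (QuotientGroup.mk g)
  obtain ⟨a', ha', h⟩ := h
  have h1 : g = r * HN.base D a' := by rw [h]; group
  congr 2
  · obtain ⟨a, ha⟩ := (D.φ p).surjective ⟨a', ha'⟩
    have h2 := HN.t_rel D p a
    rw [ha] at h2
    rw [QuotientGroup.eq, h1, ← h2]
    refine ⟨(a : B), ?_⟩
    group
  · rw [QuotientGroup.eq, h1]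
    exact ⟨a', by group⟩

theorem E_ext {V : Type} [AddCommGroup V] [Module ℚ V] {f f' : (ES D →₀ ℚ) →ₗ[ℚ] V}
    (h : ∀ p g, f (single ⟨p, QuotientGroup.mk g⟩ 1) = f' (single ⟨p, QuotientGroup.mk g⟩ 1)) :
    f = f' := by
  apply Finsupp.lhom_ext'
  rintro ⟨p, x⟩
  apply LinearMap.ext_ring
  obtain ⟨g, rfl⟩ := QuotientGroup.mk_surjective x
  exact h p g

theorem C_ext {V : Type} [AddCommGroup V] [Module ℚ V] {f f' : ((HN D ⧸ Bs D) →₀ ℚ) →ₗ[ℚ] V}
    (h : ∀ g, f (single (QuotientGroup.mk g) 1) = f' (single (QuotientGroup.mk g) 1)) :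
    f = f' := by
  apply Finsupp.lhom_ext'
  intro x
  apply LinearMap.ext_ring
  obtain ⟨g, rfl⟩ := QuotientGroup.mk_surjective x
  exact h g

theorem del_perm (h : HN D) (m : ES D →₀ ℚ) : del D (permE D h m) = perm (Bs D) h (del D m) := by
  have e : (del D) ∘ₗ (permE D h) = (perm (Bs D) h) ∘ₗ (del D) := by
    apply E_ext
    intro p g
    rw [LinearMap.comp_apply, LinearMap.comp_apply, permE_single, del_single, map_sub, perm_single,
      perm_single]
    change del D (single ⟨p, QuotientGroup.mk (h * g)⟩ 1) =
      single (QuotientGroup.mk (h * (g * HN.t D p))) 1 - single (QuotientGroup.mk (h * g)) 1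
    rw [del_single, mul_assoc]
  exact DFunLike.congr_fun e m

theorem Dm_del (m : ES D →₀ ℚ) : Dm D (del D m) = m := by
  have e : (Dm D) ∘ₗ (del D) = LinearMap.id := by
    apply E_ext
    intro p g
    rw [LinearMap.comp_apply, del_single, map_sub, Dm_single, Dm_single, dv_mul, dv_t, permE_eb,
      add_sub_cancel_left, LinearMap.id_apply]
  exact DFunLike.congr_fun e m

theorem del_injective : Function.Injective (del D) :=
  Function.LeftInverse.injective (Dm_del D)

theorem del_dv (g : HN D) : del D (dv D g) =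
    single (QuotientGroup.mk g) 1 - single (QuotientGroup.mk 1) 1 := by
  have hperm : ∀ g h : HN D, perm (Bs D) g (single (QuotientGroup.mk h) 1) =
      single (QuotientGroup.mk (g * h)) 1 := fun g h => perm_single _ _ _ _
  let H : Subgroup (HN D) :=
    { carrier := {g | del D (dv D g) = single (QuotientGroup.mk g) 1 -
        single (QuotientGroup.mk 1) 1}
      one_mem' := by
        change del D (dv D 1) = _ - _
        have h1 : dv D (1 : HN D) = 0 := by
          rw [← map_one (HN.base D), dv_base]
        rw [h1, map_zero, sub_self]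
      mul_mem' := by
        intro g h hg hh
        change del D (dv D (g * h)) = _ - _
        change del D (dv D g) = _ - _ at hg
        change del D (dv D h) = _ - _ at hh
        rw [dv_mul, map_add, hg, del_perm, hh, map_sub, hperm, hperm, mul_one]
        abel
      inv_mem' := by
        intro g hg
        change del D (dv D g⁻¹) = _ - _
        change del D (dv D g) = _ - _ at hg
        have h1 : dv D g⁻¹ = - permE D g⁻¹ (dv D g) := by
          have h2 := dv_mul D g⁻¹ g
          rw [inv_mul_cancel] at h2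
          have h3 : dv D (1 : HN D) = 0 := by
            rw [← map_one (HN.base D), dv_base]
          rw [h3] at h2
          exact eq_neg_of_add_eq_zero_left h2.symm
        rw [h1, map_neg, del_perm, hg, map_sub, hperm, hperm, inv_mul_cancel, mul_one, neg_sub] }
  refine HN.mem_of H ?_ ?_ g
  · intro b
    change del D (dv D _) = _ - _
    rw [dv_base, map_zero, eq_comm, sub_eq_zero]
    congr 1
    rw [QuotientGroup.eq, mul_one]
    exact Subgroup.inv_mem _ ⟨b, rfl⟩
  · intro p
    change del D (dv D _) = _ - _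
    rw [dv_t, eb, del_single, one_mul]

theorem del_Dm (m : (HN D ⧸ Bs D) →₀ ℚ) :
    del D (Dm D m) = m - single (QuotientGroup.mk 1) (aug (HN D ⧸ Bs D) m) := by
  have e : (del D) ∘ₗ (Dm D) = LinearMap.id -
      (lsingle (QuotientGroup.mk 1)) ∘ₗ (aug (HN D ⧸ Bs D)) := by
    apply C_ext
    intro g
    rw [LinearMap.comp_apply, Dm_single, del_dv, LinearMap.sub_apply, LinearMap.comp_apply,
      aug_single, LinearMap.id_apply, lsingle_apply]
  exact DFunLike.congr_fun e m

end Exact

end Pool.Agent.Y778.SG
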