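import Pool.Agent.Y778.SG.CInj

/-!
Families of natural transformations from the rational homology of the centralizers of the elements
of finite order.
-/

namespace Pool.Agent.Y778.SG

open CategoryTheory DirectSum Finsupp Monoid Pool.Agent.Y483 Pool.Agent.Y110.KW

/-- A family of natural transformations `H_{d(b)}(Z_G(c); ℚ) → E(G)`, for `b ∈ B` and the elements
`c` of finite order of `G`, `Z_G(c)` the centralizer. -/
structure DFam (E : InjFun) (B : Type) (d : B → ℕ) where
  /-- the components -/
  app : (b : B) → (G : Type) → [Group G] → (c : G) → IsOfFinOrder c →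
    (HQ (d b) (Cen c) →ₗ[ℚ] E.obj G)
  nat : ∀ (b : B) {G K : Type} [Group G] [Group K] (f : G →* K) (hf : Function.Injective f) (c : G)
    (hc : IsOfFinOrder c) (x : HQ (d b) (Cen c)),
    E.map f hf (app b G c hc x) = app b K (f c) (f.isOfFinOrder hc) (hqMap (cmap f c) (d b) x)

variable {E : InjFun} {B : Type} {d : B → ℕ}

open Classical in
/-- The sum over `b ∈ B` of the natural transformations, for one element of finite order. -/
noncomputable def DFam.tot (α : DFam E B d) (G : Type) [Group G] (c : G) (hc : IsOfFinOrder c) :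
    HDeg d (Cen c) →ₗ[ℚ] E.obj G :=
  DirectSum.toModule ℚ B (E.obj G) fun b : B => α.app b G c hc

/-- The sum `⨁_{(c)} ⨁_b H_{d(b)}(Z_G(c); ℚ) → E(G)`, over the conjugacy classes of the elements
`c` of finite order, is injective. -/
def DFam.Inj (α : DFam E B d) (G : Type) [Group G] : Prop :=
  ∀ (n : ℕ) (c : Fin n → G) (hc : ∀ i, IsOfFinOrder (c i)),
    (∀ i j, i ≠ j → ¬ IsConj (c i) (c j)) → ∀ x : ∀ i, HDeg d (Cen (c i)),
      ∑ i, α.tot G (c i) (hc i) (x i) = 0 → ∀ i, x i = 0

theorem DFam.tot_nat (α : DFam E B d) {G K : Type} [Group G] [Group K] (f : G →* K)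
    (hf : Function.Injective f) (c : G) (hc : IsOfFinOrder c) (x : HDeg d (Cen c)) :
    E.map f hf (α.tot G c hc x) = α.tot K (f c) (f.isOfFinOrder hc) (hdMap (cmap f c) x) := by
  classical
  have h : (E.map f hf) ∘ₗ (α.tot G c hc) =
      (α.tot K (f c) (f.isOfFinOrder hc)) ∘ₗ (hdMap (cmap f c)) := by
    apply DirectSum.linearMap_ext
    intro b
    apply LinearMap.ext
    intro y
    change E.map f hf (α.tot G c hc (DirectSum.lof ℚ B (fun b => HQ (d b) (Cen c)) b y)) =
      α.tot K (f c) (f.isOfFinOrder hc)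
        (hdMap (cmap f c) (DirectSum.lof ℚ B (fun b => HQ (d b) (Cen c)) b y))
    have e0 : α.tot G c hc (DirectSum.lof ℚ B (fun b => HQ (d b) (Cen c)) b y) =
        α.app b G c hc y := by
      unfold DFam.tot
      convert DirectSum.toModule_lof ℚ (φ := fun b => α.app b G c hc) b y
    have e1 : hdMap (d := d) (cmap f c) (DirectSum.lof ℚ B (fun b => HQ (d b) (Cen c)) b y) =
        DirectSum.lof ℚ B (fun b => HQ (d b) (Cen (f c))) b (hqMap (cmap f c) (d b) y) := by
      unfold hdMap
      exact DirectSum.lmap_lof _ _ _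
    have e2 : α.tot K (f c) (f.isOfFinOrder hc)
        (DirectSum.lof ℚ B (fun b => HQ (d b) (Cen (f c))) b (hqMap (cmap f c) (d b) y)) =
        α.app b K (f c) (f.isOfFinOrder hc) (hqMap (cmap f c) (d b) y) := by
      unfold DFam.tot
      convert DirectSum.toModule_lof ℚ (φ := fun b => α.app b K (f c) (f.isOfFinOrder hc)) b
        (hqMap (cmap f c) (d b) y)
    rw [e0, e1, e2, α.nat]
  exact DFunLike.congr_fun h x

/-- The centralizer of the identity. -/
noncomputable def cenOne (F : Type) [Group F] : F →* Cen (1 : F) :=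
  (MonoidHom.id F).codRestrict (Cen (1 : F)) (fun z => by rw [mem_Cen]; simp)

theorem cenOne_subtype (F : Type) [Group F] :
    (cenOne F).comp (Cen (1 : F)).subtype = MonoidHom.id _ := by
  ext z
  rfl

/-- A nonzero class of a centralizer has nonzero image for a suitable embedding. -/
theorem exists_detect {F U A : Type} [Group F] [Group U] [Group A] (u : F →* U)
    (hq : ∀ q, q ≠ 1 → Function.Injective (hqMap u q))
    (hcu : CInj u) (hA : ∀ x : HQ 1 F, x ≠ 0 → ∃ v : F →* A, hqMap v 1 x ≠ 0) (c : F)
    (hc : IsOfFinOrder c) (x : HDeg d (Cen c)) (hx : x ≠ 0) :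
    ∃ v : F →* A, hdMap (cmap (u.prod v) c) x ≠ 0 := by
  have hb : ∃ b, x b ≠ 0 := by
    by_contra h
    push Not at h
    exact hx (DFinsupp.ext h)
  obtain ⟨b, hb⟩ := hb
  by_cases hc1 : c = 1
  · subst hc1
    have hy : hqMap (Cen (1 : F)).subtype (d b) (x b) ≠ 0 := by
      intro h
      apply hb
      have h1 := congrArg (hqMap (cenOne F) (d b)) h
      rw [← hqMap_comp, cenOne_subtype, hqMap_id, map_zero] at h1
      exact h1
    obtain ⟨v, hv⟩ := detect_cast hA (d b) _ hy
    refine ⟨v, fun h => ?_⟩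
    have h1 : hqMap (cmap (u.prod v) 1) (d b) (x b) = 0 := by
      rw [← hdMap_apply, h]
      rfl
    have h2 : ∀ (K : Type) [Group K] (p : U × A →* K),
        hqMap (p.comp (u.prod v)) (d b) (hqMap (Cen (1 : F)).subtype (d b) (x b)) = 0 := by
      intro K _ p
      have e : (p.comp (u.prod v)).comp (Cen (1 : F)).subtype =
          (p.comp (Cen ((u.prod v) 1)).subtype).comp (cmap (u.prod v) 1) := rfl
      rw [← hqMap_comp, e, hqMap_comp, h1, map_zero]
    by_cases h3 : d b = 1
    · apply hv h3
      have h4 := h2 A (MonoidHom.snd U A)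
      rwa [MonoidHom.snd_comp_prod] at h4
    · apply hy
      apply hq (d b) h3
      have h4 := h2 U (MonoidHom.fst U A)
      rw [MonoidHom.fst_comp_prod] at h4
      rw [h4, map_zero]
  · refine ⟨1, fun h => hb ?_⟩
    obtain ⟨_, r, hr⟩ := hcu c hc hc1
    let p : Cen ((u.prod (1 : F →* A)) c) →* Cen (u c) :=
      ((MonoidHom.fst U A).comp (Cen ((u.prod (1 : F →* A)) c)).subtype).codRestrict (Cen (u c)) (by
        rintro ⟨z, hz⟩
        rw [mem_Cen] at *
        exact congrArg Prod.fst hz)
    have h1 : hqMap (cmap (u.prod (1 : F →* A)) c) (d b) (x b) = 0 := by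
      rw [← hdMap_apply, h]
      rfl
    have e : (r.comp p).comp (cmap (u.prod (1 : F →* A)) c) = MonoidHom.id _ := by
      apply MonoidHom.ext
      intro z
      exact hr z
    have h2 := congrArg (hqMap (r.comp p) (d b)) h1
    rw [← hqMap_comp, e, hqMap_id, map_zero] at h2
    exact h2

/-- Injectivity passes to groups whose homology and centralizers embed. -/
theorem DFam.inj_of_embed (α : DFam E B d) {F U A : Type} [Group F] [Group U] [Group A] (u : F →* U)
    (hu : Function.Injective u) (hq : ∀ q, q ≠ 1 → Function.Injective (hqMap u q))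
    (hcu : CInj u) (hA : ∀ x : HQ 1 F, x ≠ 0 → ∃ v : F →* A, hqMap v 1 x ≠ 0)
    (hU : α.Inj (U × A)) : α.Inj F := by
  intro n c hc hne x hsum
  by_contra hcon
  push Not at hcon
  obtain ⟨i0, hi0⟩ := hcon
  obtain ⟨v, hv⟩ := exists_detect u hq hcu hA (c i0) (hc i0) (x i0) hi0
  have hw : Function.Injective (u.prod v) := by
    intro y z hyz
    exact hu (congrArg Prod.fst hyz)
  apply hv
  refine hU n (fun i => (u.prod v) (c i)) (fun i => (u.prod v).isOfFinOrder (hc i)) ?_
    (fun i => hdMap (cmap (u.prod v) (c i)) (x i)) ?_ i0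
  · intro i j hij hconj
    have h1 : IsConj (u (c i)) (u (c j)) := (MonoidHom.fst U A).map_isConj hconj
    by_cases hi : c i = 1
    · rw [hi, map_one, isConj_one_right] at h1
      have h2 : c j = 1 := hu (by rw [h1, map_one])
      exact hne i j hij (by rw [hi, h2])
    · exact hne i j hij ((hcu (c i) (hc i) hi).1 _ h1)
  · have h1 := congrArg (E.map (u.prod v) hw) hsum
    rw [map_sum, map_zero] at h1
    rw [← h1]
    exact Finset.sum_congr rfl fun i _ => (α.tot_nat (u.prod v) hw (c i) (hc i) (x i)).symm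

end Pool.Agent.Y778.SG
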