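import Pool.Agent.Y778.SG.Simple

/-!
Kernels of families of natural transformations, and the first homology group.
-/

namespace Pool.Agent.Y778.SG

open CategoryTheory DirectSum Finsupp Pool.Agent.Y483 Pool.Agent.Y110.KW

variable {B : Type} {d : B → ℕ} {E : GrpCat.{0} ⥤ ModuleCat.{0} ℚ}

variable (d) in
/-- The direct sum `⨁_{b ∈ B} H_{d(b)}(G; ℚ)`, for a family of degrees `d(b)`, `b ∈ B`. -/
noncomputable abbrev HDeg (G : Type) [Group G] : Type := ⨁ b : B, HQ (d b) G

/-- The component `H_{d(b)}(G; ℚ) → E(G)` of the natural transformation `α_b`. -/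
noncomputable def comp1 (α : ∀ b : B, hq (d b) ⟶ E) (b : B) (G : Type) [Group G] :
    HQ (d b) G →ₗ[ℚ] E.obj (GrpCat.of G) := ((α b).app (GrpCat.of G)).hom

open Classical in
/-- The sum `⨁_{b ∈ B} H_{d(b)}(G; ℚ) → E(G)` of the natural transformations `α_b`. -/
noncomputable def tot (α : ∀ b : B, hq (d b) ⟶ E) (G : Type) [Group G] :
    HDeg d G →ₗ[ℚ] E.obj (GrpCat.of G) :=
  DirectSum.toModule ℚ B (E.obj (GrpCat.of G)) fun b : B => comp1 α b G

/-- The kernel of the sum `⨁_{b ∈ B} H_{d(b)}(G; ℚ) → E(G)` of the natural transformations `α_b`. -/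
noncomputable def kerFam (α : ∀ b : B, hq (d b) ⟶ E) (G : Type) [Group G] :
    Submodule ℚ (HDeg d G) := LinearMap.ker (tot α G)

theorem comp1_nat (α : ∀ b : B, hq (d b) ⟶ E) (b : B) {G K : Type} [Group G] [Group K] (f : G →* K)
    (y : HQ (d b) G) : (E.map (GrpCat.ofHom f)).hom (comp1 α b G y) =
      comp1 α b K (hqMap f (d b) y) := by
  have h := (α b).naturality (GrpCat.ofHom f)
  exact (congrArg (fun g => g.hom y) h).symm

/-- The map induced on the direct sum. -/
noncomputable def hdMap {G K : Type} [Group G] [Group K] (f : G →* K) : HDeg d G →ₗ[ℚ] HDeg d K :=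
  DirectSum.lmap fun b : B => hqMap f (d b)

theorem hdMap_apply {G K : Type} [Group G] [Group K] (f : G →* K) (x : HDeg d G) (b : B) :
    hdMap f x b = hqMap f (d b) (x b) := by
  unfold hdMap
  exact DirectSum.lmap_apply _ _ _

theorem hdMap_comp {G K L : Type} [Group G] [Group K] [Group L] (g : K →* L) (f : G →* K)
    (x : HDeg d G) : hdMap (g.comp f) x = hdMap g (hdMap f x) := by
  apply DFinsupp.ext
  intro b
  rw [hdMap_apply, hdMap_apply, hdMap_apply, hqMap_comp]

theorem hdMap_id (G : Type) [Group G] (x : HDeg d G) : hdMap (MonoidHom.id G) x = x := by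
  apply DFinsupp.ext
  intro b
  rw [hdMap_apply, hqMap_id]

theorem tot_nat (α : ∀ b : B, hq (d b) ⟶ E) {G K : Type} [Group G] [Group K] (f : G →* K)
    (x : HDeg d G) : (E.map (GrpCat.ofHom f)).hom (tot α G x) = tot α K (hdMap f x) := by
  classical
  have h : (E.map (GrpCat.ofHom f)).hom ∘ₗ (tot α G) = (tot α K) ∘ₗ (hdMap f) := by
    apply DirectSum.linearMap_ext
    intro b
    apply LinearMap.ext
    intro y
    change (E.map (GrpCat.ofHom f)).hom (tot α G (DirectSum.lof ℚ B (fun b => HQ (d b) G) b y)) =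
      tot α K (hdMap f (DirectSum.lof ℚ B (fun b => HQ (d b) G) b y))
    have e0 : tot α G (DirectSum.lof ℚ B (fun b => HQ (d b) G) b y) = comp1 α b G y := by
      unfold tot
      convert DirectSum.toModule_lof ℚ (φ := fun b => comp1 α b G) b y
    have e1 : hdMap (d := d) f (DirectSum.lof ℚ B (fun b => HQ (d b) G) b y) =
        DirectSum.lof ℚ B (fun b => HQ (d b) K) b (hqMap f (d b) y) := by
      unfold hdMap
      exact DirectSum.lmap_lof _ _ _
    have e2 : tot α K (DirectSum.lof ℚ B (fun b => HQ (d b) K) b (hqMap f (d b) y)) =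
        comp1 α b K (hqMap f (d b) y) := by
      unfold tot
      convert DirectSum.toModule_lof ℚ (φ := fun b => comp1 α b K) b (hqMap f (d b) y)
    rw [e0, e1, e2, comp1_nat]
  exact DFunLike.congr_fun h x

theorem mem_kerFam_map (α : ∀ b : B, hq (d b) ⟶ E) {G K : Type} [Group G] [Group K] (f : G →* K)
    {x : HDeg d G} (hx : x ∈ kerFam α G) : hdMap f x ∈ kerFam α K := by
  unfold kerFam at *
  rw [LinearMap.mem_ker] at *
  rw [← tot_nat, hx, map_zero]

/-! ### The first homology group -/

/-- The pairing of one-chains with an additive function. -/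
noncomputable def pair1 {G : Type} (c : G → ℚ) : T 1 G ℚ →ₗ[ℚ] ℚ :=
  Finsupp.lsum ℚ fun x : Fin 1 → G => c (x 0) • LinearMap.id

theorem pair1_single {G : Type} (c : G → ℚ) (x : Fin 1 → G) (r : ℚ) :
    pair1 c (single x r) = c (x 0) * r := by
  simp [pair1]

theorem dd1_single {G : Type} [Group G] (x : Fin 2 → G) (r : ℚ) :
    dd (tQ G) 1 (single x r) = single (fun _ => x 1) r - single (fun _ => x 0 * x 1) r +
      single (fun _ => x 0) r := by
  rw [dd_single, tQ_apply, LinearMap.id_apply, Fin.sum_univ_two]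
  have e1 : (fun i : Fin 1 => x i.succ) = fun _ => x 1 := by
    funext i
    rw [Subsingleton.elim i 0]
    rfl
  have e2 : Fin.contractNth 0 (· * ·) x = fun _ => x 0 * x 1 := by
    funext i
    rw [Subsingleton.elim i 0, Fin.contractNth_apply_of_eq _ _ _ _ rfl]
    rfl
  have e3 : Fin.contractNth 1 (· * ·) x = fun _ => x 0 := by
    funext i
    rw [Subsingleton.elim i 0, Fin.contractNth_apply_of_lt _ _ _ _ (by simp)]
    rfl
  rw [e1, e2, e3]
  simp only [Fin.val_zero, zero_add, pow_one, neg_smul, one_smul, Fin.val_one]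
  norm_num
  abel

theorem pair1_dd {G : Type} [Group G] (c : G → ℚ) (hc : ∀ g h, c (g * h) = c g + c h)
    (z : T 2 G ℚ) : pair1 c (dd (tQ G) 1 z) = 0 := by
  have h : (pair1 c) ∘ₗ (dd (tQ G) 1) = 0 := by
    apply T_ext
    intro x r
    rw [LinearMap.comp_apply, dd1_single, map_add, map_sub, pair1_single, pair1_single,
      pair1_single, hc, LinearMap.zero_apply]
    ring
  exact DFunLike.congr_fun h z

/-- A nonzero class of degree one pairs nontrivially with a homomorphism to `ℚ`. -/
theorem detect1 {G : Type} [Group G] (z : T 1 G ℚ) (hz : z ∉ LinearMap.range (dd (tQ G) 1)) :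
    ∃ c : G → ℚ, (∀ g h, c (g * h) = c g + c h) ∧ pair1 c z ≠ 0 := by
  obtain ⟨f, hf1, hf2⟩ := Submodule.exists_dual_map_eq_bot_of_notMem hz inferInstance
  have hf : ∀ w, f (dd (tQ G) 1 w) = 0 := by
    intro w
    have : f (dd (tQ G) 1 w) ∈ (LinearMap.range (dd (tQ G) 1)).map f :=
      Submodule.mem_map_of_mem ⟨w, rfl⟩
    rw [hf2] at this
    exact this
  refine ⟨fun g => f (single (fun _ => g) 1), ?_, ?_⟩
  · intro g h
    have h1 := hf (single ![g, h] 1)
    rw [dd1_single, map_add, map_sub] at h1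
    simp only [Matrix.cons_val_zero, Matrix.cons_val_one] at h1
    linarith
  · have h2 : pair1 (fun g => f (single (fun _ => g) 1)) = f := by
      apply T_ext
      intro x r
      rw [pair1_single]
      have e : (single x r : T 1 G ℚ) = r • single (fun _ => x 0) 1 := by
        rw [Finsupp.smul_single, smul_eq_mul, mul_one]
        congr 1
        funext i
        rw [Subsingleton.elim i 0]
      rw [e, map_smul, smul_eq_mul, mul_comm]
    rw [h2]
    exact hf1

/-- A nonzero class of degree one of a finitely generated group is detected by a homomorphism to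
`ℤ`. -/
theorem detectZ {G : Type} [Group G] [Group.FG G] (x : HQ 1 G) (hx : x ≠ 0) :
    ∃ v : G →* Multiplicative ℤ, hqMap v 1 x ≠ 0 := by
  classical
  obtain ⟨z, hz⟩ := exists_rpr (Rep.trivial ℚ G ℚ) 1 x
  obtain ⟨c, hc, hcz⟩ := detect1 z (fun h => hx ((hz.eq_zero_iff).mpr h))
  obtain ⟨S, hS⟩ := Group.FG.out (G := G)
  let N : ℕ := ∏ s ∈ S, (c s).den
  have hN : (N : ℚ) ≠ 0 := by
    rw [Nat.cast_ne_zero]
    exact Finset.prod_ne_zero_iff.mpr fun s _ => (c s).den_nz
  have hint : ∀ g, ∃ k : ℤ, (k : ℚ) = N * c g := by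
    have h1 : c 1 = 0 := by
      have := hc 1 1
      rw [mul_one] at this
      linarith
    let H : Subgroup G :=
      { carrier := {g | ∃ k : ℤ, (k : ℚ) = N * c g}
        one_mem' := ⟨0, by rw [h1]; simp⟩
        mul_mem' := by
          rintro g h ⟨k, hk⟩ ⟨l, hl⟩
          exact ⟨k + l, by rw [Int.cast_add, hk, hl, hc]; ring⟩
        inv_mem' := by
          rintro g ⟨k, hk⟩
          refine ⟨-k, ?_⟩
          have h2 := hc g g⁻¹
          rw [mul_inv_cancel, h1] at h2
          rw [Int.cast_neg, hk]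
          have : c g⁻¹ = - c g := by linarith
          rw [this]
          ring }
    have hle : Subgroup.closure (S : Set G) ≤ H := by
      rw [Subgroup.closure_le]
      intro s hs
      have hdvd : (c s).den ∣ N := Finset.dvd_prod_of_mem _ hs
      obtain ⟨m, hm⟩ := hdvd
      refine ⟨m * (c s).num, ?_⟩
      have h3 : c s * (c s).den = (c s).num := Rat.mul_den_eq_num _
      rw [hm]
      push_cast
      rw [← h3]
      ring
    intro g
    exact hle (by rw [hS]; trivial)
  choose k hk using hint
  let v : G →* Multiplicative ℤ :=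
    { toFun := fun g => Multiplicative.ofAdd (k g)
      map_one' := by
        have h1 : c 1 = 0 := by
          have := hc 1 1
          rw [mul_one] at this
          linarith
        have h2 := hk 1
        rw [h1, mul_zero] at h2
        have h3 : k 1 = 0 := by exact_mod_cast h2
        rw [h3]; rfl
      map_mul' := by
        intro g h
        have h2 : (k (g * h) : ℚ) = k g + k h := by
          rw [hk, hk, hk, hc]; ring
        have h3 : k (g * h) = k g + k h := by exact_mod_cast h2
        rw [h3]; rfl }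
  refine ⟨v, ?_⟩
  intro h0
  obtain ⟨w, hw⟩ := ((hz.hq v).eq_zero_iff).mp h0
  have h1 := pair1_dd (G := Multiplicative ℤ) (fun n => (n.toAdd : ℚ))
    (fun g h => by rw [toAdd_mul, Int.cast_add]) w
  have hw' : dd (tQ (Multiplicative ℤ)) 1 w = mp 1 v LinearMap.id z := hw
  rw [hw'] at h1
  have h2 : (pair1 fun n : Multiplicative ℤ => (n.toAdd : ℚ)) ∘ₗ
      (mp 1 v (LinearMap.id : ℚ →ₗ[ℚ] ℚ)) = (N : ℚ) • pair1 c := by
    apply T_ext
    intro y r
    rw [LinearMap.comp_apply, mp_single, pair1_single, LinearMap.smul_apply, pair1_single]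
    change ((k (y 0) : ℤ) : ℚ) * r = _
    rw [hk, smul_eq_mul]
    ring
  have h3 := DFunLike.congr_fun h2 z
  rw [LinearMap.comp_apply, h1, LinearMap.smul_apply, smul_eq_mul] at h3
  exact (mul_ne_zero hN hcz) h3.symm

end Pool.Agent.Y778.SG
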