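import Pool.Agent.Y778.SG.Der

/-!
The homology of the base group embeds in the homology of a multiple HNN extension in the degrees
at least two, if the associated subgroups have no homology in these degrees.
-/

namespace Pool.Agent.Y778.SG

open Finsupp Pool.Agent.Y483 Pool.Agent.Y110.KW

theorem noH_equiv {A A' : Type} [Group A] [Group A'] (e : A ≃* A') (h : NoH A) : NoH A' := by
  intro q hq x
  have h1 : hqMap (e : A →* A') q (hqMap (e.symm : A' →* A) q x) = x := by
    rw [← hqMap_comp]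
    have : (e : A →* A').comp (e.symm : A' →* A) = MonoidHom.id A' := by
      ext y; simp
    rw [this, hqMap_id]
  rw [← h1, h q hq (hqMap (e.symm : A' →* A) q x), map_zero]

theorem range_of_noH {A : Type} [Group A] (h : NoH A) (q : ℕ) (hq : 2 ≤ q) (z : T q A ℚ)
    (hz : Cyc (tQ A) q z) : z ∈ LinearMap.range (dd (tQ A) q) := by
  obtain ⟨x, hx⟩ := exists_class (A := Rep.trivial ℚ A ℚ) q z hz
  exact (hx.eq_zero_iff).mp (h q hq x)

section Edge

variable {B : Type} [Group B] (D : HD B)

/-- The edges of one type. -/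
def edge (p : D.I) (y : HN D ⧸ A2 D p) : ES D := ⟨p, y⟩

theorem edge_injective (p : D.I) : Function.Injective (edge D p) := by
  intro y y' h
  have h' : (⟨p, y⟩ : ES D) = ⟨p, y'⟩ := h
  simpa using h'

/-- The inclusion of the edges of one type. -/
noncomputable def embE (p : D.I) : ((HN D ⧸ A2 D p) →₀ ℚ) →ₗ[ℚ] (ES D →₀ ℚ) :=
  Finsupp.lmapDomain ℚ ℚ (edge D p)

/-- The restriction to the edges of one type. -/
noncomputable def resE (p : D.I) : (ES D →₀ ℚ) →ₗ[ℚ] ((HN D ⧸ A2 D p) →₀ ℚ) :=
  Finsupp.lcomapDomain (edge D p) (edge_injective D p)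

theorem resE_apply (p : D.I) (m : ES D →₀ ℚ) (y : HN D ⧸ A2 D p) : resE D p m y = m ⟨p, y⟩ := rfl

theorem embE_single (p : D.I) (y : HN D ⧸ A2 D p) (m : ℚ) :
    embE D p (single y m) = single ⟨p, y⟩ m := by
  simp [embE, edge]

theorem actE_injective (g : HN D) : Function.Injective (actE D g) := by
  rintro ⟨p, x⟩ ⟨p', x'⟩ h
  have h1 : p = p' := congrArg Sigma.fst h
  subst h1
  have h2 : g • x = g • x' := by
    have := sigma_mk_injective h
    exact this
  rw [smul_left_cancel g h2]

theorem permE_apply (g : HN D) (m : ES D →₀ ℚ) (x : ES D) : permE D g m (actE D g x) = m x :=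
  Finsupp.mapDomain_apply (actE_injective D g) m x

theorem perm_apply' (A : Subgroup (HN D)) (g : HN D) (m : (HN D ⧸ A) →₀ ℚ) (x : HN D ⧸ A) :
    perm A g m (g • x) = m x :=
  Finsupp.mapDomain_apply (MulAction.injective g) m x

theorem resE_perm (p : D.I) (g : HN D) (m : ES D →₀ ℚ) :
    resE D p (permE D g m) = perm (A2 D p) g (resE D p m) := by
  apply Finsupp.ext
  intro y
  have hy : y = g • (g⁻¹ • y) := by rw [smul_inv_smul]
  rw [hy, perm_apply', resE_apply, resE_apply]
  exact permE_apply D g m ⟨p, g⁻¹ • y⟩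

theorem embE_perm (p : D.I) (g : HN D) (m : (HN D ⧸ A2 D p) →₀ ℚ) :
    embE D p (perm (A2 D p) g m) = permE D g (embE D p m) := by
  have e : (embE D p) ∘ₗ (perm (A2 D p) g) = (permE D g) ∘ₗ (embE D p) := by
    apply Finsupp.lhom_ext
    intro x m
    rw [LinearMap.comp_apply, LinearMap.comp_apply, perm_single, embE_single, embE_single,
      permE_single]
    rfl
  exact DFunLike.congr_fun e m

open Classical in
theorem emb_res_apply (p : D.I) (m : ES D →₀ ℚ) (x : ES D) :
    embE D p (resE D p m) x = if x.1 = p then m x else 0 := by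
  obtain ⟨p', y⟩ := x
  by_cases h : p' = p
  · subst h
    rw [if_pos rfl]
    have h1 : embE D p' (resE D p' m) ⟨p', y⟩ = resE D p' m y :=
      Finsupp.mapDomain_apply (edge_injective D p') _ _
    rw [h1]; rfl
  · rw [if_neg h]
    apply Finsupp.mapDomain_of_notMem_range
    rintro ⟨z, hz⟩
    exact h (congrArg Sigma.fst hz).symm

theorem edge_range (hA : ∀ p, NoH (D.A p)) (q : ℕ) (hq : 2 ≤ q)
    (v : T q (HN D) (ES D →₀ ℚ)) (hv : Cyc (permE D) q v) :
    v ∈ LinearMap.range (dd (permE D) q) := by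
  classical
  let P : Finset D.I := (v.support.biUnion fun x => (v x).support).image Sigma.fst
  have hsum : v = ∑ p ∈ P, mp q (MonoidHom.id (HN D)) (embE D p)
      (mp q (MonoidHom.id (HN D)) (resE D p) v) := by
    apply Finsupp.ext
    intro x
    rw [Finsupp.finsetSum_apply]
    have h1 : ∀ p, (mp q (MonoidHom.id (HN D)) (embE D p)
        (mp q (MonoidHom.id (HN D)) (resE D p) v)) x = embE D p (resE D p (v x)) := by
      intro p
      exact (mp_id_apply q (embE D p) _ x).trans (congrArg _ (mp_id_apply q (resE D p) v x))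
    rw [Finset.sum_congr rfl fun p _ => h1 p]
    apply Finsupp.ext
    intro e
    rw [Finsupp.finsetSum_apply]
    simp only [emb_res_apply]
    rw [Finset.sum_ite_eq]
    by_cases he : v x e = 0
    · rw [he]; simp
    · rw [if_pos]
      refine Finset.mem_image.mpr ⟨e, Finset.mem_biUnion.mpr ⟨x, ?_, ?_⟩, rfl⟩
      · rw [Finsupp.mem_support_iff]
        intro h0
        exact he (by rw [h0]; rfl)
      · rw [Finsupp.mem_support_iff]
        exact he
  rw [hsum]
  apply Submodule.sum_mem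
  intro p _
  apply range_mp (ρ := perm (A2 D p)) (τ := permE D) (MonoidHom.id (HN D)) (embE D p)
    (fun g m => embE_perm D p g m)
  have hc : Cyc (perm (A2 D p)) q (mp q (MonoidHom.id (HN D)) (resE D p) v) :=
    cyc_mp (ρ := permE D) (τ := perm (A2 D p)) (MonoidHom.id (HN D)) (resE D p)
      (fun g m => resE_perm D p g m) q v hv
  obtain ⟨z, hz, hz2⟩ := shapiro (A2 D p) q _ hc
  have hno : NoH (A2 D p) :=
    noH_equiv ((D.φ p).trans ((D.A' p).equivMapOfInjective _ (base_injective B D))) (hA p)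
  obtain ⟨w, rfl⟩ := range_of_noH hno q hq z hz
  have h3 : shInc (A2 D p) q (dd (tQ (A2 D p)) q w) ∈ LinearMap.range (dd (perm (A2 D p)) q) :=
    ⟨shInc (A2 D p) (q + 1) w, dd_shInc _ _ _⟩
  have h4 := Submodule.add_mem _ hz2 h3
  rwa [sub_add_cancel] at h4

theorem hom_sub (hA : ∀ p, NoH (D.A p)) (q : ℕ) (hq : 2 ≤ q) (y : T q (Bs D) ℚ)
    (hy : Cyc (tQ (Bs D)) q y)
    (h : mp q (Bs D).subtype LinearMap.id y ∈ LinearMap.range (dd (tQ (HN D)) q)) :
    y ∈ LinearMap.range (dd (tQ (Bs D)) q) := by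
  obtain ⟨n, rfl⟩ : ∃ n, q = n + 1 := ⟨q - 1, by omega⟩
  obtain ⟨u, hu⟩ := h
  apply shInc_range (Bs D) (n + 1) y hy
  set u' : T (n + 2) (HN D) ((HN D ⧸ Bs D) →₀ ℚ) :=
    mp (n + 2) id (lsingle (QuotientGroup.mk 1)) u with hu'
  set k := shInc (Bs D) (n + 1) y - dd (perm (Bs D)) (n + 1) u' with hk
  have haug1 : mp (n + 2) id (aug (HN D ⧸ Bs D)) u' = u := by
    rw [hu', mp_mp]
    have e1 : (aug (HN D ⧸ Bs D)) ∘ₗ (lsingle (QuotientGroup.mk 1)) = LinearMap.id := by
      apply LinearMap.ext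
      intro m
      exact aug_single _ m
    rw [e1]
    exact mp_id _ _
  have haug2 : mp (n + 1) id (aug (HN D ⧸ Bs D)) (shInc (Bs D) (n + 1) y) =
      mp (n + 1) (Bs D).subtype LinearMap.id y := by
    unfold shInc
    rw [mp_mp]
    congr 2
    apply LinearMap.ext
    intro m
    exact aug_single _ m
  have haug : mp (n + 1) id (aug (HN D ⧸ Bs D)) k = 0 := by
    rw [hk, map_sub, haug2, ← dd_aug, haug1, hu, sub_self]
  set v : T (n + 1) (HN D) (ES D →₀ ℚ) := mp (n + 1) id (Dm D) k with hv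
  have hkv : mp (n + 1) id (del D) v = k := by
    apply Finsupp.ext
    intro x
    have h1 := DFunLike.congr_fun haug x
    rw [mp_id_apply] at h1
    have h2 : aug (HN D ⧸ Bs D) (k x) = 0 := h1
    rw [mp_id_apply, hv, mp_id_apply, del_Dm, h2, single_zero, sub_zero]
  have hdel : ∀ (m : ℕ) (z : T (m + 1) (HN D) (ES D →₀ ℚ)),
      dd (perm (Bs D)) m (mp (m + 1) id (del D) z) = mp m id (del D) (dd (permE D) m z) :=
    fun m z => dd_mp (ρ := permE D) (τ := perm (Bs D)) (MonoidHom.id (HN D)) (del D)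
      (fun g w => del_perm D g w) m z
  have hcyc : Cyc (permE D) (n + 1) v := by
    rw [cyc_succ] at hy ⊢
    apply mp_injective n Function.injective_id (del_injective D)
    rw [← hdel, hkv, hk, map_sub, dd_shInc, hy, map_zero, dd_dd, sub_zero, map_zero]
  obtain ⟨w, hw⟩ := edge_range D hA (n + 1) hq v hcyc
  refine ⟨u' + mp (n + 2) id (del D) w, ?_⟩
  rw [map_add, hdel, hw, hkv, hk]
  abel

end Edge

theorem hom : S_Hom := by
  intro B _ D hA q hq
  rw [injective_iff_map_eq_zero]
  intro x hx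
  set r : B →* Bs D := (HN.base D).rangeRestrict with hr
  have hcomp : (Bs D).subtype.comp r = HN.base D := by
    ext b; rfl
  have h1 : hqMap (Bs D).subtype q (hqMap r q x) = 0 := by
    rw [← hqMap_comp, hcomp, hx]
  have h2 : hqMap r q x = 0 := by
    obtain ⟨y, hy⟩ := exists_rpr (Rep.trivial ℚ (Bs D) ℚ) q (hqMap r q x)
    rw [hy.eq_zero_iff]
    refine hom_sub D hA q hq y hy.cyc ?_
    exact ((hy.hq (Bs D).subtype).eq_zero_iff).mp h1
  let e : B ≃* Bs D := MonoidHom.ofInjective (base_injective B D)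
  have h3 : hqMap (e.symm : Bs D →* B) q (hqMap r q x) = x := by
    rw [← hqMap_comp]
    have : (e.symm : Bs D →* B).comp r = MonoidHom.id B := by
      ext b
      exact e.symm_apply_apply b
    rw [this, hqMap_id]
  rw [← h3, h2, map_zero]

end Pool.Agent.Y778.SG
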