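import Pool.Agent.Y778.SG.Tor

/-!
The properties of a homology theory of groups, stated with the universal property of multiple HNN
extensions.
-/

namespace Pool.Agent.Y778.SG

/-- `Γ` is the multiple HNN extension `⟨B, t_p | t_p i_p(a) t_p⁻¹ = j_p(a), a in F(X_p)⟩`, with
injective homomorphisms `i_p`, `j_p` of free groups `F(X_p)` to `B`. -/
structure FreeHNN (B Γ : Type) [Group B] [Group Γ] where
  /-- the index set of the stable letters -/
  I : Type
  /-- the bases of the free groups -/
  X : I → Type
  /-- the first embeddings -/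
  i : ∀ p, FreeGroup (X p) →* B
  /-- the second embeddings -/
  j : ∀ p, FreeGroup (X p) →* B
  i_inj : ∀ p, Function.Injective (i p)
  j_inj : ∀ p, Function.Injective (j p)
  /-- the homomorphism from the base group -/
  base : B →* Γ
  /-- the stable letters -/
  t : I → Γ
  rel : ∀ p a, t p * base (i p a) * (t p)⁻¹ = base (j p a)
  univ : ∀ (K : Type) [Group K] (f : B →* K) (s : I → K),
    (∀ p a, s p * f (i p a) * (s p)⁻¹ = f (j p a)) →
      ∃! g : Γ →* K, g.comp base = f ∧ ∀ p, g (t p) = s p

namespace AbFun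

/-- The subgroup of `H(B)` generated by the elements `i_p(z) - j_p(z)`. -/
def hnnRel (H : AbFun) {B Γ : Type} [Group B] [Group Γ] (E : FreeHNN B Γ) :
    AddSubgroup (H.obj B) :=
  AddSubgroup.closure {y | ∃ (p : E.I) (z : H.obj (FreeGroup (E.X p))),
    H.map (E.i p) z - H.map (E.j p) z = y}

/-- The Mayer–Vietoris sequences are exact at `H(B)`. -/
def ExactHNN (H : AbFun) : Prop :=
  ∀ {B Γ : Type} [Group B] [Group Γ] (E : FreeHNN B Γ) (x : H.obj B),
    H.map E.base x = 0 → x ∈ H.hnnRel E

/-- The homology of free groups comes from cyclic subgroups. -/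
def FreeCyc (H : AbFun) : Prop := ∀ X : Type, H.cyc (FreeGroup X) = ⊤

/-- The homology of the free group of rank two is detected by the two projections to `ℤ`. -/
def FreeTwo (H : AbFun) : Prop :=
  ∀ y : H.obj (FreeGroup (Fin 2)), H.map (pj 0) y = 0 → H.map (pj 1) y = 0 → y = 0

/-- Classes which vanish in an increasing union of subgroups vanish in one of them. -/
def UnionExact (H : AbFun) : Prop :=
  ∀ {S : Type} [Group S] (K : ℕ → Subgroup S) (hK : Monotone K), (∀ s, ∃ n, s ∈ K n) →
    ∀ x : H.obj (K 0), H.map (K 0).subtype x = 0 →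
      ∃ n, H.map (Subgroup.inclusion (hK (Nat.zero_le n))) x = 0

/-- The properties of `G ↦ h_n(BG)`, `h` a homology theory, which are used. -/
structure IsHomology (H : AbFun) : Prop where
  hnn : H.ExactHNN
  free : H.FreeCyc
  two : H.FreeTwo
  union : H.UnionExact

/-- The multiple HNN extensions of the earlier files. -/
noncomputable def frHNN {B : Type} [Group B] (D : HD B) (hA : ∀ p, IsFreeGroup (D.A p)) :
    FreeHNN B (HN D) where
  I := D.I
  X p := @IsFreeGroup.Generators (D.A p) _ (hA p)
  i p := (D.A p).subtype.comp (@IsFreeGroup.mulEquiv (D.A p) _ (hA p)).toMonoidHom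
  j p := ((D.A' p).subtype.comp (D.φ p).toMonoidHom).comp
    (@IsFreeGroup.mulEquiv (D.A p) _ (hA p)).toMonoidHom
  i_inj p := (Subtype.val_injective).comp (@IsFreeGroup.mulEquiv (D.A p) _ (hA p)).injective
  j_inj p := ((Subtype.val_injective).comp (D.φ p).injective).comp
    (@IsFreeGroup.mulEquiv (D.A p) _ (hA p)).injective
  base := HN.base D
  t := HN.t D
  rel p a := HN.t_rel D p _
  univ K _ f s h := by
    have h' : ∀ p (a : D.A p), s p * f (a : B) * (s p)⁻¹ = f (D.φ p a : B) := by
      intro p a
      have h1 := h p ((@IsFreeGroup.mulEquiv (D.A p) _ (hA p)).symm a)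
      change s p * f ((@IsFreeGroup.mulEquiv (D.A p) _ (hA p))
        ((@IsFreeGroup.mulEquiv (D.A p) _ (hA p)).symm a) : D.A p) * (s p)⁻¹ =
        f (D.φ p ((@IsFreeGroup.mulEquiv (D.A p) _ (hA p))
        ((@IsFreeGroup.mulEquiv (D.A p) _ (hA p)).symm a)) : D.A' p) at h1
      rwa [MulEquiv.apply_symm_apply] at h1
    refine ⟨HN.lift f s h', ⟨?_, fun p => HN.lift_t f s h' p⟩, ?_⟩
    · apply MonoidHom.ext
      intro b
      exact HN.lift_base f s h' b
    · rintro g ⟨h1, h2⟩
      apply HN.hom_ext
      · intro b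
        rw [HN.lift_base]
        exact DFunLike.congr_fun h1 b
      · intro p
        rw [HN.lift_t]
        exact h2 p

theorem IsHomology.toI {H : AbFun} (hH : H.IsHomology) : H.IsHTheory where
  hnn {B} _ D hA x hx := by
    have h1 : x ∈ H.hnnRel (frHNN D hA) := hH.hnn (frHNN D hA) x hx
    have h2 : H.hnnRel (frHNN D hA) ≤ AddSubgroup.closure {y | ∃ (p : D.I) (z : H.obj (D.A p)),
        H.map (D.A p).subtype z - H.map ((D.A' p).subtype.comp (D.φ p).toMonoidHom) z = y} := by
      unfold hnnRel
      rw [AddSubgroup.closure_le]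
      rintro _ ⟨p, z, rfl⟩
      apply AddSubgroup.subset_closure
      exact ⟨p, H.map (@IsFreeGroup.mulEquiv (D.A p) _ (hA p)).toMonoidHom z,
        congrArg₂ (fun a b => a - b) (H.comp_apply _ _ z).symm (H.comp_apply _ _ z).symm⟩
    exact h2 h1
  free := hH.free
  free_two := hH.two
  union := hH.union

end AbFun

end Pool.Agent.Y778.SG
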