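import Pool.Agent.Y778.SG.One2

/-!
Homology theories of groups, integrally: the kernel of the map induced by the base group of a
multiple HNN extension with free associated subgroups.
-/

namespace Pool.Agent.Y778.SG

open Monoid

/-- A functor from groups to abelian groups. -/
structure AbFun where
  /-- the abelian group of a group -/
  obj : (G : Type) → [Group G] → Type
  [acg : ∀ (G : Type) [Group G], AddCommGroup (obj G)]
  /-- the induced homomorphisms -/
  map : {G K : Type} → [Group G] → [Group K] → (G →* K) → (obj G →+ obj K)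
  map_id : ∀ (G : Type) [Group G], map (MonoidHom.id G) = AddMonoidHom.id (obj G)
  map_comp : ∀ {G K L : Type} [Group G] [Group K] [Group L] (g : K →* L) (f : G →* K),
    map (g.comp f) = (map g).comp (map f)

attribute [instance] AbFun.acg

namespace AbFun

variable (H : AbFun) {G K L : Type} [Group G] [Group K] [Group L]

theorem comp_apply (g : K →* L) (f : G →* K) (x : H.obj G) :
    H.map (g.comp f) x = H.map g (H.map f x) := by rw [H.map_comp]; rfl

theorem id_apply (x : H.obj G) : H.map (MonoidHom.id G) x = x := by rw [H.map_id]; rfl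

variable (G) in
/-- The subgroup generated by the images of `H(ℤ)` under all homomorphisms `ℤ → G`. -/
def cyc : AddSubgroup (H.obj G) :=
  AddSubgroup.closure {y | ∃ (g : G) (z : H.obj (Multiplicative ℤ)), H.map (zpowersHom G g) z = y}

theorem cyc_mem (g : G) (z : H.obj (Multiplicative ℤ)) : H.map (zpowersHom G g) z ∈ H.cyc G :=
  AddSubgroup.subset_closure ⟨g, z, rfl⟩

theorem comp_zpowersHom (f : G →* K) (g : G) :
    f.comp (zpowersHom G g) = zpowersHom K (f g) := by
  ext
  simp

theorem map_zpow (f : G →* K) (g : G) (z : H.obj (Multiplicative ℤ)) :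
    H.map f (H.map (zpowersHom G g) z) = H.map (zpowersHom K (f g)) z := by
  rw [← H.comp_apply, comp_zpowersHom]

theorem cyc_map (f : G →* K) {x : H.obj G} (hx : x ∈ H.cyc G) : H.map f x ∈ H.cyc K := by
  have h : H.cyc G ≤ (H.cyc K).comap (H.map f) := by
    unfold cyc
    rw [AddSubgroup.closure_le]
    rintro _ ⟨g, z, rfl⟩
    change H.map f (H.map (zpowersHom G g) z) ∈ H.cyc K
    rw [H.map_zpow]
    exact H.cyc_mem _ _
  exact h hx

/-- The projection of the free group of rank two to the subgroup generated by the letter `i`. -/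
def pj (i : Fin 2) : FreeGroup (Fin 2) →* Multiplicative ℤ :=
  FreeGroup.lift fun j => if j = i then Multiplicative.ofAdd 1 else 1

/-- The properties of `G ↦ h_n(BG)`, `h` a homology theory, which are used: the Mayer–Vietoris
sequence of an HNN extension with free associated subgroups, the homology of free groups, and
compatibility with increasing unions. -/
structure IsHTheory (H : AbFun) : Prop where
  /-- the kernel for an HNN extension -/
  hnn : ∀ {B : Type} [Group B] (D : HD B), (∀ p, IsFreeGroup (D.A p)) → ∀ x : H.obj B,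
    H.map (HN.base D) x = 0 → x ∈ AddSubgroup.closure {y | ∃ (p : D.I) (z : H.obj (D.A p)),
      H.map (D.A p).subtype z - H.map ((D.A' p).subtype.comp (D.φ p).toMonoidHom) z = y}
  /-- the homology of free groups comes from cyclic subgroups -/
  free : ∀ X : Type, H.cyc (FreeGroup X) = ⊤
  /-- the free group of rank two -/
  free_two : ∀ y : H.obj (FreeGroup (Fin 2)), H.map (pj 0) y = 0 → H.map (pj 1) y = 0 → y = 0
  /-- increasing unions -/
  union : ∀ {S : Type} [Group S] (K : ℕ → Subgroup S) (hK : Monotone K), (∀ s, ∃ n, s ∈ K n) →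
    ∀ x : H.obj (K 0), H.map (K 0).subtype x = 0 →
      ∃ n, H.map (Subgroup.inclusion (hK (Nat.zero_le n))) x = 0

/-- Reduced elements. -/
def red : AddSubgroup (H.obj (Multiplicative ℤ)) := (H.map (1 : Multiplicative ℤ →* Unit)).ker

theorem one_eq (G K : Type) [Group G] [Group K] :
    (1 : G →* K) = (1 : Unit →* K).comp (1 : G →* Unit) := rfl

theorem map_one_eq (x : H.obj G) (h : H.map (1 : G →* Unit) x = 0) :
    H.map (1 : G →* K) x = 0 := by
  rw [one_eq G K, H.comp_apply, h, map_zero]

theorem zpowersHom_one : zpowersHom G (1 : G) = 1 := by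
  ext
  simp

variable {H}

theorem IsHTheory.zpow_mul (hH : H.IsHTheory) {z : H.obj (Multiplicative ℤ)} (hz : z ∈ H.red)
    (g g' : G) : H.map (zpowersHom G (g * g')) z =
      H.map (zpowersHom G g) z + H.map (zpowersHom G g') z := by
  have hz' : H.map (1 : Multiplicative ℤ →* Unit) z = 0 := hz
  have h0 : ∀ (K : Type) [Group K], H.map (zpowersHom K (1 : K)) z = 0 := by
    intro K _
    rw [zpowersHom_one]
    exact H.map_one_eq z hz'
  let a : FreeGroup (Fin 2) := FreeGroup.of 0
  let b : FreeGroup (Fin 2) := FreeGroup.of 1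
  have h1 : H.map (zpowersHom _ (a * b)) z - (H.map (zpowersHom _ a) z +
      H.map (zpowersHom _ b) z) = 0 := by
    apply hH.free_two
    · have e1 : pj 0 (a * b) = Multiplicative.ofAdd 1 := by simp [pj, a, b]
      have e2 : pj 0 a = Multiplicative.ofAdd 1 := by simp [pj, a]
      have e3 : pj 0 b = 1 := by simp [pj, b]
      rw [map_sub, map_add, H.map_zpow, H.map_zpow, H.map_zpow, e1, e2, e3, h0, add_zero, sub_self]
    · have e1 : pj 1 (a * b) = Multiplicative.ofAdd 1 := by simp [pj, a, b]
      have e2 : pj 1 a = 1 := by simp [pj, a]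
      have e3 : pj 1 b = Multiplicative.ofAdd 1 := by simp [pj, b]
      rw [map_sub, map_add, H.map_zpow, H.map_zpow, H.map_zpow, e1, e2, e3, h0, zero_add, sub_self]
  let f : FreeGroup (Fin 2) →* G := FreeGroup.lift ![g, g']
  have h2 := congrArg (H.map f) h1
  have ea : f a = g := by simp [f, a]
  have eb : f b = g' := by simp [f, b]
  rw [map_sub, map_add, H.map_zpow, H.map_zpow, H.map_zpow, map_mul, ea, eb, map_zero,
    sub_eq_zero] at h2
  exact h2

theorem IsHTheory.cyc_eq_top (hH : H.IsHTheory) (A : Type) [Group A] [IsFreeGroup A] :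
    H.cyc A = ⊤ := by
  rw [eq_top_iff]
  intro z _
  let e := IsFreeGroup.mulEquiv A
  have h1 : H.map e.toMonoidHom (H.map e.symm.toMonoidHom z) = z := by
    rw [← H.comp_apply]
    have : e.toMonoidHom.comp e.symm.toMonoidHom = MonoidHom.id A := by
      ext x
      exact e.apply_symm_apply x
    rw [this, H.id_apply]
  rw [← h1]
  apply H.cyc_map
  rw [hH.free]
  trivial

section Base

variable {B : Type} [Group B] (D : HD B)

variable (H) in
/-- The sum of the contributions of the stable letters. -/
noncomputable def tm : (D.I →₀ H.red) →+ H.obj (HN D) :=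
  Finsupp.liftAddHom fun p => (H.map (zpowersHom (HN D) (HN.t D p))).comp H.red.subtype

theorem tm_single (p : D.I) (v : H.red) :
    tm H D (Finsupp.single p v) = H.map (zpowersHom (HN D) (HN.t D p)) (v : _) := by
  unfold tm
  rw [Finsupp.liftAddHom_apply_single]
  rfl

theorem IsHTheory.cyc_le (hH : H.IsHTheory) :
    H.cyc (HN D) ≤ (H.cyc B).map (H.map (HN.base D)) ⊔ (tm H D).range := by
  set Y := (H.cyc B).map (H.map (HN.base D)) ⊔ (tm H D).range with hY
  have hYb : ∀ f ∈ H.cyc B, H.map (HN.base D) f ∈ Y := fun f hf =>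
    AddSubgroup.mem_sup_left ⟨f, hf, rfl⟩
  have hYt : ∀ w, tm H D w ∈ Y := fun w => AddSubgroup.mem_sup_right ⟨w, rfl⟩
  rw [cyc, AddSubgroup.closure_le]
  rintro _ ⟨g, z, rfl⟩
  set z0 := H.map (1 : Multiplicative ℤ →* Multiplicative ℤ) z with hz0
  have hred : z - z0 ∈ H.red := by
    change H.map (1 : Multiplicative ℤ →* Unit) (z - z0) = 0
    have e : (1 : Multiplicative ℤ →* Unit).comp (1 : Multiplicative ℤ →* Multiplicative ℤ) = 1 :=
      rfl
    rw [map_sub, hz0, ← H.comp_apply, e, sub_self]
  have h1 : H.map (zpowersHom (HN D) g) z0 ∈ Y := by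
    have e : (zpowersHom (HN D) g).comp (1 : Multiplicative ℤ →* Multiplicative ℤ) =
        (HN.base D).comp (zpowersHom B (1 : B)) := by
      rw [zpowersHom_one]
      ext
      simp
    rw [hz0, ← H.comp_apply, e, H.comp_apply]
    exact hYb _ (H.cyc_mem _ _)
  have h2 : H.map (zpowersHom (HN D) g) (z - z0) ∈ Y := by
    let K : Subgroup (HN D) :=
      { carrier := {g | H.map (zpowersHom (HN D) g) (z - z0) ∈ Y}
        one_mem' := by
          change H.map (zpowersHom (HN D) (1 : HN D)) (z - z0) ∈ Y
          rw [zpowersHom_one, H.map_one_eq (K := HN D) _ hred]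
          exact Y.zero_mem
        mul_mem' := by
          intro a b ha hb
          change H.map (zpowersHom (HN D) (a * b)) (z - z0) ∈ Y
          rw [hH.zpow_mul hred]
          exact Y.add_mem ha hb
        inv_mem' := by
          intro a ha
          change H.map (zpowersHom (HN D) a⁻¹) (z - z0) ∈ Y
          have h3 := hH.zpow_mul hred a a⁻¹
          rw [mul_inv_cancel, zpowersHom_one, H.map_one_eq (K := HN D) _ hred] at h3
          rw [← neg_eq_of_add_eq_zero_right h3.symm]
          exact Y.neg_mem ha }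
    refine HN.mem_of K ?_ ?_ g
    · intro b
      change H.map (zpowersHom (HN D) (HN.base D b)) (z - z0) ∈ Y
      rw [← H.map_zpow]
      exact hYb _ (H.cyc_mem _ _)
    · intro p
      change H.map (zpowersHom (HN D) (HN.t D p)) (z - z0) ∈ Y
      have := hYt (Finsupp.single p ⟨z - z0, hred⟩)
      rwa [tm_single] at this
  have h3 : H.map (zpowersHom (HN D) g) z = H.map (zpowersHom (HN D) g) (z - z0) +
      H.map (zpowersHom (HN D) g) z0 := by rw [← map_add, sub_add_cancel]
  change H.map (zpowersHom (HN D) g) z ∈ Y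
  rw [h3]
  exact Y.add_mem h2 h1

open Classical in
/-- The exponent sum of one stable letter. -/
noncomputable def dg (p₀ : D.I) : HN D →* Multiplicative ℤ :=
  HN.lift 1 (fun p => if p = p₀ then Multiplicative.ofAdd 1 else 1) (fun p a => by simp)

theorem dg_base (p₀ : D.I) : (dg D p₀).comp (HN.base D) = 1 := by
  apply MonoidHom.ext
  intro b
  change dg D p₀ (HN.base D b) = 1
  unfold dg
  rw [HN.lift_base, MonoidHom.one_apply]

open Classical in
theorem dg_t (p₀ p : D.I) : dg D p₀ (HN.t D p) = if p = p₀ then Multiplicative.ofAdd 1 else 1 :=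
  HN.lift_t _ _ _ p

theorem dg_tm (p₀ : D.I) (w : D.I →₀ H.red) : H.map (dg D p₀) (tm H D w) = (w p₀ : _) := by
  classical
  have h : (H.map (dg D p₀)).comp (tm H D) = H.red.subtype.comp (Finsupp.applyAddHom p₀) := by
    apply Finsupp.addHom_ext
    intro p v
    change H.map (dg D p₀) (tm H D (Finsupp.single p v)) = ((Finsupp.single p v p₀ : H.red) : _)
    rw [tm_single, H.map_zpow, dg_t, Finsupp.single_apply]
    by_cases hp : p = p₀
    · rw [if_pos hp, if_pos hp]
      have e : zpowersHom (Multiplicative ℤ) (Multiplicative.ofAdd 1) = MonoidHom.id _ := by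
        ext
        simp
      rw [e, H.id_apply]
    · rw [if_neg hp, if_neg hp, zpowersHom_one]
      exact H.map_one_eq _ v.2
  exact DFunLike.congr_fun h w

theorem IsHTheory.base_cyc (hH : H.IsHTheory) (hA : ∀ p, IsFreeGroup (D.A p)) (x : H.obj B)
    (hx : H.map (HN.base D) x ∈ H.cyc (HN D)) : x ∈ H.cyc B := by
  have h1 := hH.cyc_le D hx
  obtain ⟨_, ⟨f, hf, rfl⟩, _, ⟨w, rfl⟩, h2⟩ := AddSubgroup.mem_sup.mp h1
  have hf' : f ∈ H.cyc B := hf
  -- the stable letters do not contribute
  have hc : H.map (1 : B →* Unit) (x - f) = 0 → w = 0 := by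
    intro hc
    ext p
    have h3 : H.map (dg D p) (tm H D w) = H.map (dg D p) (H.map (HN.base D) (x - f)) := by
      rw [map_sub (H.map (HN.base D)), ← h2, add_sub_cancel_left]
    rw [dg_tm, ← H.comp_apply, dg_base, H.map_one_eq _ hc] at h3
    exact h3
  have hc0 : H.map (1 : B →* Unit) (x - f) = 0 := by
    by_cases hI : Nonempty D.I
    · obtain ⟨p⟩ := hI
      have h3 : H.map (dg D p) (tm H D w) = H.map (dg D p) (H.map (HN.base D) (x - f)) := by
        rw [map_sub (H.map (HN.base D)), ← h2, add_sub_cancel_left]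
      rw [dg_tm, ← H.comp_apply, dg_base] at h3
      have h4 : H.map (1 : Multiplicative ℤ →* Unit) (w p : H.obj (Multiplicative ℤ)) = 0 :=
        (w p).2
      rw [h3, ← H.comp_apply] at h4
      exact h4
    · have h3 : tm H D w = 0 := by
        have : w = 0 := by
          ext p
          exact absurd ⟨p⟩ hI
        rw [this, map_zero]
      have h4 : H.map (HN.base D) (x - f) = 0 := by
        rw [map_sub (H.map (HN.base D)), ← h2, h3, add_zero, sub_self]
      have h5 := congrArg (H.map (1 : HN D →* Unit)) h4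
      rw [← H.comp_apply, map_zero] at h5
      exact h5
  have hw := hc hc0
  rw [hw, map_zero, add_zero] at h2
  have h6 : H.map (HN.base D) (x - f) = 0 := by rw [map_sub, ← h2, sub_self]
  have h7 := hH.hnn D hA (x - f) h6
  have h8 : x - f ∈ H.cyc B := by
    refine (AddSubgroup.closure_le _).mpr ?_ h7
    rintro _ ⟨p, z, rfl⟩
    have := hA p
    have hz : z ∈ H.cyc (D.A p) := by
      rw [hH.cyc_eq_top]
      trivial
    exact (H.cyc B).sub_mem (H.cyc_map _ hz) (H.cyc_map _ hz)
  have h9 := (H.cyc B).add_mem h8 hf'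
  rwa [sub_add_cancel] at h9

end Base

end AbFun

end Pool.Agent.Y778.SG
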