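import Pool.Agent.Y778.SG.Simple3
import Pool.Agent.Y778.SG.Hty

/-!
One two-generator group, and one countable simple group, which decide the injectivity of natural
transformations from homology theories to functors of groups and injective homomorphisms.
-/

namespace Pool.Agent.Y778.SG

open Monoid

/-- A functor from groups and injective homomorphisms to abelian groups. -/
structure InjAb where
  /-- the abelian group of a group -/
  obj : (G : Type) → [Group G] → Type
  [acg : ∀ (G : Type) [Group G], AddCommGroup (obj G)]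
  /-- the map induced by an injective homomorphism -/
  map : {G K : Type} → [Group G] → [Group K] → (f : G →* K) → Function.Injective f →
    (obj G →+ obj K)
  map_id : ∀ (G : Type) [Group G],
    map (MonoidHom.id G) Function.injective_id = AddMonoidHom.id (obj G)
  map_comp : ∀ {G K L : Type} [Group G] [Group K] [Group L] (f : G →* K) (hf : Function.Injective f)
    (g : K →* L) (hg : Function.Injective g) (h : Function.Injective (g.comp f)),
    map (g.comp f) h = (map g hg).comp (map f hf)

attribute [instance] InjAb.acg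

/-- A natural transformation `H(G) → E(G)`, with respect to the injective homomorphisms. -/
structure HNat (H : AbFun) (E : InjAb) where
  /-- the components -/
  app : (G : Type) → [Group G] → (H.obj G →+ E.obj G)
  nat : ∀ {G K : Type} [Group G] [Group K] (f : G →* K) (hf : Function.Injective f) (x : H.obj G),
    E.map f hf (app G x) = app K (H.map f x)

/-- Injective homomorphisms such that, for every homology theory, the kernel of the induced map
comes from cyclic subgroups. -/
def IEmb {F W : Type} [Group F] [Group W] (u : F →* W) : Prop :=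
  Function.Injective u ∧ ∀ H : AbFun, H.IsHomology → ∀ x : H.obj F, H.map u x = 0 → x ∈ H.cyc F

theorem HNat.map_eq_zero {H : AbFun} {E : InjAb} (α : HNat H E) {F W : Type} [Group F] [Group W]
    (u : F →* W) (hu : Function.Injective u) (hW : Function.Injective (α.app W)) (x : H.obj F)
    (hx : α.app F x = 0) : H.map u x = 0 := by
  apply hW
  rw [← α.nat u hu, hx, map_zero, map_zero]

/-- The group `F` is decided by the group `W`. -/
def Dec (F W : Type) [Group F] [Group W] : Prop :=
  ∀ (H : AbFun), H.IsHomology → ∀ (E : InjAb) (α : HNat H E),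
    (H.red = ⊥ → Function.Injective (α.app W) → Function.Injective (α.app F)) ∧
    (Function.Injective (α.app (W × Multiplicative ℤ)) →
      (∀ x, α.app F x = 0 → x ∈ H.tor F) ∧
      (TF (Abelianization F) → Function.Injective (α.app F)))

theorem AbFun.cyc_zero {H : AbFun} (h : H.red = ⊥) {F W : Type} [Group F] [Group W] (u : F →* W)
    (x : H.obj F) (hx : x ∈ H.cyc F) (hu : H.map u x = 0) : x = 0 := by
  have h1 : ∀ z : H.obj (Multiplicative ℤ),
      z = H.map (1 : Multiplicative ℤ →* Multiplicative ℤ) z := by
    intro z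
    have h2 : z - H.map (1 : Multiplicative ℤ →* Multiplicative ℤ) z ∈ H.red := by
      change H.map (1 : Multiplicative ℤ →* Unit) (z - _) = 0
      have e : (1 : Multiplicative ℤ →* Unit).comp (1 : Multiplicative ℤ →* Multiplicative ℤ) = 1 :=
        rfl
      rw [map_sub, ← H.comp_apply, e, sub_self]
    rw [h] at h2
    exact sub_eq_zero.mp h2
  have h3 : H.cyc F ≤ ((H.map (1 : F →* F)) - AddMonoidHom.id _).ker := by
    rw [AbFun.cyc, AddSubgroup.closure_le]
    rintro _ ⟨g, z, rfl⟩
    change H.map (1 : F →* F) (H.map (zpowersHom F g) z) - H.map (zpowersHom F g) z = 0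
    rw [sub_eq_zero]
    have e1 : (zpowersHom F g).comp (1 : Multiplicative ℤ →* Multiplicative ℤ) = 1 := by
      ext
      simp
    have e2 : (1 : F →* F).comp (zpowersHom F g) = 1 := rfl
    rw [← H.comp_apply, e2, ← e1, H.comp_apply, ← h1]
  have h4 : H.map (1 : F →* F) x - x = 0 := h3 hx
  have h5 : H.map (1 : F →* Unit) x = 0 := by
    have h6 := congrArg (H.map (1 : W →* Unit)) hu
    rw [← H.comp_apply, map_zero] at h6
    exact h6
  rw [H.map_one_eq (K := F) x h5, zero_sub, neg_eq_zero] at h4
  exact h4

theorem IEmb.dec {F W : Type} [Group F] [Group W] [Group.FG F] {u : F →* W} (hu : IEmb u) :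
    Dec F W := by
  intro H hH E α
  refine ⟨fun hr hW => ?_, fun hW => ?_⟩
  · rw [injective_iff_map_eq_zero]
    intro x hx
    have h1 := α.map_eq_zero u hu.1 hW x hx
    exact H.cyc_zero hr u x (hu.2 H hH x h1) h1
  · have h0 : ∀ x, α.app F x = 0 → x ∈ H.tor F := by
      intro x hx
      have h1 : ∀ f : F →* Multiplicative ℤ, H.map (u.prod f) x = 0 := fun f =>
        α.map_eq_zero (u.prod f) (fun a b hab => hu.1 (congrArg Prod.fst hab)) hW x hx
      have h2 : H.map u x = 0 := by
        have h3 := congrArg (H.map (MonoidHom.fst W (Multiplicative ℤ))) (h1 1)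
        rw [← H.comp_apply, map_zero] at h3
        exact h3
      refine AbFun.mem_tor hH.toI x (hu.2 H hH x h2) fun f => ?_
      have h3 := congrArg (H.map (MonoidHom.snd W (Multiplicative ℤ))) (h1 f)
      rw [← H.comp_apply, map_zero] at h3
      exact h3
    refine ⟨h0, fun ht => ?_⟩
    rw [injective_iff_map_eq_zero]
    intro x hx
    have h1 := h0 x hx
    rw [AbFun.tor_eq_bot_of_tf hH.toI ht] at h1
    exact h1

/-- Countable groups embed in two-generator groups. -/
theorem two_genI (G : Type) [Group G] [Countable G] :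
    ∃ (U : Type) (_ : Group U) (j : G →* U), IEmb j ∧ TwoGen U ∧ (TF G → TF U) := by
  obtain ⟨f, hf⟩ := exists_surjective_nat G
  let g : ℕ → G := fun n => if n = 0 then 1 else f (n - 1)
  have h0 : g 0 = 1 := if_pos rfl
  have hg : Function.Surjective g := by
    intro x
    obtain ⟨n, rfl⟩ := hf x
    exact ⟨n + 1, by simp [g]⟩
  have htf := Pool.Agent.Y941.SG.tf base_injective
  have i1 : Function.Injective (HN.base (DF G)) := base_injective _ (DF G)
  have i2 : Function.Injective (HN.base (DU G s_free g)) := base_injective _ (DU G s_free g)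
  have f1 : ∀ p, IsFreeGroup ((DF G).A p) := fun _ => by
    change IsFreeGroup (⊥ : Subgroup G)
    exact Q.isFree_of_subsingleton
  have f2 : ∀ p, IsFreeGroup ((DU G s_free g).A p) := fun _ =>
    Q.isFree_equiv (MonoidHom.ofInjective (xh_injective G s_free))
      (inferInstanceAs (IsFreeGroup (FreeGroup ℕ)))
  refine ⟨HN (DU G s_free g), inferInstance, (HN.base (DU G s_free g)).comp (HN.base (DF G)),
    ⟨i2.comp i1, ?_⟩, ⟨_, _, DU_gen G s_free g h0 hg⟩, fun h => htf _ _ (htf _ _ h)⟩
  intro H hH x hx
  apply hH.toI.base_cyc (DF G) f1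
  apply hH.toI.base_cyc (DU G s_free g) f2
  rw [← H.comp_apply, hx]
  exact AddSubgroup.zero_mem _

theorem emb_RPI {tf : Bool} {S : Type} [Group S] (i : RP (QC tf) →* S) (hi : IEmb i) (F : Type)
    [Group F] [Group.IsFinitelyPresented F] (hF : Cls tf F) : ∃ u : F →* S, IEmb u := by
  obtain ⟨k, ⟨e⟩⟩ := exists_QF F
  have hk : Cls tf (QF k) := Cls.of_injective e.symm.toMonoidHom e.symm.injective hF
  let k' : FPC tf := ⟨k, hk⟩
  let v : F →* RP (QC tf) := (RP.incl (QC tf) k').comp e.toMonoidHom
  let r : RP (QC tf) →* F := e.symm.toMonoidHom.comp (RP.retr (QC tf) k')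
  have hr : ∀ z, r (v z) = z := by
    intro z
    have := DFunLike.congr_fun (RP.retr_incl (QC tf) k') (e z)
    change e.symm (RP.retr (QC tf) k' (RP.incl (QC tf) k' (e z))) = z
    change RP.retr (QC tf) k' (RP.incl (QC tf) k' (e z)) = e z at this
    rw [this, e.symm_apply_apply]
  refine ⟨i.comp v, hi.1.comp fun a b hab => ?_, fun H hH x hx => ?_⟩
  · rw [← hr a, ← hr b, hab]
  · rw [H.comp_apply] at hx
    have h1 := H.cyc_map r (hi.2 H hH _ hx)
    have e1 : r.comp v = MonoidHom.id F := MonoidHom.ext hr
    rwa [← H.comp_apply, e1, H.id_apply] at h1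

/-- Isomorphisms between finitely generated free subgroups are induced by conjugations. -/
def FreeConj (S : Type) [Group S] : Prop :=
  ∀ (A A' : Subgroup S) (φ : A ≃* A'), A.FG → IsFreeGroup A →
    ∃ s : S, ∀ a : A, s * (a : S) * s⁻¹ = φ a

theorem tf_of_isFree {A : Type} [Group A] (h : IsFreeGroup A) : TF A := by
  have e := IsFreeGroup.mulEquiv A
  exact TF.equiv e (tf_freeGroup _)

theorem simpleI (G : Type) [Group G] : ∃ (S : Type) (_ : Group S) (j : G →* S), IEmb j ∧
    IsSimpleGroup S ∧ FreeConj S ∧ (Countable G → Countable S) ∧ (TF G → TF S) := by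
  obtain ⟨S, _, i, hi, h1, h2, h3, h4, h5⟩ := Q.main2 (Pool.Agent.Y941.SG.tf base_injective) G
  exact ⟨S, inferInstance, i, ⟨hi, fun H hH => h5 H hH.toI⟩, h1, fun A A' φ hA hfr => h2 A A' φ hA hfr
    (tf_of_isFree hfr), h3, h4⟩

/-- The group `W` decides all finitely presented groups `F` (torsion-free if `tf`), and they embed in
`W` by embeddings `IEmb`. -/
def DecidesI (tf : Bool) (W : Type) [Group W] : Prop :=
  ∀ (F : Type) [Group F], Group.IsFinitelyPresented F → Cls tf F →
    (∃ u : F →* W, IEmb u) ∧ Dec F W

/-- Two-generator groups (`k` true), or countable simple groups in which the isomorphisms between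
finitely generated free subgroups are induced by conjugations (`k` false). -/
def KindOf (k : Bool) (W : Type) [Group W] : Prop :=
  (k = true → TwoGen W) ∧ (k = false → Countable W ∧ IsSimpleGroup W ∧ FreeConj W)

theorem decI {tf : Bool} {S : Type} [Group S] (i : RP (QC tf) →* S) (hi : IEmb i) :
    DecidesI tf S := by
  intro F _ hF hc
  have : Group.FG F := inferInstance
  have h := emb_RPI i hi F hc
  obtain ⟨u, hu⟩ := h
  exact ⟨⟨u, hu⟩, hu.dec⟩

theorem main_int (tf k : Bool) :
    ∃ (W : Type) (_ : Group W), KindOf k W ∧ Cls tf W ∧ DecidesI tf W := by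
  have hcount : Countable (RP (QC tf)) := RP.countable _
  cases k with
  | true =>
    obtain ⟨U, _, j, h1, h2, h3⟩ := two_genI (RP (QC tf))
    exact ⟨U, inferInstance, ⟨fun _ => h2, fun h => by simp at h⟩, fun ht => h3 (RP.cls tf ht),
      decI j h1⟩
  | false =>
    obtain ⟨S, _, i, h1, h2, h3, h4, h5⟩ := simpleI (RP (QC tf))
    exact ⟨S, inferInstance, ⟨fun h => by simp at h, fun _ => ⟨h4 hcount, h2, h3⟩⟩,
      fun ht => h5 (RP.cls tf ht), decI i h1⟩

end Pool.Agent.Y778.SG
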