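import Pool.Agent.Y778.SG.Inj

/-!
One two-generator group, and one countable simple group, which decide the injectivity of families of
natural transformations from rational homology to functors of groups and injective homomorphisms.
-/

namespace Pool.Agent.Y778.SG

open CategoryTheory DirectSum Finsupp Monoid Pool.Agent.Y483 Pool.Agent.Y110.KW

/-- If `tf` is true, the group is torsion-free (no condition otherwise). -/
def Cls (tf : Bool) (G : Type) [Group G] : Prop := tf = true → TF G

theorem Cls.of_injective {tf : Bool} {G H : Type} [Group G] [Group H] (f : G →* H)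
    (hf : Function.Injective f) (h : Cls tf H) : Cls tf G := by
  intro ht x hx
  have := h ht _ (f.isOfFinOrder hx)
  rw [← map_one f] at this
  exact hf this

theorem TF.prod {G H : Type} [Group G] [Group H] (hG : TF G) (hH : TF H) : TF (G × H) := by
  intro x hx
  have h1 := hG _ ((MonoidHom.fst G H).isOfFinOrder hx)
  have h2 := hH _ ((MonoidHom.snd G H).isOfFinOrder hx)
  exact Prod.ext h1 h2

theorem tf_Z : TF (Multiplicative ℤ) := fun x hx => (isOfFinOrder_iff_eq_one x).mp hx

theorem tf_Q : TF (Multiplicative ℚ) := fun x hx => (isOfFinOrder_iff_eq_one x).mp hx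

/-- Finite presentations of groups in the class. -/
abbrev FPC (tf : Bool) : Type := {i : FPI // Cls tf (QF i)}

/-- The groups of the finite presentations. -/
abbrev QC (tf : Bool) (i : FPC tf) : Type := QF i.1

theorem RP.cls (tf : Bool) : Cls tf (RP (QC tf)) := fun ht => RP.tf (QC tf) fun i => i.2 ht

theorem emb_RP {tf : Bool} {S : Type} [Group S] (i : RP (QC tf) →* S) (hi : HEmb i) (F : Type)
    [Group F] [Group.IsFinitelyPresented F] (hF : Cls tf F) : ∃ u : F →* S, HEmb u := by
  obtain ⟨k, ⟨e⟩⟩ := exists_QF F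
  have hk : Cls tf (QF k) := Cls.of_injective e.symm.toMonoidHom e.symm.injective hF
  exact emb_factor (QC tf) i hi.1 hi.2 ⟨k, hk⟩ e

theorem one_of {tf : Bool} {S : Type} [Group S] (i : RP (QC tf) →* S) (hi : HEmb i) (E : InjFun)
    (B : Type) (d : B → ℕ) (α : InjFam E B d) (hS : α.ker (S × Multiplicative ℤ) = ⊥) (F : Type)
    [Group F] [Group.IsFinitelyPresented F] (hF : Cls tf F) : α.ker F = ⊥ := by
  obtain ⟨u, hu⟩ := emb_RP i hi F hF
  exact α.ker_of_embed u hu.1 hu.2 detectZ hS

/-- One two-generator group. -/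
theorem one_two (hF : S_Free) (hN : NoH (FreeGroup ℕ)) (tf : Bool) :
    ∃ (U : Type) (_ : Group U), TwoGen U ∧ Cls tf U ∧
      (∀ (F : Type) [Group F] [Group.IsFinitelyPresented F], Cls tf F → ∃ u : F →* U, HEmb u) ∧
      ∀ (E : InjFun) (B : Type) (d : B → ℕ) (α : InjFam E B d),
        α.ker (U × Multiplicative ℤ) = ⊥ →
          ∀ (F : Type) [Group F] [Group.IsFinitelyPresented F], Cls tf F → α.ker F = ⊥ := by
  have : Countable (RP (QC tf)) := RP.countable _
  obtain ⟨U, _, j, h1, h2, h3, h4⟩ := two_gen hF hN (RP (QC tf))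
  exact ⟨U, inferInstance, h2, fun ht => h3 (RP.cls tf ht), fun F _ _ hF => emb_RP j ⟨h1, h4⟩ F hF,
    fun E B d α hS F _ _ hF => one_of j ⟨h1, h4⟩ E B d α hS F hF⟩

/-- One countable simple group. -/
theorem one_simple (tf : Bool) :
    ∃ (S : Type) (_ : Group S), Countable S ∧ IsSimpleGroup S ∧ Cls tf S ∧ Homog S ∧
      (∀ x y : S, orderOf x = orderOf y → IsConj x y) ∧
      (∀ (F : Type) [Group F] [Group.IsFinitelyPresented F], Cls tf F → ∃ u : F →* S, HEmb u) ∧
      ∀ (E : InjFun) (B : Type) (d : B → ℕ) (α : InjFam E B d),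
        α.ker (S × Multiplicative ℤ) = ⊥ →
          ∀ (F : Type) [Group F] [Group.IsFinitelyPresented F], Cls tf F → α.ker F = ⊥ := by
  obtain ⟨S, _, i, hi, h1, h2, h3, h4, h5⟩ :=
    main1 (Pool.Agent.Y941.SG.tf base_injective) (RP (QC tf))
  exact ⟨S, inferInstance, h3 (RP.countable _), h1, fun ht => h4 (RP.cls tf ht), h2,
    conj_of_order h2, fun F _ _ hF => emb_RP i ⟨hi, h5⟩ F hF,
    fun E B d α hS F _ _ hF => one_of i ⟨hi, h5⟩ E B d α hS F hF⟩

theorem fg_prod_Z (U : Type) [Group U] (h : TwoGen U) : Group.FG (U × Multiplicative ℤ) := by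
  have := h.fg
  infer_instance

/-- Finitely generated groups. -/
theorem class_fg (hF : S_Free) (hN : NoH (FreeGroup ℕ)) (tf : Bool) {E : InjFun} {B : Type}
    {d : B → ℕ} (α : InjFam E B d) :
    (∀ (G : Type) [Group G] [Group.FG G], Cls tf G → α.ker G = ⊥) ↔
      ∀ (U : Type) [Group U], TwoGen U → Cls tf U → α.ker (U × Multiplicative ℤ) = ⊥ := by
  constructor
  · intro h U _ hU hUc
    have := fg_prod_Z U hU
    exact h (U × Multiplicative ℤ) fun ht => (hUc ht).prod tf_Z
  · intro h G _ _ hG
    have := countable_of_fg G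
    obtain ⟨U, _, j, h1, h2, h3, h4⟩ := two_gen hF hN G
    exact α.ker_of_embed j h1 h4 detectZ (h U h2 fun ht => h3 (hG ht))

/-- Countable groups. -/
theorem class_countable (tf : Bool) {E : InjFun} {B : Type} {d : B → ℕ} (α : InjFam E B d) :
    (∀ (G : Type) [Group G], Countable G → Cls tf G → α.ker G = ⊥) ↔
      ∀ (S : Type) [Group S], Countable S → IsSimpleGroup S → Cls tf S → Homog S →
        (∀ x y : S, orderOf x = orderOf y → IsConj x y) →
        α.ker (S × Multiplicative ℚ) = ⊥ := by
  constructor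
  · intro h S _ hS _ hSc _ _
    have : Countable (Multiplicative ℚ) := inferInstanceAs (Countable ℚ)
    exact h (S × Multiplicative ℚ) inferInstance fun ht => (hSc ht).prod tf_Q
  · intro h G _ hGc hG
    obtain ⟨S, _, i, hi, h1, h2, h3, h4, h5⟩ := main1 (Pool.Agent.Y941.SG.tf base_injective) G
    exact α.ker_of_embed i hi h5 detectQ
      (h S (h3 hGc) h1 (fun ht => h4 (hG ht)) h2 (conj_of_order h2))

end Pool.Agent.Y778.SG
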