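import Pool.Agent.Y778.SG.Simple
import Pool.Agent.Y778.SG.CInj

/-!
Every group embeds in a simple group in which isomorphisms between finitely generated torsion-free
subgroups without rational homology in degrees at least two are induced by conjugations, and in
which the elements of finite order and their centralizers are those of the given group.
-/

namespace Pool.Agent.Y778.SG.T

open Pool.Agent.Y778.SG

open CategoryTheory Limits Pool.Agent.Y483 Pool.Agent.Y110.KW

section Pairs

variable (B : Type) [Group B]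

/-- Pairs of tuples of elements of `B` of the same length. -/
abbrev Tup : Type := Σ n : ℕ, (Fin n → B) × (Fin n → B)

/-- The pairs of tuples `x`, `y` for which an isomorphism from `⟨x⟩` to `⟨y⟩` maps `x i` to `y i`,
and `⟨x⟩` has no rational homology in degrees at least two. -/
def Pr : Type :=
  {p : Tup B // NoH (Subgroup.closure (Set.range p.2.1)) ∧
    TF (Subgroup.closure (Set.range p.2.1)) ∧
    ∃ φ : Subgroup.closure (Set.range p.2.1) ≃* Subgroup.closure (Set.range p.2.2),
      ∀ i, (φ ⟨p.2.1 i, Subgroup.subset_closure ⟨i, rfl⟩⟩ : B) = p.2.2 i}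

instance [Countable B] : Countable (Pr B) := by
  unfold Pr; infer_instance

/-- The corresponding family of isomorphisms. -/
noncomputable def DD : HD B where
  I := Pr B
  A p := Subgroup.closure (Set.range p.1.2.1)
  A' p := Subgroup.closure (Set.range p.1.2.2)
  φ p := p.2.2.2.choose

theorem DD_noH (p : Pr B) : NoH ((DD B).A p) := p.2.1

theorem DD_tf (p : Pr B) : TF ((DD B).A' p) := TF.equiv ((DD B).φ p) p.2.2.1

/-- The pair of empty tuples. -/
noncomputable def emptyPair : Pr B :=
  ⟨⟨0, Fin.elim0, Fin.elim0⟩, by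
    have h : Subsingleton (Subgroup.closure (Set.range (Fin.elim0 : Fin 0 → B))) := by
      have h1 : Set.range (Fin.elim0 : Fin 0 → B) = ∅ := Set.range_eq_empty _
      rw [h1, Subgroup.closure_empty]
      infer_instance
    exact ⟨noH_of_subsingleton, tf_of_subsingleton _, MulEquiv.refl _, fun i => i.elim0⟩⟩

theorem emptyPair_bot : (DD B).A (emptyPair B) = ⊥ := by
  change Subgroup.closure (Set.range (Fin.elim0 : Fin 0 → B)) = ⊥
  have h1 : Set.range (Fin.elim0 : Fin 0 → B) = ∅ := Set.range_eq_empty _
  rw [h1, Subgroup.closure_empty]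

end Pairs

/-- Every isomorphism between finitely generated subgroups without rational homology in degrees at
least two is induced by a conjugation. -/
def Homog (S : Type) [Group S] : Prop :=
  ∀ (A A' : Subgroup S) (φ : A ≃* A'), A.FG → NoH A → TF A →
    ∃ s : S, ∀ a : A, s * (a : S) * s⁻¹ = φ a

/-- The stages. -/
noncomputable def stage (G : GrpCat.{0}) : ℕ → GrpCat.{0}
  | 0 => G
  | n + 1 => GrpCat.of (HN (DD (stage G n)))

/-- The inclusions of the stages. -/
noncomputable def inc (G : GrpCat.{0}) (n : ℕ) : stage G n ⟶ stage G (n + 1) :=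
  GrpCat.ofHom (HN.base (DD (stage G n)))

section Homog

variable {G : GrpCat.{0}} {S : Type} [Group S] {j : ∀ n, stage G n →* S}

theorem homog_of_tower (hc : ∀ n x, j (n + 1) (inc G n x) = j n x) (hs : ∀ s, ∃ n x, j n x = s)
    (hinj : ∀ n, Function.Injective (j n)) : Homog S := by
  classical
  intro A A' φ hfg hno htf
  obtain ⟨E, hE⟩ := hfg
  -- a tuple of generators
  let n := E.card
  let e : Fin n ≃ E := E.equivFin.symm
  let x : Fin n → A := fun i => ⟨(e i : S), by
    rw [← hE]; exact Subgroup.subset_closure (e i).2⟩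
  have hx : Subgroup.closure (Set.range fun i => (x i : S)) = A := by
    have h0 : (Set.range fun i => (x i : S)) = (E : Set S) := by
      ext s
      constructor
      · rintro ⟨i, rfl⟩
        exact (e i).2
      · intro hs
        exact ⟨e.symm ⟨s, hs⟩, by simp [x]⟩
    rw [h0]
    exact hE
  have hy : Subgroup.closure (Set.range fun i => (φ (x i) : S)) = A' := by
    apply le_antisymm
    · rw [Subgroup.closure_le]
      rintro _ ⟨i, rfl⟩
      exact (φ (x i)).2
    · intro s hs
      obtain ⟨a, ha⟩ := φ.surjective ⟨s, hs⟩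
      have h1 : ∀ a : A, (φ a : S) ∈ Subgroup.closure (Set.range fun i => (φ (x i) : S)) := by
        rintro ⟨a, ha⟩
        have h2 : ∀ (b : S) (hb : b ∈ Subgroup.closure (Set.range fun i => (x i : S)))
            (hb' : b ∈ A), (φ ⟨b, hb'⟩ : S) ∈
              Subgroup.closure (Set.range fun i => (φ (x i) : S)) := by
          intro b hb
          induction hb using Subgroup.closure_induction with
          | mem b hb =>
            obtain ⟨i, rfl⟩ := hb
            intro _
            exact Subgroup.subset_closure ⟨i, rfl⟩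
          | one =>
            intro h
            have : (⟨1, h⟩ : A) = 1 := rfl
            rw [this, map_one]
            exact Subgroup.one_mem _
          | mul b c hb hc ihb ihc =>
            intro h
            rw [hx] at hb hc
            have : (⟨b * c, h⟩ : A) = ⟨b, hb⟩ * ⟨c, hc⟩ := rfl
            rw [this, map_mul]
            exact Subgroup.mul_mem _ (ihb hb) (ihc hc)
          | inv b hb ihb =>
            intro h
            rw [hx] at hb
            have : (⟨b⁻¹, h⟩ : A) = (⟨b, hb⟩ : A)⁻¹ := rfl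
            rw [this, map_inv]
            exact Subgroup.inv_mem _ (ihb hb)
        exact h2 a (by rw [hx]; exact ha) ha
      have h3 := h1 a
      rwa [ha] at h3
  -- lift to a stage
  obtain ⟨N, hN⟩ := tower_finite hc hs
    ((Finset.univ.image fun i => (x i : S)) ∪ Finset.univ.image fun i => (φ (x i) : S))
  have hN1 : ∀ i, ∃ u : stage G N, j N u = x i := fun i =>
    hN _ (Finset.mem_union_left _ (Finset.mem_image.mpr ⟨i, Finset.mem_univ i, rfl⟩))
  have hN2 : ∀ i, ∃ u : stage G N, j N u = φ (x i) := fun i =>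
    hN _ (Finset.mem_union_right _ (Finset.mem_image.mpr ⟨i, Finset.mem_univ i, rfl⟩))
  choose u hu using hN1
  choose v hv using hN2
  have hmapu : (Subgroup.closure (Set.range u)).map (j N) = A := by
    rw [MonoidHom.map_closure, ← Set.range_comp]
    have : (⇑(j N) ∘ u) = fun i => (x i : S) := funext hu
    rw [this, hx]
  have hmapv : (Subgroup.closure (Set.range v)).map (j N) = A' := by
    rw [MonoidHom.map_closure, ← Set.range_comp]
    have : (⇑(j N) ∘ v) = fun i => (φ (x i) : S) := funext hv
    rw [this, hy]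
  let eu : Subgroup.closure (Set.range u) ≃* A :=
    ((Subgroup.closure (Set.range u)).equivMapOfInjective _ (hinj N)).trans
      (MulEquiv.subgroupCongr hmapu)
  let ev : Subgroup.closure (Set.range v) ≃* A' :=
    ((Subgroup.closure (Set.range v)).equivMapOfInjective _ (hinj N)).trans
      (MulEquiv.subgroupCongr hmapv)
  have heu : ∀ w, (eu w : S) = j N w := fun w => rfl
  have hev : ∀ w, (ev w : S) = j N w := fun w => rfl
  let ψ : Subgroup.closure (Set.range u) ≃* Subgroup.closure (Set.range v) :=
    eu.trans (φ.trans ev.symm)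
  have hψ : ∀ w, j N (ψ w) = φ (eu w) := by
    intro w
    rw [← hev]
    change ((ev (ev.symm (φ (eu w))) : A') : S) = _
    rw [MulEquiv.apply_symm_apply]
  let p : Pr (stage G N) := ⟨⟨n, u, v⟩, noH_equiv eu.symm hno, TF.equiv eu.symm htf, ψ, by
    intro i
    apply hinj N
    rw [hψ, hv]
    congr 2
    apply Subtype.ext
    rw [heu]
    exact hu i⟩
  let t : stage G (N + 1) := HN.t (DD (stage G N)) p
  have ht : ∀ i, t * inc G N (u i) * t⁻¹ = inc G N (v i) := by
    intro i
    have h1 := HN.t_rel (DD (stage G N)) p ⟨u i, Subgroup.subset_closure ⟨i, rfl⟩⟩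
    have h2 : (((DD (stage G N)).φ p ⟨u i, Subgroup.subset_closure ⟨i, rfl⟩⟩ :
        Subgroup.closure (Set.range v)) : stage G N) = v i := p.2.2.2.choose_spec i
    exact h1.trans (congrArg _ h2)
  refine ⟨j (N + 1) t, ?_⟩
  have hgen : ∀ i, j (N + 1) t * (x i : S) * (j (N + 1) t)⁻¹ = φ (x i) := by
    intro i
    have h1 := congrArg (j (N + 1)) (ht i)
    rw [map_mul, map_mul, map_inv, hc, hc, hu, hv] at h1
    exact h1
  let c1 : A →* S := ((MulAut.conj (j (N + 1) t)).toMonoidHom).comp A.subtype
  let c2 : A →* S := A'.subtype.comp φ.toMonoidHom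
  have hall : ∀ a : A, c1 a = c2 a := by
    rintro ⟨a, ha⟩
    have h2 : ∀ (b : S) (hb : b ∈ Subgroup.closure (Set.range fun i => (x i : S)))
        (hb' : b ∈ A), c1 ⟨b, hb'⟩ = c2 ⟨b, hb'⟩ := by
      intro b hb
      induction hb using Subgroup.closure_induction with
      | mem b hb =>
        obtain ⟨i, rfl⟩ := hb
        intro _
        exact hgen i
      | one =>
        intro h
        have : (⟨1, h⟩ : A) = 1 := rfl
        rw [this, map_one, map_one]
      | mul b c hb hc ihb ihc =>
        intro h
        rw [hx] at hb hc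
        have : (⟨b * c, h⟩ : A) = ⟨b, hb⟩ * ⟨c, hc⟩ := rfl
        rw [this, map_mul, map_mul, ihb hb, ihc hc]
      | inv b hb ihb =>
        intro h
        rw [hx] at hb
        have : (⟨b⁻¹, h⟩ : A) = (⟨b, hb⟩ : A)⁻¹ := rfl
        rw [this, map_inv, map_inv, ihb hb]
    exact h2 a (by rw [hx]; exact ha) ha
  exact hall

theorem conj_of_inf (h : Homog S) (x y : S) (hx0 : ¬ IsOfFinOrder x) (hy0 : ¬ IsOfFinOrder y) :
    IsConj x y := by
  have hxy : orderOf x = orderOf y := by rw [orderOf_eq_zero hx0, orderOf_eq_zero hy0]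
  have htf : TF (Subgroup.zpowers x) := by
    rintro ⟨_, k, rfl⟩ hfin
    have hfin' : IsOfFinOrder (x ^ k) := (Subgroup.zpowers x).subtype.isOfFinOrder hfin
    by_contra hne
    apply hx0
    have hk : k ≠ 0 := by
      rintro rfl
      apply hne
      apply Subtype.ext
      simp
    obtain ⟨m, hm, hm1⟩ := isOfFinOrder_iff_pow_eq_one.1 hfin'
    rw [isOfFinOrder_iff_zpow_eq_one]
    refine ⟨k * m, mul_ne_zero hk (by exact_mod_cast hm.ne'), ?_⟩
    rw [zpow_mul, zpow_natCast]
    exact hm1
  have hx : ∀ z : Subgroup.zpowers x,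
      z ∈ Subgroup.zpowers (⟨x, Subgroup.mem_zpowers x⟩ : Subgroup.zpowers x) := by
    rintro ⟨_, k, rfl⟩
    exact ⟨k, rfl⟩
  have hy : ∀ z : Subgroup.zpowers y,
      z ∈ Subgroup.zpowers (⟨y, Subgroup.mem_zpowers y⟩ : Subgroup.zpowers y) := by
    rintro ⟨_, k, rfl⟩
    exact ⟨k, rfl⟩
  have ho : orderOf (⟨x, Subgroup.mem_zpowers x⟩ : Subgroup.zpowers x) =
      orderOf (⟨y, Subgroup.mem_zpowers y⟩ : Subgroup.zpowers y) := by
    rw [Subgroup.orderOf_mk, Subgroup.orderOf_mk, hxy]
  obtain ⟨s, hs⟩ := h _ _ (mulEquivOfOrderOfEq hx hy ho)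
    ⟨{x}, by rw [Finset.coe_singleton, Subgroup.zpowers_eq_closure]⟩ (noH_zpowers x) htf
  have h1 := hs ⟨x, Subgroup.mem_zpowers x⟩
  rw [mulEquivOfOrderOfEq_apply_gen] at h1
  exact isConj_iff.mpr ⟨s, h1⟩

theorem simple_of_tower (hc : ∀ n x, j (n + 1) (inc G n x) = j n x) (hs : ∀ s, ∃ n x, j n x = s)
    (hinj : ∀ n, Function.Injective (j n)) : IsSimpleGroup S := by
  have hH := homog_of_tower hc hs hinj
  -- the free letters
  let t : ∀ n, stage G (n + 1) := fun n => HN.t (DD (stage G n)) (emptyPair _)
  have hfin : ∀ n (x : stage G n), IsOfFinOrder (j n x) ↔ IsOfFinOrder x := fun n x =>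
    (hinj n).isOfFinOrder_iff
  have ht : ∀ n, ¬ IsOfFinOrder (j (n + 1) (t n)) := fun n => by
    rw [hfin]
    exact not_fin_of_deg (DD (stage G n)) (deg_t _ _)
  have htx : ∀ n (x : stage G n), ¬ IsOfFinOrder (j (n + 1) (inc G n x * t n)) := fun n x => by
    rw [hfin]
    apply not_fin_of_deg (DD (stage G n))
    change deg (DD (stage G n)) (HN.base (DD (stage G n)) x *
      HN.t (DD (stage G n)) (emptyPair _)) = Multiplicative.ofAdd 1
    rw [map_mul, deg_base, one_mul]
    exact deg_t (DD (stage G n)) _
  refine { exists_pair_ne := ⟨j 1 (t 0), 1, ?_⟩, eq_bot_or_eq_top_of_normal := ?_ }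
  · intro h
    apply ht 0
    change IsOfFinOrder (j 1 (t 0))
    rw [h]
    exact IsOfFinOrder.one
  · intro N hN
    by_cases hbot : N = ⊥
    · exact Or.inl hbot
    right
    obtain ⟨⟨g, hgN⟩, hg⟩ := Subgroup.ne_bot_iff_exists_ne_one.mp hbot
    have hg1 : g ≠ 1 := fun h => hg (Subtype.ext h)
    clear hg
    obtain ⟨n, x, rfl⟩ := hs g
    have hx1 : x ≠ 1 := fun h => hg1 (by rw [h, map_one])
    -- an element of infinite order in `N`
    have hcN : j (n + 1) (inc G n x * t n * (inc G n x)⁻¹ * (t n)⁻¹) ∈ N := by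
      have e : j (n + 1) (inc G n x * t n * (inc G n x)⁻¹ * (t n)⁻¹) =
          j n x * (j (n + 1) (t n) * (j n x)⁻¹ * (j (n + 1) (t n))⁻¹) := by
        rw [map_mul, map_mul, map_mul, map_inv, map_inv, hc]
        group
      rw [e]
      exact N.mul_mem hgN (hN.conj_mem _ (N.inv_mem hgN) _)
    have hcfin : ¬ IsOfFinOrder (j (n + 1) (inc G n x * t n * (inc G n x)⁻¹ * (t n)⁻¹)) := by
      rw [hfin]
      exact comm_not_fin (DD (stage G n)) (emptyPair _) (emptyPair_bot _) x hx1
    have hall : ∀ s : S, ¬ IsOfFinOrder s → s ∈ N := by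
      intro s hsf
      have h1 : IsConj (j (n + 1) (inc G n x * t n * (inc G n x)⁻¹ * (t n)⁻¹)) s :=
        conj_of_inf hH _ _ hcfin hsf
      obtain ⟨c, hc'⟩ := isConj_iff.mp h1
      rw [← hc']
      exact hN.conj_mem _ hcN c
    rw [eq_top_iff]
    intro s _
    obtain ⟨m, y, rfl⟩ := hs s
    have h1 := hall _ (htx m y)
    have h2 := hall _ (ht m)
    have h3 : j m y = j (m + 1) (inc G m y * t m) * (j (m + 1) (t m))⁻¹ := by
      rw [map_mul, hc]
      group
    rw [h3]
    exact N.mul_mem h1 (N.inv_mem h2)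

theorem mal_up (G : GrpCat.{0}) : ∀ n, Function.Injective (up (stage G) (inc G) n) ∧
    Mal (up (stage G) (inc G) n)
  | 0 => ⟨Function.injective_id, Mal.id _⟩
  | n + 1 => by
    obtain ⟨h1, h2⟩ := mal_up G n
    have h3 : Function.Injective (HN.base (DD (stage G n))) :=
      base_injective _ (DD (stage G n))
    exact ⟨h3.comp h1, Mal.comp h1 h3 (mal_base (DD (stage G n)) (DD_tf _)) h2⟩

end Homog

/-- Every group embeds in a simple group such that isomorphisms between finitely generated
torsion-free subgroups without rational homology in degrees at least two are induced by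
conjugations, such that the homology embeds in all degrees except one, and such that the elements of
finite order and their centralizers are kept. -/
theorem main2 (hTF : S_TF) (G : Type) [Group G] : ∃ (S : Type) (_ : Group S) (i : G →* S),
    Function.Injective i ∧ IsSimpleGroup S ∧ Homog S ∧ (Countable G → Countable S) ∧
      (TF G → TF S) ∧ (∀ q, q ≠ 1 → Function.Injective (hqMap i q)) ∧ Mal i := by
  obtain ⟨S, _, j, hc, hs, hinj⟩ := exists_tower (stage (GrpCat.of G)) (inc (GrpCat.of G))
    (fun n => base_injective _ (DD (stage (GrpCat.of G) n)))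
  refine ⟨S, inferInstance, j 0, hinj 0, simple_of_tower hc hs hinj, homog_of_tower hc hs hinj,
    ?_, ?_, ?_, ?_⟩
  · intro hG
    have h1 : ∀ n, Countable (stage (GrpCat.of G) n) := by
      intro n
      induction n with
      | zero => exact hG
      | succ n ih =>
        have := ih
        exact HN.countable (D := DD (stage (GrpCat.of G) n)) ih
          (inferInstanceAs (Countable (Pr (stage (GrpCat.of G) n))))
    have h2 : Function.Surjective (fun x : Σ n, stage (GrpCat.of G) n => j x.1 x.2) := by
      intro s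
      obtain ⟨n, x, hx⟩ := hs s
      exact ⟨⟨n, x⟩, hx⟩
    exact h2.countable
  · intro hG
    have h1 : ∀ n, TF (stage (GrpCat.of G) n) := by
      intro n
      induction n with
      | zero => exact hG
      | succ n ih => exact hTF _ _ ih
    intro s hsf
    obtain ⟨n, x, rfl⟩ := hs s
    rw [h1 n x ((hinj n).isOfFinOrder_iff.mp hsf), map_one]
  · intro q hq
    rcases Nat.lt_or_ge q 2 with h | h
    · have h0 : q = 0 := by omega
      subst h0
      rw [injective_iff_map_eq_zero]
      exact fun x hx => hq_zero_injective (j 0) x hx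
    · exact tower_hom hc hs hinj q (fun n => hom _ _ (DD_noH _) q h)
  · rintro c hf hc1 s ⟨c', hc'⟩
    obtain ⟨n, x, rfl⟩ := hs s
    have hup : ∀ y : G, j n (up (stage (GrpCat.of G)) (inc (GrpCat.of G)) n y) = j 0 y :=
      fun y => DFunLike.congr_fun (up_comp hc n) y
    have h1 : x * up (stage (GrpCat.of G)) (inc (GrpCat.of G)) n c * x⁻¹ =
        up (stage (GrpCat.of G)) (inc (GrpCat.of G)) n c' := by
      apply hinj n
      rw [map_mul, map_mul, map_inv, hup, hup]
      exact hc'.symm
    obtain ⟨y, rfl⟩ := (mal_up (GrpCat.of G) n).2 c hf hc1 x ⟨c', h1.symm⟩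
    exact ⟨y, (hup y).symm⟩

end Pool.Agent.Y778.SG.T
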