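import Pool.Agent.Y778.SG.One
import Pool.Agent.Y778.SG.Dfam
import Pool.Agent.Y778.SG.Simple2
import Pool.Agent.Y388.SG.Free
import Pool.Agent.Y824.SG.NoH

/-!
One two-generator group, and one countable simple group, which decide the injectivity of families of
natural transformations from the rational homology of the centralizers of the elements of finite
order to functors of groups and injective homomorphisms.
-/

namespace Pool.Agent.Y778.SG

open CategoryTheory DirectSum Finsupp Monoid Pool.Agent.Y483 Pool.Agent.Y110.KW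

theorem s_free : S_Free := ⟨Pool.Agent.Y388.SG.inj1, Pool.Agent.Y388.SG.inj2⟩

/-- Embeddings which are injective on the rational homology in all degrees except one, which keep
elements of finite order nonconjugate, and their centralizers retracts of the new centralizers. -/
def CEmb {F U : Type} [Group F] [Group U] (u : F →* U) : Prop :=
  Function.Injective u ∧ (∀ q, q ≠ 1 → Function.Injective (hqMap u q)) ∧ CInj u

theorem CEmb.comp {F U V : Type} [Group F] [Group U] [Group V] {v : U →* V} {u : F →* U}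
    (hv : CEmb v) (hu : CEmb u) : CEmb (v.comp u) := by
  refine ⟨hv.1.comp hu.1, fun q hq x y hxy => ?_, CInj.comp hu.1 hv.2.2 hu.2.2⟩
  rw [hqMap_comp, hqMap_comp] at hxy
  exact hu.2.1 q hq (hv.2.1 q hq hxy)

theorem CEmb.of_retr {F U : Type} [Group F] [Group U] (u : F →* U) (r : U →* F)
    (h : ∀ z, r (u z) = z) : CEmb u := by
  refine ⟨fun x y hxy => by rw [← h x, ← h y, hxy], fun q _ x y hxy => ?_, CInj.of_retr u r h⟩
  have e : r.comp u = MonoidHom.id F := MonoidHom.ext h
  have h1 := congrArg (hqMap r q) hxy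
  rwa [← hqMap_comp, ← hqMap_comp, e, hqMap_id, hqMap_id] at h1

/-- Countable groups embed in two-generator groups. -/
theorem two_gen2 (G : Type) [Group G] [Countable G] :
    ∃ (U : Type) (_ : Group U) (j : G →* U), CEmb j ∧ TwoGen U ∧ (TF G → TF U) := by
  obtain ⟨f, hf⟩ := exists_surjective_nat G
  let g : ℕ → G := fun n => if n = 0 then 1 else f (n - 1)
  have h0 : g 0 = 1 := if_pos rfl
  have hg : Function.Surjective g := by
    intro x
    obtain ⟨n, rfl⟩ := hf x
    exact ⟨n + 1, by simp [g]⟩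
  have htf := Pool.Agent.Y941.SG.tf base_injective
  have i1 : Function.Injective (HN.base (DF G)) := base_injective _ (DF G)
  have i2 : Function.Injective (HN.base (DU G s_free g)) := base_injective _ (DU G s_free g)
  have m1 : Mal (HN.base (DF G)) := mal_base (DF G) (fun _ => by
    change TF (⊥ : Subgroup G)
    exact tf_of_subsingleton _)
  have m2 : Mal (HN.base (DU G s_free g)) := mal_base (DU G s_free g) (fun _ =>
    TF.equiv (MonoidHom.ofInjective (yh_injective G s_free g)) (tf_freeGroup ℕ))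
  refine ⟨HN (DU G s_free g), inferInstance, (HN.base (DU G s_free g)).comp (HN.base (DF G)),
    ⟨i2.comp i1, ?_, (Mal.comp i1 i2 m2 m1).cinj (i2.comp i1)⟩,
    ⟨_, _, DU_gen G s_free g h0 hg⟩, fun h => htf _ _ (htf _ _ h)⟩
  intro q hq
  rcases Nat.lt_or_ge q 2 with h | h
  · have hq0 : q = 0 := by omega
    subst hq0
    rw [injective_iff_map_eq_zero]
    exact fun x hx => hq_zero_injective _ x hx
  · have h1 : Function.Injective (hqMap (HN.base (DF G)) q) :=
      hom _ _ (fun _ => by
        change NoH (⊥ : Subgroup G)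
        exact noH_of_subsingleton) q h
    have h2 : Function.Injective (hqMap (HN.base (DU G s_free g)) q) :=
      hom _ _ (fun _ => noH_equiv (MonoidHom.ofInjective (xh_injective G s_free))
        Pool.Agent.Y824.SG.noH_free) q h
    intro x y hxy
    rw [hqMap_comp, hqMap_comp] at hxy
    exact h1 (h2 hxy)

/-- Groups embed in simple groups. -/
theorem simple2 (G : Type) [Group G] : ∃ (S : Type) (_ : Group S) (j : G →* S), CEmb j ∧
    IsSimpleGroup S ∧ (∀ x y : S, ¬ IsOfFinOrder x → ¬ IsOfFinOrder y → IsConj x y) ∧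
    (Countable G → Countable S) ∧ (TF G → TF S) := by
  obtain ⟨S, _, i, hi, h1, h2, h3, h4, h5, h6⟩ := T.main2 (Pool.Agent.Y941.SG.tf base_injective) G
  exact ⟨S, inferInstance, i, ⟨hi, h5, h6.cinj hi⟩, h1, T.conj_of_inf h2, h3, h4⟩

theorem emb_RP2 {tf : Bool} {S : Type} [Group S] (i : RP (QC tf) →* S) (hi : CEmb i) (F : Type)
    [Group F] [Group.IsFinitelyPresented F] (hF : Cls tf F) : ∃ u : F →* S, CEmb u := by
  obtain ⟨k, ⟨e⟩⟩ := exists_QF F
  have hk : Cls tf (QF k) := Cls.of_injective e.symm.toMonoidHom e.symm.injective hF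
  let k' : FPC tf := ⟨k, hk⟩
  refine ⟨i.comp ((RP.incl (QC tf) k').comp e.toMonoidHom), hi.comp
    (CEmb.of_retr _ (e.symm.toMonoidHom.comp (RP.retr (QC tf) k')) ?_)⟩
  intro z
  have := DFunLike.congr_fun (RP.retr_incl (QC tf) k') (e z)
  change e.symm (RP.retr (QC tf) k' (RP.incl (QC tf) k' (e z))) = z
  change RP.retr (QC tf) k' (RP.incl (QC tf) k' (e z)) = e z at this
  rw [this, e.symm_apply_apply]

theorem one_of2 {tf : Bool} {S : Type} [Group S] (i : RP (QC tf) →* S) (hi : CEmb i) (E : InjFun)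
    (B : Type) (d : B → ℕ) (α : DFam E B d) (hS : α.Inj (S × Multiplicative ℤ)) (F : Type)
    [Group F] [Group.IsFinitelyPresented F] (hF : Cls tf F) : α.Inj F := by
  obtain ⟨u, hu⟩ := emb_RP2 i hi F hF
  exact α.inj_of_embed u hu.1 hu.2.1 hu.2.2 detectZ hS

/-- One two-generator group. -/
theorem dec_two (tf : Bool) :
    ∃ (U : Type) (_ : Group U), TwoGen U ∧ Cls tf U ∧
      (∀ (F : Type) [Group F] [Group.IsFinitelyPresented F], Cls tf F → ∃ u : F →* U, CEmb u) ∧
      ∀ (E : InjFun) (B : Type) (d : B → ℕ) (α : DFam E B d),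
        α.Inj (U × Multiplicative ℤ) →
          ∀ (F : Type) [Group F] [Group.IsFinitelyPresented F], Cls tf F → α.Inj F := by
  have : Countable (RP (QC tf)) := RP.countable _
  obtain ⟨U, _, j, h1, h2, h3⟩ := two_gen2 (RP (QC tf))
  exact ⟨U, inferInstance, h2, fun ht => h3 (RP.cls tf ht), fun F _ _ hF => emb_RP2 j h1 F hF,
    fun E B d α hS F _ _ hF => one_of2 j h1 E B d α hS F hF⟩

/-- One countable simple group. -/
theorem dec_simple (tf : Bool) :
    ∃ (S : Type) (_ : Group S), Countable S ∧ IsSimpleGroup S ∧ Cls tf S ∧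
      (∀ x y : S, ¬ IsOfFinOrder x → ¬ IsOfFinOrder y → IsConj x y) ∧
      (∀ (F : Type) [Group F] [Group.IsFinitelyPresented F], Cls tf F → ∃ u : F →* S, CEmb u) ∧
      ∀ (E : InjFun) (B : Type) (d : B → ℕ) (α : DFam E B d),
        α.Inj (S × Multiplicative ℤ) →
          ∀ (F : Type) [Group F] [Group.IsFinitelyPresented F], Cls tf F → α.Inj F := by
  obtain ⟨S, _, i, h1, h2, h3, h4, h5⟩ := simple2 (RP (QC tf))
  exact ⟨S, inferInstance, h4 (RP.countable _), h2, fun ht => h5 (RP.cls tf ht), h3,
    fun F _ _ hF => emb_RP2 i h1 F hF, fun E B d α hS F _ _ hF => one_of2 i h1 E B d α hS F hF⟩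

/-- Finitely generated groups. -/
theorem dec_fg (tf : Bool) {E : InjFun} {B : Type} {d : B → ℕ} (α : DFam E B d) :
    (∀ (G : Type) [Group G] [Group.FG G], Cls tf G → α.Inj G) ↔
      ∀ (U : Type) [Group U], TwoGen U → Cls tf U → α.Inj (U × Multiplicative ℤ) := by
  constructor
  · intro h U _ hU hUc
    have := fg_prod_Z U hU
    exact h (U × Multiplicative ℤ) fun ht => (hUc ht).prod tf_Z
  · intro h G _ _ hG
    have := countable_of_fg G
    obtain ⟨U, _, j, h1, h2, h3⟩ := two_gen2 G
    exact α.inj_of_embed j h1.1 h1.2.1 h1.2.2 detectZ (h U h2 fun ht => h3 (hG ht))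

/-- Countable groups. -/
theorem dec_countable (tf : Bool) {E : InjFun} {B : Type} {d : B → ℕ} (α : DFam E B d) :
    (∀ (G : Type) [Group G], Countable G → Cls tf G → α.Inj G) ↔
      ∀ (S : Type) [Group S], Countable S → IsSimpleGroup S → Cls tf S →
        (∀ x y : S, ¬ IsOfFinOrder x → ¬ IsOfFinOrder y → IsConj x y) →
        α.Inj (S × Multiplicative ℚ) := by
  constructor
  · intro h S _ hS _ hSc _
    have : Countable (Multiplicative ℚ) := inferInstanceAs (Countable ℚ)
    exact h (S × Multiplicative ℚ) inferInstance fun ht => (hSc ht).prod tf_Q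
  · intro h G _ hGc hG
    obtain ⟨S, _, i, h1, h2, h3, h4, h5⟩ := simple2 G
    exact α.inj_of_embed i h1.1 h1.2.1 h1.2.2 detectQ
      (h S (h4 hGc) h2 (fun ht => h5 (hG ht)) h3)

end Pool.Agent.Y778.SG
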