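import Pool.Agent.Y778.SG.Hom
import Pool.Agent.Y483.Torus

/-!
Elements of infinite order in multiple HNN extensions, and groups without rational homology in
degrees at least two.
-/

namespace Pool.Agent.Y778.SG

open Finsupp Pool.Agent.Y483 Pool.Agent.Y110.KW

section Orders

variable {B : Type} [Group B] (D : HD B)

/-- The sum of the exponents of the stable letters. -/
noncomputable def deg : HN D →* Multiplicative ℤ :=
  HN.lift (1 : B →* Multiplicative ℤ) (fun _ => Multiplicative.ofAdd 1) (by
    intro p a
    simp)

theorem deg_base (b : B) : deg D (HN.base D b) = 1 := by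
  unfold deg
  rw [HN.lift_base]; rfl

theorem deg_t (p : D.I) : deg D (HN.t D p) = Multiplicative.ofAdd 1 := by
  unfold deg
  rw [HN.lift_t]

theorem not_fin_of_deg {x : HN D} (hx : deg D x = Multiplicative.ofAdd 1) : ¬ IsOfFinOrder x := by
  intro h
  have h1 := (deg D).isOfFinOrder h
  rw [hx, isOfFinOrder_iff_eq_one] at h1
  exact absurd h1 (by decide)

/-- The regular action. -/
noncomputable def lreg : HN D →* Equiv.Perm (HN D →₀ ℚ) where
  toFun g := ⟨Finsupp.mapDomain (fun x => g * x), Finsupp.mapDomain (fun x => g⁻¹ * x), by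
      intro m
      rw [← Finsupp.mapDomain_comp]
      have : ((fun x => g⁻¹ * x) ∘ fun x => g * x) = id := by
        funext x; simp
      rw [this, Finsupp.mapDomain_id], by
      intro m
      rw [← Finsupp.mapDomain_comp]
      have : ((fun x => g * x) ∘ fun x => g⁻¹ * x) = id := by
        funext x; simp
      rw [this, Finsupp.mapDomain_id]⟩
  map_one' := by
    ext1 m
    change Finsupp.mapDomain (fun x => 1 * x) m = m
    have : (fun x : HN D => 1 * x) = id := by
      funext x; simp
    rw [this, Finsupp.mapDomain_id]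
  map_mul' g h := by
    ext1 m
    change Finsupp.mapDomain (fun x => g * h * x) m =
      Finsupp.mapDomain (fun x => g * x) (Finsupp.mapDomain (fun x => h * x) m)
    rw [← Finsupp.mapDomain_comp]
    congr 1
    funext x
    simp [mul_assoc]

theorem lreg_apply (g : HN D) (m : HN D →₀ ℚ) :
    lreg D g m = Finsupp.mapDomain (fun x => g * x) m := rfl

open Classical in
/-- The action in which one free letter acts by a translation. -/
noncomputable def trl (p₀ : D.I) (h0 : D.A p₀ = ⊥) : HN D →* Equiv.Perm (HN D →₀ ℚ) :=
  HN.lift ((lreg D).comp (HN.base D))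
    (fun p => if p = p₀ then Equiv.addRight (single 1 1) else lreg D (HN.t D p)) (by
      intro p a
      by_cases hp : p = p₀
      · subst hp
        have ha : a = 1 := by
          apply Subtype.ext
          have h1 : (a : B) ∈ (⊥ : Subgroup B) := by
            rw [← h0]; exact a.2
          exact Subgroup.mem_bot.mp h1
        subst ha
        rw [OneMemClass.coe_one, map_one, map_one, OneMemClass.coe_one, map_one, mul_one,
          mul_inv_cancel]
      · rw [if_neg hp]
        change lreg D _ * lreg D _ * (lreg D _)⁻¹ = lreg D _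
        rw [← HN.t_rel, map_mul, map_mul, map_inv])

theorem comm_not_fin (p₀ : D.I) (h0 : D.A p₀ = ⊥) (b : B) (hb : b ≠ 1) :
    ¬ IsOfFinOrder (HN.base D b * HN.t D p₀ * (HN.base D b)⁻¹ * (HN.t D p₀)⁻¹) := by
  classical
  intro h
  obtain ⟨n, hn, h1⟩ := isOfFinOrder_iff_pow_eq_one.mp h
  have h2 := congrArg (trl D p₀ h0) h1
  rw [map_pow, map_one, map_mul, map_mul, map_mul, map_inv, map_inv] at h2
  have e1 : trl D p₀ h0 (HN.base D b) = lreg D (HN.base D b) := by
    unfold trl
    rw [HN.lift_base]; rfl
  have e2 : trl D p₀ h0 (HN.t D p₀) = Equiv.addRight (single 1 1) := by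
    unfold trl
    rw [HN.lift_t, if_pos rfl]
  have e3 : lreg D (HN.base D b) * Equiv.addRight (single 1 1) * (lreg D (HN.base D b))⁻¹ *
      (Equiv.addRight (single 1 1 : HN D →₀ ℚ))⁻¹ =
      Equiv.addRight (single (HN.base D b) 1 - single 1 1) := by
    rw [mul_inv_eq_iff_eq_mul, mul_inv_eq_iff_eq_mul]
    ext1 m
    change lreg D (HN.base D b) (m + single 1 1) =
      lreg D (HN.base D b) m + single 1 1 + (single (HN.base D b) 1 - single 1 1)
    rw [lreg_apply, lreg_apply, Finsupp.mapDomain_add, Finsupp.mapDomain_single, mul_one]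
    abel
  have e4 : ∀ (v : HN D →₀ ℚ) (k : ℕ) (m : HN D →₀ ℚ), ((Equiv.addRight v) ^ k) m = m + k • v := by
    intro v k
    induction k with
    | zero => intro m; simp
    | succ k ih =>
      intro m
      rw [pow_succ, Equiv.Perm.mul_apply, ih, Equiv.coe_addRight, succ_nsmul', add_assoc]
  rw [e1, e2, e3] at h2
  have h3 := congrArg (fun f => f 0) h2
  simp only [e4, zero_add, Equiv.Perm.coe_one, _root_.id_eq] at h3
  have h4 : (single (HN.base D b) 1 - single 1 1 : HN D →₀ ℚ) = 0 := by
    rcases smul_eq_zero.mp h3 with h | h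
    · omega
    · exact h
  rw [sub_eq_zero] at h4
  have h5 := Finsupp.single_left_injective (one_ne_zero (α := ℚ)) h4
  exact hb (base_injective B D (h5.trans (map_one _).symm))

end Orders

section Homology

/-- Groups with one element. -/
theorem noH_of_subsingleton {A : Type} [Group A] [Subsingleton A] : NoH A := by
  intro q hq x
  obtain ⟨n, rfl⟩ : ∃ n, q = n + 1 := ⟨q - 1, by omega⟩
  have h1 := hqMap_one (G := A) (K := A) n x
  have h2 : (1 : A →* A) = MonoidHom.id A := by
    ext a; exact Subsingleton.elim _ _
  rw [h2, hqMap_id] at h1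
  exact h1

/-- The averaging homotopy. -/
noncomputable def avg (A : Type) [Fintype A] (n : ℕ) : T n A ℚ →ₗ[ℚ] T (n + 1) A ℚ :=
  ∑ g : A, cone n g

theorem dd_avg {A : Type} [Group A] [Fintype A] (n : ℕ) (z : T (n + 1) A ℚ) :
    dd (tQ A) (n + 1) (avg A (n + 1) z) = (Fintype.card A : ℚ) • z - avg A n (dd (tQ A) n z) := by
  have h : (dd (tQ A) (n + 1)) ∘ₗ (avg A (n + 1)) =
      (Fintype.card A : ℚ) • LinearMap.id - (avg A n) ∘ₗ (dd (tQ A) n) := by
    apply T_ext
    intro x m
    have e0 : ∀ (k : ℕ) (y : Fin k → A), avg A k (single y m) =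
        ∑ g : A, single (Fin.cons g y : Fin (k + 1) → A) m := by
      intro k y
      unfold avg
      rw [LinearMap.sum_apply]
      exact Finset.sum_congr rfl fun g _ => cone_single _ _ _ _
    rw [LinearMap.comp_apply, e0, map_sum, LinearMap.sub_apply, LinearMap.smul_apply,
      LinearMap.id_apply, LinearMap.comp_apply, dd_single, map_add, map_sum]
    simp only [map_smul, dd_single, tQ_apply, LinearMap.id_apply, e0]
    have e1 : ∀ g : A, (single (fun i : Fin (n + 1) => (Fin.cons g x : Fin (n + 2) → A) i.succ)
        m : T (n + 1) A ℚ) = single x m := by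
      intro g
      rfl
    have e2 : (∑ g : A, ∑ j : Fin (n + 2), ((-1 : ℚ) ^ ((j : ℕ) + 1)) •
        (single (Fin.contractNth j (· * ·) (Fin.cons g x : Fin (n + 2) → A)) m :
          T (n + 1) A ℚ)) =
        -(∑ g : A, single (Fin.cons g (fun i : Fin n => x i.succ) : Fin (n + 1) → A) m) -
        ∑ j : Fin (n + 1), ((-1 : ℚ) ^ ((j : ℕ) + 1)) •
          ∑ g : A, single (Fin.cons g (Fin.contractNth j (· * ·) x) : Fin (n + 1) → A) m := by
      rw [Finset.sum_comm, Fin.sum_univ_succ, sub_eq_add_neg]
      congr 1
      · rw [Fin.val_zero, zero_add, pow_one]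
        simp only [neg_smul, one_smul]
        rw [Finset.sum_neg_distrib]
        congr 1
        have e3 : ∀ g : A, (Fin.contractNth 0 (· * ·) (Fin.cons g x : Fin (n + 2) → A)) =
            (Fin.cons (g * x 0) (fun i : Fin n => x i.succ) : Fin (n + 1) → A) := by
          intro g
          funext i
          refine Fin.cases ?_ (fun i => ?_) i
          · rw [Fin.contractNth_apply_of_eq _ _ _ _ rfl]
            rfl
          · rw [Fin.contractNth_apply_of_gt _ _ _ _ (by simp)]
            rfl
        simp only [e3]
        exact Fintype.sum_equiv (Equiv.mulRight (x 0))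
          (fun g => (single (Fin.cons (g * x 0) (fun i : Fin n => x i.succ) : Fin (n + 1) → A) m :
            T (n + 1) A ℚ))
          (fun g => (single (Fin.cons g (fun i : Fin n => x i.succ) : Fin (n + 1) → A) m :
            T (n + 1) A ℚ)) (fun g => rfl)
      · rw [← Finset.sum_neg_distrib]
        apply Finset.sum_congr rfl
        intro j _
        rw [Fin.val_succ, pow_succ, Finset.smul_sum, ← Finset.sum_neg_distrib]
        apply Finset.sum_congr rfl
        intro g _
        rw [mul_neg_one, neg_smul]
        congr 3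
        funext i
        refine Fin.cases ?_ (fun i => ?_) i
        · rw [Fin.contractNth_apply_of_lt _ _ _ _ (by simp)]
          rfl
        · rw [Fin.cons_succ]
          rcases lt_trichotomy (i : ℕ) (j : ℕ) with h | h | h
          · rw [Fin.contractNth_apply_of_lt _ _ _ _ (by simpa using h),
              Fin.contractNth_apply_of_lt _ _ _ _ h]
            rfl
          · rw [Fin.contractNth_apply_of_eq _ _ _ _ (by simpa using h),
              Fin.contractNth_apply_of_eq _ _ _ _ h]
            rfl
          · rw [Fin.contractNth_apply_of_gt _ _ _ _ (by simpa using h),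
              Fin.contractNth_apply_of_gt _ _ _ _ h]
            rfl
    rw [Finset.sum_add_distrib, e2]
    simp only [e1]
    rw [Finset.sum_const, Finset.card_univ, ← Nat.cast_smul_eq_nsmul ℚ]
    abel
  exact DFunLike.congr_fun h z

theorem noH_of_finite {A : Type} [Group A] [Finite A] : NoH A := by
  intro q hq x
  have := Fintype.ofFinite A
  obtain ⟨n, rfl⟩ : ∃ n, q = n + 1 := ⟨q - 1, by omega⟩
  obtain ⟨z, hz⟩ := exists_rpr (Rep.trivial ℚ A ℚ) (n + 1) x
  rw [hz.eq_zero_iff]
  have h1 := dd_avg n z
  have h2 : dd (tQ A) n z = 0 := (cyc_succ _ _ _).mp hz.cyc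
  rw [h2, map_zero, sub_zero] at h1
  refine ⟨(Fintype.card A : ℚ)⁻¹ • avg A (n + 1) z, ?_⟩
  rw [map_smul]
  change _ • dd (tQ A) (n + 1) (avg A (n + 1) z) = z
  rw [h1, smul_smul, inv_mul_cancel₀, one_smul]
  exact Nat.cast_ne_zero.mpr Fintype.card_ne_zero

theorem noH_zpowers {S : Type} [Group S] (x : S) : NoH (Subgroup.zpowers x) := by
  by_cases hx : IsOfFinOrder x
  · have : Finite (Subgroup.zpowers x) := (finite_zpowers.mpr hx).to_subtype
    exact noH_of_finite
  · let e : Zn 1 →* Subgroup.zpowers x :=
      { toFun := fun k => ⟨x ^ (k.toAdd 0), ⟨_, rfl⟩⟩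
        map_one' := by
          apply Subtype.ext
          change x ^ (0 : ℤ) = 1
          rw [zpow_zero]
        map_mul' := fun k k' => by
          apply Subtype.ext
          change x ^ (k.toAdd 0 + k'.toAdd 0) = x ^ (k.toAdd 0) * x ^ (k'.toAdd 0)
          rw [zpow_add] }
    have hbij : Function.Bijective e := by
      constructor
      · intro k k' h
        have h1 : x ^ (k.toAdd 0) = x ^ (k'.toAdd 0) := congrArg Subtype.val h
        have h2 := (injective_zpow_iff_not_isOfFinOrder.mpr hx) h1
        have h3 : k.toAdd = k'.toAdd := by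
          funext i
          rw [Subsingleton.elim i 0]
          exact h2
        exact h3
      · rintro ⟨_, k, rfl⟩
        exact ⟨Multiplicative.ofAdd (fun _ => k), rfl⟩
    exact noH_equiv (MulEquiv.ofBijective e hbij) (fun q hq y => hq_eq_zero (by omega) y)

end Homology

end Pool.Agent.Y778.SG
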