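import Pool.Agent.Y110.KW.MV

/-!
Shapiro's lemma: the injectivity of `H_n(A; ℚ) → H_n(G; ℚ[G/A])`.
-/

namespace Pool.Agent.Y778.SG

open Finsupp Pool.Agent.Y483 Pool.Agent.Y110.KW

variable {G : Type} [Group G]

/-- The map of homogeneous chains behind `shap`. -/
noncomputable def shF (A : Subgroup G) (k : ℕ) : T k G ((G ⧸ A) →₀ ℚ) →ₗ[ℚ] T k A ℚ :=
  comb k (fun i : G ⧸ A => mp k (fun x : G => toA A ((rp A i)⁻¹ * x)) (LinearMap.id : ℚ →ₗ[ℚ] ℚ))

theorem bd_shF (A : Subgroup G) (k : ℕ) (z : T (k + 1) G ((G ⧸ A) →₀ ℚ)) :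
    bd k (shF A (k + 1) z) = shF A k (bd k z) := by
  unfold shF
  rw [comb_bd, comb_comp]
  congr 2
  funext i
  apply LinearMap.ext
  intro y
  exact bd_mp k _ _ y

theorem shF_tr (A : Subgroup G) (n : ℕ) (g : G) (z : T (n + 1) G ((G ⧸ A) →₀ ℚ)) :
    pp (tQ A) n (shF A (n + 1) (tr (perm A) (n + 1) g z)) = pp (tQ A) n (shF A (n + 1) z) := by
  have h : (pp (tQ A) n) ∘ₗ (shF A (n + 1)) ∘ₗ (tr (perm A) (n + 1) g) =
      (pp (tQ A) n) ∘ₗ (shF A (n + 1)) := by
    apply TI_ext
    intro x i m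
    unfold shF tr
    simp only [LinearMap.comp_apply]
    rw [mp_single, perm_single, comb_single, comb_single, mp_single, mp_single]
    have hx : (fun x : G => toA A ((rp A (g • i))⁻¹ * x)) ∘ ((fun x => g * x) ∘ x) =
        fun j => (⟨(rp A i)⁻¹ * g⁻¹ * rp A (g • i), out_smul A g i⟩ : A)⁻¹ *
          toA A ((rp A i)⁻¹ * x j) := by
      funext j
      simp only [Function.comp_apply]
      rw [eq_inv_mul_iff_mul_eq, ← toA_mul]
      congr 1
      simp only
      group
    rw [hx]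
    have h2 := pp_tr (tQ A) n (⟨(rp A i)⁻¹ * g⁻¹ * rp A (g • i), out_smul A g i⟩ : A)⁻¹
      (single ((fun x : G => toA A ((rp A i)⁻¹ * x)) ∘ x) ((LinearMap.id : ℚ →ₗ[ℚ] ℚ) m))
    rw [tr, mp_single] at h2
    exact h2
  exact DFunLike.congr_fun h z

theorem dd_shap (A : Subgroup G) (n : ℕ) (z : T (n + 1) G ((G ⧸ A) →₀ ℚ)) :
    dd (tQ A) n (shap A (n + 1) z) = shap A n (dd (perm A) n z) := by
  change dd (tQ A) n (pp (tQ A) (n + 1) (shF A (n + 2) (sg (n + 1) z))) =
    pp (tQ A) n (shF A (n + 1) (sg n (dd (perm A) n z)))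
  rw [← pp_bd, bd_shF]
  have h := factor (perm A) n ((pp (tQ A) n) ∘ₗ (shF A (n + 1))) (fun g w => shF_tr A n g w)
    (bd (n + 1) (sg (n + 1) z))
  rw [LinearMap.comp_apply, pp_bd, pp_sg] at h
  exact h

/-- The representative of the coset `A` in the definition of `toA`. -/
noncomputable def rc (A : Subgroup G) : A :=
  (toA A 1)

theorem toA_coe (A : Subgroup G) (a : A) : toA A (a : G) = a * rc A := by
  rw [rc, ← toA_mul, mul_one]

theorem shap_shInc (A : Subgroup G) (n : ℕ) (y : T n A ℚ) :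
    shap A n (shInc A n y) = mp n (fun x : A => (rc A)⁻¹ * x * rc A) LinearMap.id y := by
  have h : (shap A n) ∘ₗ (shInc A n) = mp n (fun x : A => (rc A)⁻¹ * x * rc A) LinearMap.id := by
    apply T_ext
    intro x m
    have hr : rp A (QuotientGroup.mk 1) ∈ A := by
      have := mk_rp A (QuotientGroup.mk 1)
      rw [QuotientGroup.eq] at this
      simpa using this
    unfold shap shInc
    simp only [LinearMap.comp_apply]
    rw [mp_single, sg_single, lsingle_apply, comb_single, mp_single, pp_single, mp_single, tQ_apply,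
      LinearMap.id_apply, LinearMap.id_apply]
    congr 1
    funext i
    simp only [Function.comp_apply]
    have h1 : ∀ j, toA A ((rp A (QuotientGroup.mk 1))⁻¹ *
        Fin.partialProd (⇑A.subtype ∘ x) j) = (⟨_, hr⟩ : A)⁻¹ * Fin.partialProd x j * rc A := by
      intro j
      have e : Fin.partialProd (⇑A.subtype ∘ x) j = ((Fin.partialProd x j : A) : G) := by
        induction j using Fin.induction with
        | zero => simp
        | succ j ih => rw [Fin.partialProd_succ, Fin.partialProd_succ, ih]; rfl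
      rw [e, mul_assoc]
      rw [← toA_coe, ← toA_mul]
      rfl
    rw [h1, h1]
    rw [← Fin.partialProd_right_inv x i]
    group
  exact DFunLike.congr_fun h y

/-- **Shapiro, injectivity.** -/
theorem shInc_range (A : Subgroup G) (n : ℕ) (y : T n A ℚ) (hy : Cyc (tQ A) n y)
    (h : shInc A n y ∈ LinearMap.range (dd (perm A) n)) : y ∈ LinearMap.range (dd (tQ A) n) := by
  obtain ⟨w, hw⟩ := h
  have h1 : shap A n (shInc A n y) ∈ LinearMap.range (dd (tQ A) n) :=
    ⟨shap A (n + 1) w, by rw [dd_shap, hw]⟩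
  rw [shap_shInc] at h1
  have h2 := plain (ρ := tQ A) (τ := tQ A) (MonoidHom.id A) LinearMap.id (fun _ _ => rfl) (rc A)
    n y hy
  have e1 : mp n (fun x => (rc A)⁻¹ * (MonoidHom.id A) x * rc A)
      ((tQ A (rc A)⁻¹) ∘ₗ LinearMap.id) y = mp n (fun x : A => (rc A)⁻¹ * x * rc A)
        LinearMap.id y := rfl
  have e2 : mp n (MonoidHom.id A) LinearMap.id y = y := mp_id n y
  rw [e1, e2] at h2
  have h3 := Submodule.sub_mem _ h1 h2
  rwa [sub_sub_cancel] at h3

end Pool.Agent.Y778.SG
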