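import Pool.Agent.Y778.SG.Iht

/-!
Classes of a homology theory which come from cyclic subgroups, and the homomorphisms to `ℤ`.
-/

namespace Pool.Agent.Y778.SG

namespace AbFun

variable (H : AbFun) {G K : Type} [Group G] [Group K]

variable (G) in
/-- The subgroup generated by the images of the reduced elements of `H(ℤ)` under the homomorphisms
`ℤ → G` whose image in the abelianization of `G` is finite. -/
def tor : AddSubgroup (H.obj G) :=
  AddSubgroup.closure {y | ∃ (g : G) (z : H.obj (Multiplicative ℤ)),
    IsOfFinOrder (Abelianization.of g) ∧ z ∈ H.red ∧ H.map (zpowersHom G g) z = y}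

variable {H}

/-- The homomorphism `g ↦ g_* z`. -/
noncomputable def ch (hH : H.IsHTheory) (G : Type) [Group G] {z : H.obj (Multiplicative ℤ)}
    (hz : z ∈ H.red) : G →* Multiplicative (H.obj G) where
  toFun g := Multiplicative.ofAdd (H.map (zpowersHom G g) z)
  map_one' := by
    rw [zpowersHom_one, H.map_one_eq (K := G) z hz]
    rfl
  map_mul' g g' := by
    rw [hH.zpow_mul hz]
    rfl

theorem ch_apply (hH : H.IsHTheory) (G : Type) [Group G] {z : H.obj (Multiplicative ℤ)}
    (hz : z ∈ H.red) (g : G) : ch hH G hz g = Multiplicative.ofAdd (H.map (zpowersHom G g) z) :=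
  rfl

theorem tor_eq_bot_of_red (h : H.red = ⊥) : H.tor G = ⊥ := by
  rw [eq_bot_iff, tor, AddSubgroup.closure_le]
  rintro _ ⟨g, z, _, hz, rfl⟩
  rw [h] at hz
  have hz' : z = 0 := hz
  rw [hz', map_zero]
  exact AddSubgroup.zero_mem _

theorem tor_eq_bot_of_tf (hH : H.IsHTheory)
    (h : ∀ a : Abelianization G, IsOfFinOrder a → a = 1) : H.tor G = ⊥ := by
  rw [eq_bot_iff, tor, AddSubgroup.closure_le]
  rintro _ ⟨g, z, hg, hz, rfl⟩
  have h1 : Abelianization.of g = 1 := h _ hg
  have h2 : Abelianization.lift (ch hH G hz) (Abelianization.of g) = 1 := by rw [h1, map_one]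
  rw [Abelianization.lift_apply_of] at h2
  exact h2

/-- Coordinates of a finitely generated group modulo torsion of the abelianization. -/
theorem exists_coord (G : Type) [Group G] [Group.FG G] :
    ∃ (r : ℕ) (e : Fin r → G) (f : Fin r → (G →* Multiplicative ℤ)),
      (∀ i j, f j (e i) = if i = j then Multiplicative.ofAdd 1 else 1) ∧
      ∀ g, (∀ j, f j g = 1) → IsOfFinOrder (Abelianization.of g) := by
  have hsurj : Function.Surjective (Abelianization.of : G →* Abelianization G) :=
    QuotientGroup.mk_surjective
  let A : Type := Additive (Abelianization G)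
  let Q : Type := A ⧸ Submodule.torsion ℤ A
  have h1 : Group.FG (Abelianization G) := Group.fg_of_surjective hsurj
  have h2 : AddGroup.FG A := inferInstance
  have h3 : Module.Finite ℤ A := Module.Finite.iff_addGroup_fg.mpr h2
  have h4 : Module.Finite ℤ Q := inferInstance
  obtain ⟨r, b⟩ : Σ n : ℕ, Module.Basis (Fin n) ℤ Q := Module.basisOfFiniteTypeTorsionFree'
  let qa : A →+ Q := (Submodule.mkQ (Submodule.torsion ℤ A)).toAddMonoidHom
  have hqa : Function.Surjective qa := Submodule.mkQ_surjective _
  let q : G → Q := fun g => qa (Additive.ofMul (Abelianization.of g))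
  have hq : Function.Surjective q := by
    intro y
    obtain ⟨a, ha⟩ := hqa y
    obtain ⟨g, hg⟩ := hsurj (Additive.toMul a)
    refine ⟨g, ?_⟩
    change qa (Additive.ofMul (Abelianization.of g)) = y
    rw [← ha, hg]
    rfl
  have hqm : ∀ g g', q (g * g') = q g + q g' := by
    intro g g'
    change qa (Additive.ofMul (Abelianization.of (g * g'))) = _
    rw [map_mul, ofMul_mul, map_add]
  choose e he using fun i => hq (b i)
  let f : Fin r → (G →* Multiplicative ℤ) := fun j => MonoidHom.mk' (fun g =>
    Multiplicative.ofAdd (b.repr (q g) j)) (fun g g' => by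
      rw [hqm, map_add, Finsupp.add_apply]
      rfl)
  refine ⟨r, e, f, ?_, ?_⟩
  · intro i j
    change Multiplicative.ofAdd (b.repr (q (e i)) j) = _
    rw [he, Module.Basis.repr_self, Finsupp.single_apply]
    split_ifs <;> rfl
  · intro g hg
    have h5 : q g = 0 := by
      apply b.repr.injective
      rw [map_zero]
      ext j
      exact Multiplicative.ofAdd.injective (hg j)
    have h6 : (Additive.ofMul (Abelianization.of g) : A) ∈ Submodule.torsion ℤ A :=
      (Submodule.Quotient.mk_eq_zero _).mp h5
    obtain ⟨⟨n, hn⟩, h7⟩ := h6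
    rw [isOfFinOrder_iff_zpow_eq_one]
    refine ⟨n, nonZeroDivisors.ne_zero hn, ?_⟩
    exact h7

theorem coord_top {r : ℕ} {e : Fin r → G} {f : Fin r → (G →* Multiplicative ℤ)}
    (he : ∀ i j, f j (e i) = if i = j then Multiplicative.ofAdd 1 else 1) (K : Subgroup G)
    (h1 : ∀ i, e i ∈ K) (h2 : ∀ g, (∀ j, f j g = 1) → g ∈ K) : K = ⊤ := by
  rw [eq_top_iff]
  intro g _
  let n : Fin r → ℤ := fun j => Multiplicative.toAdd (f j g)
  let w : G := (List.ofFn fun j => e j ^ n j).prod
  have hw : w ∈ K := by
    apply Subgroup.list_prod_mem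
    intro x hx
    rw [List.mem_ofFn] at hx
    obtain ⟨j, rfl⟩ := hx
    exact K.zpow_mem (h1 j) _
  have h3 : g * w⁻¹ ∈ K := by
    apply h2
    intro j
    have h4 : f j w = f j g := by
      change f j (List.ofFn fun j => e j ^ n j).prod = _
      rw [map_list_prod, List.map_ofFn, List.prod_ofFn, Finset.prod_eq_single j]
      · change f j (e j ^ n j) = _
        rw [_root_.map_zpow, he, if_pos rfl]
        change Multiplicative.ofAdd (1 : ℤ) ^ (Multiplicative.toAdd (f j g)) = f j g
        rw [← ofAdd_zsmul, smul_eq_mul, mul_one, ofAdd_toAdd]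
      · intro i _ hi
        change f j (e i ^ n i) = 1
        rw [_root_.map_zpow, he, if_neg hi, one_zpow]
      · intro h
        exact absurd (Finset.mem_univ _) h
    rw [map_mul, map_inv, h4, mul_inv_cancel]
  have h5 := K.mul_mem h3 hw
  rwa [inv_mul_cancel_right] at h5

theorem mem_tor [Group.FG G] (hH : H.IsHTheory) (x : H.obj G) (hx : x ∈ H.cyc G)
    (hf : ∀ f : G →* Multiplicative ℤ, H.map f x = 0) : x ∈ H.tor G := by
  obtain ⟨r, e, f, he, hef⟩ := exists_coord G
  let c : H.obj G →+ H.obj G := H.map (1 : G →* G)
  let P : H.obj G →+ H.obj G := c + ∑ j, (((H.map (zpowersHom G (e j))).comp (H.map (f j))) - c)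
  have hone : H.map (1 : G →* Unit) x = 0 := by
    have h1 := congrArg (H.map (1 : Multiplicative ℤ →* Unit)) (hf 1)
    rw [← H.comp_apply, map_zero] at h1
    exact h1
  have hPx : P x = 0 := by
    have hc : c x = 0 := H.map_one_eq x hone
    simp [P, hc, hf]
  have hmain : H.cyc G ≤ (H.tor G).comap (AddMonoidHom.id _ - P) := by
    rw [cyc, AddSubgroup.closure_le]
    rintro _ ⟨g, z, rfl⟩
    set z0 := H.map (1 : Multiplicative ℤ →* Multiplicative ℤ) z with hz0
    have hred : z - z0 ∈ H.red := by
      change H.map (1 : Multiplicative ℤ →* Unit) (z - z0) = 0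
      have e : (1 : Multiplicative ℤ →* Unit).comp (1 : Multiplicative ℤ →* Multiplicative ℤ) = 1 :=
        rfl
      rw [map_sub, hz0, ← H.comp_apply, e, sub_self]
    have hP : ∀ y, P y = c y + ∑ j, (H.map (zpowersHom G (e j)) (H.map (f j) y) - c y) := by
      intro y
      simp [P]
    have h1 : P (H.map (zpowersHom G g) z0) = H.map (zpowersHom G g) z0 := by
      have e1 : H.map (zpowersHom G g) z0 = H.map (1 : Multiplicative ℤ →* G) z := by
        have e0 : (zpowersHom G g).comp (1 : Multiplicative ℤ →* Multiplicative ℤ) = 1 := by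
          ext
          simp
        rw [hz0, ← H.comp_apply, e0]
      have e2 : c (H.map (zpowersHom G g) z0) = H.map (1 : Multiplicative ℤ →* G) z := by
        rw [e1, ← H.comp_apply]
        rfl
      have e3 : ∀ j, H.map (zpowersHom G (e j)) (H.map (f j) (H.map (zpowersHom G g) z0)) =
          H.map (1 : Multiplicative ℤ →* G) z := by
        intro j
        have e0 : ((zpowersHom G (e j)).comp (f j)).comp (1 : Multiplicative ℤ →* G) = 1 := by
          ext
          simp
        rw [e1, ← H.comp_apply, ← H.comp_apply, e0]
      rw [hP, e2, e1]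
      rw [e1] at e3
      rw [Finset.sum_congr rfl fun j _ => by rw [e3 j, sub_self]]
      simp
    have h2 : H.map (zpowersHom G g) (z - z0) - P (H.map (zpowersHom G g) (z - z0)) ∈ H.tor G := by
      set z' := z - z0 with hz'
      let L : Subgroup G :=
        { carrier := {g | H.map (zpowersHom G g) z' - P (H.map (zpowersHom G g) z') ∈ H.tor G}
          one_mem' := by
            change H.map (zpowersHom G (1 : G)) z' - P (H.map (zpowersHom G (1 : G)) z') ∈ H.tor G
            rw [zpowersHom_one, H.map_one_eq (K := G) z' hred, map_zero, sub_zero]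
            exact AddSubgroup.zero_mem _
          mul_mem' := by
            intro a b ha hb
            change H.map (zpowersHom G (a * b)) z' - P (H.map (zpowersHom G (a * b)) z') ∈ H.tor G
            rw [hH.zpow_mul hred, map_add, add_sub_add_comm]
            exact AddSubgroup.add_mem _ ha hb
          inv_mem' := by
            intro a ha
            change H.map (zpowersHom G a⁻¹) z' - P (H.map (zpowersHom G a⁻¹) z') ∈ H.tor G
            have h3 := hH.zpow_mul hred a a⁻¹
            rw [mul_inv_cancel, zpowersHom_one, H.map_one_eq (K := G) _ hred] at h3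
            have h4 : H.map (zpowersHom G a⁻¹) z' = - H.map (zpowersHom G a) z' :=
              (neg_eq_of_add_eq_zero_right h3.symm).symm
            rw [h4, map_neg, neg_sub_neg, ← neg_sub]
            exact AddSubgroup.neg_mem _ ha }
      have hP0 : ∀ g, P (H.map (zpowersHom G g) z') = ∑ j, H.map (zpowersHom G (e j))
          (H.map (zpowersHom (Multiplicative ℤ) (f j g)) z') := by
        intro g
        have e2 : c (H.map (zpowersHom G g) z') = 0 := by
          have e0 : (1 : G →* G).comp (zpowersHom G g) = 1 := rfl
          change H.map (1 : G →* G) (H.map (zpowersHom G g) z') = 0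
          rw [← H.comp_apply, e0]
          exact H.map_one_eq (K := G) z' hred
        rw [hP, e2, zero_add]
        exact Finset.sum_congr rfl fun j _ => by rw [sub_zero, H.map_zpow]
      have hz1 : H.map (zpowersHom (Multiplicative ℤ) 1) z' = 0 := by
        rw [zpowersHom_one]
        exact H.map_one_eq z' hred
      have hL : L = ⊤ := by
        apply coord_top he
        · intro i
          change H.map (zpowersHom G (e i)) z' - P (H.map (zpowersHom G (e i)) z') ∈ H.tor G
          have e3 : P (H.map (zpowersHom G (e i)) z') = H.map (zpowersHom G (e i)) z' := by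
            rw [hP0, Finset.sum_eq_single i]
            · rw [he, if_pos rfl]
              have e0 : zpowersHom (Multiplicative ℤ) (Multiplicative.ofAdd 1) =
                  MonoidHom.id _ := by
                ext
                simp
              rw [e0, H.id_apply]
            · intro j _ hj
              rw [he, if_neg (Ne.symm hj), hz1, map_zero]
            · intro h
              exact absurd (Finset.mem_univ _) h
          rw [e3, sub_self]
          exact AddSubgroup.zero_mem _
        · intro g hg
          change H.map (zpowersHom G g) z' - P (H.map (zpowersHom G g) z') ∈ H.tor G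
          have e3 : P (H.map (zpowersHom G g) z') = 0 := by
            rw [hP0]
            exact Finset.sum_eq_zero fun j _ => by rw [hg, hz1, map_zero]
          rw [e3, sub_zero]
          exact AddSubgroup.subset_closure ⟨g, z', hef g hg, hred, rfl⟩
      have : g ∈ L := by rw [hL]; trivial
      exact this
    change H.map (zpowersHom G g) z - P (H.map (zpowersHom G g) z) ∈ H.tor G
    have h3 : H.map (zpowersHom G g) z = H.map (zpowersHom G g) (z - z0) +
        H.map (zpowersHom G g) z0 := by rw [← map_add, sub_add_cancel]
    rw [h3, map_add, h1, add_sub_add_right_eq_sub]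
    exact h2
  have h := hmain hx
  change x - P x ∈ H.tor G at h
  rwa [hPx, sub_zero] at h

end AbFun

end Pool.Agent.Y778.SG
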