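import Pool.Agent.Y778.SG.Hom
import Pool.Agent.Y483.FRRMain

/-!
Unions of increasing sequences of groups.
-/

namespace Pool.Agent.Y778.SG

open Finsupp CategoryTheory Limits Pool.Agent.Y483 Pool.Agent.Y110.KW

theorem exists_tower (X : ℕ → GrpCat.{0}) (f : ∀ n, X n ⟶ X (n + 1))
    (hf : ∀ n, Function.Injective (f n)) : ∃ (S : Type) (_ : Group S) (j : ∀ n, X n →* S),
      (∀ n x, j (n + 1) (f n x) = j n x) ∧ (∀ s, ∃ n x, j n x = s) ∧
        ∀ n, Function.Injective (j n) := by
  let F : ℕ ⥤ GrpCat.{0} := Functor.ofSequence f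
  have hFs : ∀ n, F.map (homOfLE (Nat.le_add_right n 1)) = f n := fun n =>
    Functor.ofSequence_map_homOfLE_succ f n
  let c : Cocone F := GrpCat.FilteredColimits.colimitCocone F
  have hc : IsColimit c := GrpCat.FilteredColimits.colimitCoconeIsColimit F
  let j : ∀ n, X n ⟶ c.pt := fun n => c.ι.app n
  have hcomp : ∀ n, f n ≫ j (n + 1) = j n := by
    intro n
    rw [← hFs]
    exact c.w _
  have hinjF : ∀ (n m : ℕ) (h : n ≤ m), Function.Injective (F.map (homOfLE h)) := by
    intro n m h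
    induction m, h using Nat.le_induction with
    | base =>
      have e : (homOfLE (le_refl n) : n ⟶ n) = 𝟙 n := rfl
      rw [e, F.map_id]
      intro x y hxy
      exact hxy
    | succ m h ih =>
      have e : (homOfLE (Nat.le_succ_of_le h) : n ⟶ m + 1) =
        homOfLE h ≫ homOfLE (Nat.le_add_right m 1) := rfl
      rw [e, F.map_comp, hFs]
      intro x y hxy
      exact ih (hf m hxy)
  refine ⟨(c.pt : GrpCat.{0}), inferInstance, fun n => (j n).hom, ?_, ?_, ?_⟩
  · intro n x
    exact congrArg (fun g => g.hom x) (hcomp n)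
  · intro s
    obtain ⟨n, x, hx⟩ := Concrete.isColimit_exists_rep F hc s
    exact ⟨n, x, hx⟩
  · intro n x y hxy
    obtain ⟨m, g, g', h⟩ := Concrete.isColimit_exists_of_rep_eq F hc (x : F.obj n) (y : F.obj n) hxy
    have hg : g = g' := Subsingleton.elim _ _
    subst hg
    have h1 : g = homOfLE (leOfHom g) := Subsingleton.elim _ _
    rw [h1] at h
    exact hinjF n m _ h

section Tower

variable {X : ℕ → GrpCat.{0}} {f : ∀ n, X n ⟶ X (n + 1)} {S : Type} [Group S]
  {j : ∀ n, X n →* S}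

theorem tower_mono (hc : ∀ n x, j (n + 1) (f n x) = j n x) {n m : ℕ} (h : n ≤ m) (s : S)
    (hs : ∃ x, j n x = s) : ∃ x, j m x = s := by
  induction m, h using Nat.le_induction with
  | base => exact hs
  | succ m _ ih =>
    obtain ⟨x, hx⟩ := ih
    exact ⟨f m x, by rw [hc, hx]⟩

theorem tower_finite (hc : ∀ n x, j (n + 1) (f n x) = j n x) (hs : ∀ s, ∃ n x, j n x = s)
    (E : Finset S) : ∃ N, ∀ s ∈ E, ∃ x, j N x = s := by
  classical
  induction E using Finset.induction_on with
  | empty => exact ⟨0, by simp⟩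
  | insert a E _ ih =>
    obtain ⟨N, hN⟩ := ih
    obtain ⟨M, hM⟩ := hs a
    refine ⟨max N M, ?_⟩
    intro s hsE
    rcases Finset.mem_insert.mp hsE with rfl | h
    · exact tower_mono hc (le_max_right N M) s hM
    · exact tower_mono hc (le_max_left N M) s (hN s h)

theorem tower_lift (hc : ∀ n x, j (n + 1) (f n x) = j n x) (hs : ∀ s, ∃ n x, j n x = s) (m : ℕ)
    (w : T m S ℚ) : ∃ (N : ℕ) (w' : T m (X N) ℚ), mp m (j N) LinearMap.id w' = w := by
  classical
  obtain ⟨N, hN⟩ := tower_finite hc hs (w.support.biUnion fun x => Finset.univ.image x)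
  have hpre : ∀ s, ∃ x : X N, (∃ y, j N y = s) → j N x = s := by
    intro s
    by_cases h : ∃ y, j N y = s
    · obtain ⟨y, hy⟩ := h
      exact ⟨y, fun _ => hy⟩
    · exact ⟨1, fun h' => absurd h' h⟩
  choose pre hpre using hpre
  refine ⟨N, mp m pre LinearMap.id w, ?_⟩
  rw [mp_mp]
  have e : (LinearMap.id : ℚ →ₗ[ℚ] ℚ) ∘ₗ LinearMap.id = LinearMap.id := rfl
  rw [e]
  apply mp_eq_self
  intro x hx i
  exact hpre (x i) (hN (x i) (Finset.mem_biUnion.mpr ⟨x, hx, Finset.mem_image.mpr
    ⟨i, Finset.mem_univ i, rfl⟩⟩))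

variable (X f) in
/-- The iterated inclusions. -/
noncomputable def up : ∀ n, X 0 →* X n
  | 0 => MonoidHom.id _
  | n + 1 => (f n).hom.comp (up n)

theorem up_comp (hc : ∀ n x, j (n + 1) (f n x) = j n x) (n : ℕ) : (j n).comp (up X f n) = j 0 := by
  induction n with
  | zero => rfl
  | succ n ih =>
    rw [← ih]
    ext x
    exact hc n _

theorem tower_hom (hc : ∀ n x, j (n + 1) (f n x) = j n x) (hs : ∀ s, ∃ n x, j n x = s)
    (hinj : ∀ n, Function.Injective (j n)) (q : ℕ)
    (hq : ∀ n, Function.Injective (hqMap (f n).hom q)) : Function.Injective (hqMap (j 0) q) := by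
  have hup : ∀ n, Function.Injective (hqMap (up X f n) q) := by
    intro n
    induction n with
    | zero =>
      intro x y hxy
      have h1 : ∀ x, hqMap (up X f 0) q x = x := fun x => hqMap_id (X 0) q x
      rwa [h1, h1] at hxy
    | succ n ih =>
      intro x y hxy
      have h1 : ∀ x, hqMap (up X f (n + 1)) q x = hqMap (f n).hom q (hqMap (up X f n) q x) :=
        fun x => hqMap_comp (f n).hom (up X f n) q x
      rw [h1, h1] at hxy
      exact ih (hq n hxy)
  rw [injective_iff_map_eq_zero]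
  intro x hx
  obtain ⟨z, hz⟩ := exists_rpr (Rep.trivial ℚ (X 0) ℚ) q x
  obtain ⟨w, hw⟩ := ((hz.hq (j 0)).eq_zero_iff).mp hx
  obtain ⟨N, w', hw'⟩ := tower_lift hc hs (q + 1) w
  have h1 : mp q (up X f N) LinearMap.id z = dd (tQ (X N)) q w' := by
    apply mp_injective q (hinj N) (φ := (LinearMap.id : ℚ →ₗ[ℚ] ℚ)) Function.injective_id
    rw [← dd_mp (ρ := tQ (X N)) (τ := tQ S) (j N) LinearMap.id (fun _ _ => rfl), hw', mp_mp]
    have e : (⇑(j N) ∘ ⇑(up X f N)) = ⇑(j 0) := by
      rw [← up_comp hc N]; rfl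
    rw [e]
    exact hw.symm
  have h2 : hqMap (up X f N) q x = 0 := by
    rw [(hz.hq (up X f N)).eq_zero_iff, h1]
    exact ⟨w', rfl⟩
  exact hup N (h2.trans (map_zero _).symm)

end Tower

end Pool.Agent.Y778.SG
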