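import Pool.Agent.Y778.SG.Univ

/-!
Every countable group embeds in a two-generator group such that the rational homology embeds in all
degrees except one.
-/

namespace Pool.Agent.Y778.SG

open CategoryTheory Monoid Pool.Agent.Y483 Pool.Agent.Y110.KW

/-- The elements `b ^ (-n) * a * b ^ n`. -/
def cj {K : Type} [Group K] (a b : K) (n : ℕ) : K := b ^ (-(n : ℤ)) * a * b ^ (n : ℤ)

theorem map_cj {K L : Type} [Group K] [Group L] (f : K →* L) (a b : K) (n : ℕ) :
    f (cj a b n) = cj (f a) (f b) n := by
  simp only [cj, map_mul, map_zpow]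

theorem cj_mem {K : Type} [Group K] (H : Subgroup K) {a b : K} (ha : a ∈ H) (hb : b ∈ H) (n : ℕ) :
    cj a b n ∈ H :=
  H.mul_mem (H.mul_mem (H.zpow_mem hb _) ha) (H.zpow_mem hb _)

theorem cj_zero {K : Type} [Group K] (a b : K) : cj a b 0 = a := by simp [cj]

section Two

variable (G : Type) [Group G]

/-- The data for the free product with a free group of rank two. -/
def DF : HD G where
  I := Fin 2
  A _ := ⊥
  A' _ := ⊥
  φ _ := MulEquiv.refl _

/-- The free product with a free group of rank two. -/
abbrev BF : Type := HN (DF G)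

/-- The first letter. -/
noncomputable def la : BF G := HN.t (DF G) (0 : Fin 2)

/-- The second letter. -/
noncomputable def lb : BF G := HN.t (DF G) (1 : Fin 2)

/-- The projection to the free group. -/
noncomputable def prF : BF G →* FreeGroup (Fin 2) :=
  HN.lift 1 (fun p : Fin 2 => FreeGroup.of p) (by
    intro p a
    simp)

theorem prF_base (g : G) : prF G (HN.base (DF G) g) = 1 := HN.lift_base _ _ _ g

theorem prF_la : prF G (la G) = FreeGroup.of 0 := HN.lift_t _ _ _ _

theorem prF_lb : prF G (lb G) = FreeGroup.of 1 := HN.lift_t _ _ _ _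

/-- The first free subgroup. -/
noncomputable def xh : FreeGroup ℕ →* BF G := FreeGroup.lift (cj (la G) (lb G))

/-- The second free subgroup. -/
noncomputable def yh (g : ℕ → G) : FreeGroup ℕ →* BF G :=
  FreeGroup.lift fun n => HN.base (DF G) (g n) * cj (lb G) (la G) n

/-- The freeness statement. -/
def S_Free : Prop :=
  Function.Injective (FreeGroup.lift (cj (FreeGroup.of (0 : Fin 2)) (FreeGroup.of (1 : Fin 2)))) ∧
  Function.Injective (FreeGroup.lift (cj (FreeGroup.of (1 : Fin 2)) (FreeGroup.of (0 : Fin 2))))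

theorem xh_injective (hF : S_Free) : Function.Injective (xh G) := by
  have h : (prF G).comp (xh G) =
      FreeGroup.lift (cj (FreeGroup.of (0 : Fin 2)) (FreeGroup.of (1 : Fin 2))) := by
    ext n
    rw [MonoidHom.comp_apply, xh, FreeGroup.lift_apply_of, FreeGroup.lift_apply_of, map_cj, prF_la,
      prF_lb]
  have h1 := hF.1
  rw [← h] at h1
  exact Function.Injective.of_comp h1

theorem yh_injective (hF : S_Free) (g : ℕ → G) : Function.Injective (yh G g) := by
  have h : (prF G).comp (yh G g) =
      FreeGroup.lift (cj (FreeGroup.of (1 : Fin 2)) (FreeGroup.of (0 : Fin 2))) := by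
    ext n
    rw [MonoidHom.comp_apply, yh, FreeGroup.lift_apply_of, FreeGroup.lift_apply_of, map_mul,
      prF_base, one_mul, map_cj, prF_la, prF_lb]
  have h1 := hF.2
  rw [← h] at h1
  exact Function.Injective.of_comp h1

/-- The data for the HNN extension. -/
noncomputable def DU (hF : S_Free) (g : ℕ → G) : HD (BF G) where
  I := Unit
  A _ := (xh G).range
  A' _ := (yh G g).range
  φ _ := (MonoidHom.ofInjective (xh_injective G hF)).symm.trans
    (MonoidHom.ofInjective (yh_injective G hF g))

theorem DU_rel (hF : S_Free) (g : ℕ → G) (w : FreeGroup ℕ) :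
    HN.t (DU G hF g) () * HN.base (DU G hF g) (xh G w) * (HN.t (DU G hF g) ())⁻¹ =
      HN.base (DU G hF g) (yh G g w) := by
  have h := HN.t_rel (DU G hF g) () ⟨xh G w, ⟨w, rfl⟩⟩
  have h1 : ((DU G hF g).φ () ⟨xh G w, ⟨w, rfl⟩⟩ : BF G) = yh G g w := by
    have h2 : (⟨xh G w, ⟨w, rfl⟩⟩ : (xh G).range) =
        MonoidHom.ofInjective (xh_injective G hF) w := rfl
    change (MonoidHom.ofInjective (yh_injective G hF g)
      ((MonoidHom.ofInjective (xh_injective G hF)).symm ⟨xh G w, ⟨w, rfl⟩⟩) : BF G) = _
    rw [h2, MulEquiv.symm_apply_apply]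
    rfl
  rw [h1] at h
  exact h

theorem DU_gen (hF : S_Free) (g : ℕ → G) (h0 : g 0 = 1) (hg : Function.Surjective g) :
    Subgroup.closure {HN.base (DU G hF g) (la G), HN.t (DU G hF g) ()} = ⊤ := by
  rw [eq_top_iff]
  rintro x -
  set H := Subgroup.closure {HN.base (DU G hF g) (la G), HN.t (DU G hF g) ()} with hH
  have ha : HN.base (DU G hF g) (la G) ∈ H := Subgroup.subset_closure (by simp)
  have ht : HN.t (DU G hF g) () ∈ H := Subgroup.subset_closure (by simp)
  have hxy : ∀ w, HN.base (DU G hF g) (xh G w) ∈ H → HN.base (DU G hF g) (yh G g w) ∈ H := by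
    intro w hw
    rw [← DU_rel]
    exact H.mul_mem (H.mul_mem ht hw) (H.inv_mem ht)
  have hb : HN.base (DU G hF g) (lb G) ∈ H := by
    have h1 := hxy (FreeGroup.of 0) (by
      rw [xh, FreeGroup.lift_apply_of, cj_zero]; exact ha)
    rw [yh, FreeGroup.lift_apply_of, cj_zero, h0, map_one, one_mul] at h1
    exact h1
  have hG : ∀ γ : G, HN.base (DU G hF g) (HN.base (DF G) γ) ∈ H := by
    intro γ
    obtain ⟨n, rfl⟩ := hg γ
    have h1 := hxy (FreeGroup.of n) (by
      rw [xh, FreeGroup.lift_apply_of, map_cj]; exact cj_mem H ha hb n)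
    rw [yh, FreeGroup.lift_apply_of, map_mul, map_cj] at h1
    have h2 := H.mul_mem h1 (H.inv_mem (cj_mem H hb ha n))
    rwa [mul_inv_cancel_right] at h2
  refine HN.mem_of H ?_ (fun _ => ht) x
  intro b
  refine HN.mem_of (D := DF G) (H.comap (HN.base (DU G hF g))) hG ?_ b
  have hp : ∀ p : Fin 2, HN.base (DU G hF g) (HN.t (DF G) p) ∈ H := by
    intro p
    fin_cases p
    · exact ha
    · exact hb
  exact fun p => hp p

end Two

/-- Countable groups embed in two-generator groups, with control of the homology. -/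
theorem two_gen (hF : S_Free) (hN : NoH (FreeGroup ℕ)) (G : Type) [Group G] [Countable G] :
    ∃ (U : Type) (_ : Group U) (j : G →* U), Function.Injective j ∧
      (∃ x y : U, Subgroup.closure {x, y} = ⊤) ∧ (TF G → TF U) ∧
      ∀ q, q ≠ 1 → Function.Injective (hqMap j q) := by
  obtain ⟨f, hf⟩ := exists_surjective_nat G
  let g : ℕ → G := fun n => if n = 0 then 1 else f (n - 1)
  have h0 : g 0 = 1 := if_pos rfl
  have hg : Function.Surjective g := by
    intro x
    obtain ⟨n, rfl⟩ := hf x
    exact ⟨n + 1, by simp [g]⟩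
  have htf := Pool.Agent.Y941.SG.tf base_injective
  refine ⟨HN (DU G hF g), inferInstance, (HN.base (DU G hF g)).comp (HN.base (DF G)),
    (base_injective _ (DU G hF g)).comp (base_injective _ (DF G)),
    ⟨_, _, DU_gen G hF g h0 hg⟩, fun h => htf _ _ (htf _ _ h), ?_⟩
  intro q hq
  rcases Nat.lt_or_ge q 2 with h | h
  · have hq0 : q = 0 := by omega
    subst hq0
    rw [injective_iff_map_eq_zero]
    exact fun x hx => hq_zero_injective _ x hx
  · have h1 : Function.Injective (hqMap (HN.base (DF G)) q) :=
      hom _ _ (fun _ => by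
        change NoH (⊥ : Subgroup G)
        exact noH_of_subsingleton) q h
    have h2 : Function.Injective (hqMap (HN.base (DU G hF g)) q) :=
      hom _ _ (fun _ => noH_equiv (MonoidHom.ofInjective (xh_injective G hF)) hN) q h
    intro x y hxy
    rw [hqMap_comp, hqMap_comp] at hxy
    exact h1 (h2 hxy)

end Pool.Agent.Y778.SG
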