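import Pool.Agent.Y778.SG.Fam
import Pool.Agent.Y688.SG.Fin
import Pool.Agent.Y824.SG.HFP
import Pool.Agent.Y941.SG.TF

/-!
A countable simple group which decides the injectivity of all families of natural transformations
from rational homology to finitary functors.
-/

namespace Pool.Agent.Y778.SG

open CategoryTheory DirectSum Finsupp Monoid Pool.Agent.Y483 Pool.Agent.Y110.KW

/-! ### Restricted direct products -/

section RP

variable {I : Type} (Q : I → Type) [∀ i, Group (Q i)]

/-- The restricted direct product. -/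
def RP : Subgroup (∀ i, Q i) where
  carrier := {f | {i | f i ≠ 1}.Finite}
  one_mem' := by
    change {i : I | (1 : ∀ i, Q i) i ≠ 1}.Finite
    simp
  mul_mem' := by
    intro f g hf hg
    refine (hf.union hg).subset ?_
    intro i hi
    by_contra h
    simp only [Set.mem_union, Set.mem_ofPred_eq, not_or, not_not] at h
    apply hi
    change f i * g i = 1
    rw [h.1, h.2, one_mul]
  inv_mem' := by
    intro f hf
    refine Set.Finite.subset hf ?_
    intro i hi h
    apply hi
    change (f i)⁻¹ = 1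
    rw [h, inv_one]

open Classical in
/-- The inclusion of a factor. -/
noncomputable def RP.incl (i : I) : Q i →* RP Q where
  toFun x := ⟨Pi.mulSingle i x, (Set.finite_singleton i).subset (by
    intro j hj
    by_contra h
    exact hj (Pi.mulSingle_eq_of_ne h x))⟩
  map_one' := Subtype.ext (Pi.mulSingle_one i)
  map_mul' x y := Subtype.ext (Pi.mulSingle_mul i x y)

/-- The projection to a factor. -/
def RP.retr (i : I) : RP Q →* Q i := (Pi.evalMonoidHom Q i).comp (RP Q).subtype

theorem RP.retr_incl (i : I) : (RP.retr Q i).comp (RP.incl Q i) = MonoidHom.id (Q i) := by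
  classical
  ext x
  change Pi.mulSingle i x i = x
  exact Pi.mulSingle_eq_same i x

theorem RP.countable [Countable I] [∀ i, Countable (Q i)] : Countable (RP Q) := by
  classical
  have h : Function.Surjective (fun x : (Σ s : Finset I, ∀ i : s, Q i) =>
      (⟨fun i => if h : i ∈ x.1 then x.2 ⟨i, h⟩ else 1, (x.1.finite_toSet).subset (by
        intro j hj
        by_contra h
        apply hj
        have h' : j ∉ x.1 := h
        simp only [dif_neg h'])⟩ : RP Q)) := by
    rintro ⟨f, hf⟩
    have hf' : {i | f i ≠ 1}.Finite := hf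
    refine ⟨⟨hf'.toFinset, fun i => f i⟩, ?_⟩
    apply Subtype.ext
    funext i
    by_cases h : i ∈ hf'.toFinset
    · simp only [dif_pos h]
    · simp only [dif_neg h]
      rw [Set.Finite.mem_toFinset] at h
      exact (not_not.mp h).symm
  exact h.countable

theorem RP.tf (h : ∀ i, TF (Q i)) : TF (RP Q) := by
  rintro ⟨f, hf⟩ hfin
  apply Subtype.ext
  funext i
  exact h i _ ((RP.retr Q i).isOfFinOrder hfin)

end RP

/-! ### Finitely presented groups -/

/-- Finite presentations. -/
abbrev FPI : Type := Σ n : ℕ, List (FreeGroup (Fin n))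

/-- The group of a finite presentation. -/
abbrev QF (i : FPI) : Type := PresentedGroup {r : FreeGroup (Fin i.1) | r ∈ i.2}

theorem countable_freeGroup (n : ℕ) : Countable (FreeGroup (Fin n)) := by
  have h' : Function.Surjective (FreeGroup.mk : List (Fin n × Bool) → _) := Quot.mk_surjective
  exact h'.countable

instance : Countable FPI := by
  have := countable_freeGroup
  infer_instance

instance (i : FPI) : Countable (QF i) := by
  have := countable_freeGroup i.1
  exact (PresentedGroup.mk_surjective {r : FreeGroup (Fin i.1) | r ∈ i.2}).countable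

theorem exists_QF (F : Type) [Group F] [Group.IsFinitelyPresented F] :
    ∃ i : FPI, Nonempty (F ≃* QF i) := by
  classical
  obtain ⟨n, s, hs, ⟨e⟩⟩ := Group.IsFinitelyPresented.exists_mulEquiv_presentedGroup (G := F)
  have h : {r : FreeGroup (Fin n) | r ∈ hs.toFinset.toList} = s := by
    ext r; simp
  refine ⟨⟨n, hs.toFinset.toList⟩, ⟨?_⟩⟩
  change F ≃* PresentedGroup {r : FreeGroup (Fin n) | r ∈ hs.toFinset.toList}
  rw [h]
  exact e

instance fg_of_fp (F : Type) [Group F] [Group.IsFinitelyPresented F] : Group.FG F := by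
  obtain ⟨n, φ, hφ, _⟩ := ‹Group.IsFinitelyPresented F›
  exact Group.fg_of_surjective hφ

/-! ### Kernels -/

variable {B : Type} {d : B → ℕ} {E : GrpCat.{0} ⥤ ModuleCat.{0} ℚ}

theorem detectZ' {G : Type} [Group G] [Group.FG G] (q : ℕ) (hq : q = 1) (x : HQ q G) (hx : x ≠ 0) :
    ∃ v : G →* Multiplicative ℤ, hqMap v q x ≠ 0 := by
  subst hq
  exact detectZ x hx

/-- Kernels for finitely generated groups whose homology embeds in degrees different from one. -/
theorem ker_of_embed (α : ∀ b : B, hq (d b) ⟶ E) {F S : Type} [Group F] [Group S] [Group.FG F]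
    (u : F →* S) (hu : ∀ q, q ≠ 1 → Function.Injective (hqMap u q)) (hS : kerFam α S = ⊥)
    (hZ : kerFam α (Multiplicative ℤ) = ⊥) : kerFam α F = ⊥ := by
  rw [eq_bot_iff]
  intro x hx
  rw [Submodule.mem_bot]
  apply DFinsupp.ext
  intro b
  change x b = 0
  by_contra hb
  by_cases hq : d b = 1
  · obtain ⟨v, hv⟩ := detectZ' (d b) hq (x b) hb
    have h1 := mem_kerFam_map α v hx
    rw [hZ, Submodule.mem_bot] at h1
    apply hv
    rw [← hdMap_apply, h1]
    rfl
  · have h1 := mem_kerFam_map α u hx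
    rw [hS, Submodule.mem_bot] at h1
    apply hb
    apply hu (d b) hq
    rw [← hdMap_apply, h1, map_zero]
    rfl

theorem hfp_fam {G : Type} [Group G] (x : HDeg d G) :
    ∃ (F : Type) (_ : Group F) (_ : Group.IsFinitelyPresented F) (f : F →* G) (y : HDeg d F),
      hdMap f y = x := by
  classical
  induction x using DirectSum.induction_on with
  | zero => exact ⟨Unit, inferInstance, inferInstance, 1, 0, map_zero _⟩
  | of b y =>
    obtain ⟨F, _, _, f, w, hw⟩ := Pool.Agent.Y824.SG.hfp {d b} G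
      (DirectSum.of (fun j : ({d b} : Set ℕ) => HQ j G) ⟨d b, rfl⟩ y)
    refine ⟨F, inferInstance, inferInstance, f,
      DirectSum.of (fun b => HQ (d b) F) b (w ⟨d b, rfl⟩), ?_⟩
    have h1 : hqMap f (d b) (w ⟨d b, rfl⟩) = y := by
      have h2 := congrArg (fun z : HJ {d b} G => z ⟨d b, rfl⟩) hw
      simp only [hjMap_apply] at h2
      rw [h2]
      exact DirectSum.of_eq_same (β := fun j : ({d b} : Set ℕ) => HQ j G) ⟨d b, rfl⟩ y
    rw [← h1]
    unfold hdMap
    exact DirectSum.lmap_lof _ _ _
  | add x x' hx hx' =>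
    obtain ⟨F, _, _, f, y, rfl⟩ := hx
    obtain ⟨F', _, _, f', y', rfl⟩ := hx'
    refine ⟨Coprod F F', inferInstance, inferInstance, Coprod.lift f f',
      hdMap Coprod.inl y + hdMap Coprod.inr y', ?_⟩
    rw [map_add, ← hdMap_comp, ← hdMap_comp, Coprod.lift_comp_inl, Coprod.lift_comp_inr]

theorem ker_all (hE : Finitary E) (α : ∀ b : B, hq (d b) ⟶ E)
    (h : ∀ (F : Type) [Group F] [Group.IsFinitelyPresented F], kerFam α F = ⊥)
    (G : Type) [Group G] : kerFam α G = ⊥ := by
  rw [eq_bot_iff]
  intro x hx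
  rw [Submodule.mem_bot]
  obtain ⟨F, _, _, f, y, rfl⟩ := hfp_fam x
  have h1 : (E.map (GrpCat.ofHom f)).hom (tot α F y) = 0 := by
    rw [tot_nat]
    exact hx
  obtain ⟨F', _, _, g, k, rfl, hgk⟩ := hE F G f (tot α F y) h1
  have h2 : hdMap g y ∈ kerFam α F' := by
    unfold kerFam
    rw [LinearMap.mem_ker, ← tot_nat]
    exact hgk
  rw [h, Submodule.mem_bot] at h2
  rw [hdMap_comp, h2, map_zero]

/-- The inclusion of a factor of a restricted direct product in an overgroup. -/
theorem emb_factor {I : Type} (Q : I → Type) [∀ i, Group (Q i)] {S : Type} [Group S]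
    (i : RP Q →* S) (hi : Function.Injective i)
    (h5 : ∀ q, q ≠ 1 → Function.Injective (hqMap i q)) (k : I) {F : Type} [Group F]
    (e : F ≃* Q k) : ∃ u : F →* S, Function.Injective u ∧
      ∀ q, q ≠ 1 → Function.Injective (hqMap u q) := by
  refine ⟨i.comp ((RP.incl Q k).comp e.toMonoidHom), ?_, ?_⟩
  · have h0 : Function.Injective (RP.incl Q k) := by
      intro x y hxy
      have h1 := DFunLike.congr_fun (RP.retr_incl Q k)
      exact (h1 x).symm.trans ((congrArg (RP.retr Q k) hxy).trans (h1 y))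
    exact hi.comp (h0.comp e.injective)
  intro q hq
  have e1 : ∀ x : HQ q F, hqMap (i.comp ((RP.incl Q k).comp e.toMonoidHom)) q x =
      hqMap i q (hqMap ((RP.incl Q k).comp e.toMonoidHom) q x) := fun x => hqMap_comp _ _ _ _
  intro x y hxy
  rw [e1, e1] at hxy
  have h6 := h5 q hq hxy
  have h7 : (e.symm.toMonoidHom.comp (RP.retr Q k)).comp ((RP.incl Q k).comp e.toMonoidHom) =
      MonoidHom.id F := by
    ext z
    have := DFunLike.congr_fun (RP.retr_incl Q k) (e z)
    change e.symm (RP.retr Q k (RP.incl Q k (e z))) = z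
    change RP.retr Q k (RP.incl Q k (e z)) = e z at this
    rw [this, e.symm_apply_apply]
  have h8 : ∀ x : HQ q F, hqMap (e.symm.toMonoidHom.comp (RP.retr Q k)) q
      (hqMap ((RP.incl Q k).comp e.toMonoidHom) q x) = x := by
    intro x
    rw [← hqMap_comp, h7, hqMap_id]
  rw [← h8 x, ← h8 y, h6]

/-- The countable simple group. -/
theorem univ : ∃ (S : Type) (_ : Group S), Countable S ∧ IsSimpleGroup S ∧ Homog S ∧
    (∀ (F : Type) [Group F] [Group.IsFinitelyPresented F], ∃ u : F →* S,
      Function.Injective u ∧ ∀ q, q ≠ 1 → Function.Injective (hqMap u q)) ∧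
    ∀ (E : GrpCat.{0} ⥤ ModuleCat.{0} ℚ), Finitary E → ∀ (B : Type) (d : B → ℕ)
      (α : ∀ b : B, hq (d b) ⟶ E),
      (∀ (G : Type) [Group G], kerFam α G = ⊥) ↔
        kerFam α S = ⊥ ∧ kerFam α (Multiplicative ℤ) = ⊥ := by
  obtain ⟨S, _, i, hi, h1, h2, h3, _, h5⟩ := main1 (Pool.Agent.Y941.SG.tf base_injective) (RP QF)
  have hemb : ∀ (F : Type) [Group F] [Group.IsFinitelyPresented F], ∃ u : F →* S,
      Function.Injective u ∧ ∀ q, q ≠ 1 → Function.Injective (hqMap u q) := by
    intro F _ _
    obtain ⟨k, ⟨e⟩⟩ := exists_QF F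
    exact emb_factor QF i hi h5 k e
  refine ⟨S, inferInstance, h3 (RP.countable QF), h1, h2, hemb, ?_⟩
  intro E hE B d α
  refine ⟨fun h => ⟨h S, h _⟩, ?_⟩
  rintro ⟨hS, hZ⟩
  apply ker_all hE α
  intro F _ _
  obtain ⟨u, _, hu⟩ := hemb F
  exact ker_of_embed α u hu hS hZ

/-- Conjugacy classes of a torsion-free homogeneous group. -/
theorem two_classes {S : Type} [Group S] (h2 : Homog S) (hTF : TF S) (x y : S) (hx : x ≠ 1)
    (hy : y ≠ 1) : IsConj x y := by
  apply conj_of_order h2
  rw [orderOf_eq_zero fun h => hx (hTF x h), orderOf_eq_zero fun h => hy (hTF y h)]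

/-- The countable torsion-free simple group. -/
theorem univTF : ∃ (S : Type) (_ : Group S), Countable S ∧ IsSimpleGroup S ∧ TF S ∧ Homog S ∧
    (∀ x y : S, x ≠ 1 → y ≠ 1 → IsConj x y) ∧
    (∀ (F : Type) [Group F] [Group.IsFinitelyPresented F], TF F → ∃ u : F →* S,
      Function.Injective u ∧ ∀ q, q ≠ 1 → Function.Injective (hqMap u q)) ∧
    ∀ (E : GrpCat.{0} ⥤ ModuleCat.{0} ℚ) (B : Type) (d : B → ℕ) (α : ∀ b : B, hq (d b) ⟶ E),
      kerFam α S = ⊥ → kerFam α (Multiplicative ℤ) = ⊥ →
      ∀ (F : Type) [Group F] [Group.IsFinitelyPresented F], TF F → kerFam α F = ⊥ := by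
  let Q : {i : FPI // TF (QF i)} → Type := fun i => QF i.1
  obtain ⟨S, _, i, hi, h1, h2, h3, h4, h5⟩ := main1 (Pool.Agent.Y941.SG.tf base_injective) (RP Q)
  have hTF : TF S := h4 (RP.tf Q fun i => i.2)
  have hemb : ∀ (F : Type) [Group F] [Group.IsFinitelyPresented F], TF F → ∃ u : F →* S,
      Function.Injective u ∧ ∀ q, q ≠ 1 → Function.Injective (hqMap u q) := by
    intro F _ _ hF
    obtain ⟨k, ⟨e⟩⟩ := exists_QF F
    have hk : TF (QF k) := by
      intro x hx
      have := hF _ (e.symm.toMonoidHom.isOfFinOrder hx)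
      exact (map_eq_one_iff e.symm e.symm.injective).mp this
    exact emb_factor Q i hi h5 ⟨k, hk⟩ e
  refine ⟨S, inferInstance, h3 (RP.countable Q), h1, hTF, h2, two_classes h2 hTF, hemb, ?_⟩
  intro E B d α hS hZ F _ _ hF
  obtain ⟨u, _, hu⟩ := hemb F hF
  exact ker_of_embed α u hu hS hZ

/-- Kernels come from finitely generated subgroups. -/
theorem ker_fg (hE : Finitary E) (α : ∀ b : B, hq (d b) ⟶ E) (G : Type) [Group G]
    (h : ∀ H : Subgroup G, H.FG → kerFam α H = ⊥) : kerFam α G = ⊥ := by
  rw [eq_bot_iff]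
  intro x hx
  rw [Submodule.mem_bot]
  obtain ⟨F, _, _, f, y, rfl⟩ := hfp_fam x
  have h1 : (E.map (GrpCat.ofHom f)).hom (tot α F y) = 0 := by
    rw [tot_nat]
    exact hx
  obtain ⟨F', _, _, g, k, rfl, hgk⟩ := hE F G f (tot α F y) h1
  have h2 : hdMap g y ∈ kerFam α F' := by
    unfold kerFam
    rw [LinearMap.mem_ker, ← tot_nat]
    exact hgk
  have h3 := mem_kerFam_map α k.rangeRestrict h2
  have hfg : (k.range).FG := by
    rw [← Group.fg_iff_subgroup_fg]
    exact Group.fg_of_surjective k.rangeRestrict_surjective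
  rw [h _ hfg, Submodule.mem_bot] at h3
  have e1 : hdMap (k.comp g) y = hdMap k.range.subtype (hdMap k.rangeRestrict (hdMap g y)) := by
    rw [← hdMap_comp, ← hdMap_comp]
    rfl
  rw [e1, h3, map_zero]

/-- Torsion-free groups and torsion-free simple groups. -/
theorem classTF (hE : Finitary E) (α : ∀ b : B, hq (d b) ⟶ E) :
    (∀ (G : Type) [Group G], TF G → kerFam α G = ⊥) ↔
      (∀ (S : Type) [Group S], Countable S → IsSimpleGroup S → TF S → Homog S →
        (∀ x y : S, x ≠ 1 → y ≠ 1 → IsConj x y) → kerFam α S = ⊥) ∧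
      kerFam α (Multiplicative ℤ) = ⊥ := by
  constructor
  · intro h
    refine ⟨fun S _ _ _ hS _ _ => h S hS, h _ ?_⟩
    intro x hx
    exact (isOfFinOrder_iff_eq_one x).mp hx
  · rintro ⟨h, hZ⟩ G _ hG
    apply ker_fg hE α
    intro H hH
    have hHfg : Group.FG H := (Group.fg_iff_subgroup_fg H).mpr hH
    have hHc : Countable H := by
      obtain ⟨A, _, φ, hφ⟩ := Group.fg_iff_exists_freeGroup_hom_surjective_finite.mp hHfg
      have h' : Function.Surjective (FreeGroup.mk : List (A × Bool) → _) := Quot.mk_surjective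
      have h'' : Countable (FreeGroup A) := h'.countable
      exact hφ.countable
    have hHTF : TF H := by
      intro x hx
      apply Subtype.ext
      exact hG _ (H.subtype.isOfFinOrder hx)
    obtain ⟨S, _, i, hi, h1, h2, h3, h4, h5⟩ := main1 (Pool.Agent.Y941.SG.tf base_injective) H
    exact ker_of_embed α i h5 (h S (h3 hHc) h1 (h4 hHTF) h2 (two_classes h2 (h4 hHTF))) hZ

end Pool.Agent.Y778.SG
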